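import Mathlib

/-!
Helpers for Wilf–Zeilberger style proofs of integrality of binomial sums:
a reciprocal factorial on `ℤ` and Legendre-type divisibility criteria.
-/

namespace Pool.Agent.R440

open Nat Finset

/-- Reciprocal factorial on the integers, `0` at negative integers. -/
noncomputable def rf (n : ℤ) : ℚ := if 0 ≤ n then 1 / ((n.toNat)! : ℚ) else 0

theorem rf_nat (n : ℕ) : rf (n : ℤ) = 1 / (n ! : ℚ) := by
  unfold rf
  rw [if_pos (Int.natCast_nonneg n)]
  simp

theorem rf_neg {n : ℤ} (h : n < 0) : rf n = 0 := by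
  unfold rf
  rw [if_neg (by omega)]

theorem rf_zero : rf 0 = 1 := by
  have := rf_nat 0
  simpa using this

theorem rf_step (n : ℤ) : rf n = ((n : ℚ) + 1) * rf (n + 1) := by
  rcases lt_trichotomy n (-1) with h | h | h
  · rw [rf_neg (by omega), rf_neg (by omega)]; simp
  · subst h
    rw [rf_neg (by norm_num)]; simp
  · obtain ⟨m, rfl⟩ : ∃ m : ℕ, n = m := ⟨n.toNat, by omega⟩
    have h2 : ((m : ℤ) + 1) = ((m + 1 : ℕ) : ℤ) := by push_cast; ring
    rw [h2, rf_nat, rf_nat, Nat.factorial_succ]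
    have : (m ! : ℚ) ≠ 0 := by exact_mod_cast Nat.factorial_ne_zero m
    have h3 : ((m : ℚ) + 1) ≠ 0 := by positivity
    push_cast
    field_simp

theorem prod_fac_ne_zero (A : List ℕ) : (A.map Nat.factorial).prod ≠ 0 := by
  induction A with
  | nil => simp
  | cons a A ih =>
    rw [List.map_cons, List.prod_cons]
    exact mul_ne_zero (Nat.factorial_ne_zero a) ih

theorem factorization_prod_fac (A : List ℕ) {p b : ℕ} (hp : p.Prime)
    (hb : ∀ a ∈ A, Nat.log p a < b) :
    ((A.map Nat.factorial).prod).factorization p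
      = ∑ i ∈ Finset.Ico 1 b, (A.map (· / p ^ i)).sum := by
  induction A with
  | nil => simp
  | cons a A ih =>
    rw [List.map_cons, List.prod_cons,
      Nat.factorization_mul (Nat.factorial_ne_zero a) (prod_fac_ne_zero A), Finsupp.add_apply,
      ih (fun x hx => hb x (List.mem_cons_of_mem a hx)),
      Nat.factorization_factorial hp (hb a List.mem_cons_self), ← Finset.sum_add_distrib]
    refine Finset.sum_congr rfl fun i _ => ?_
    rw [List.map_cons, List.sum_cons]

theorem log_lt_bound (A : List ℕ) (p : ℕ) : ∀ a ∈ A, Nat.log p a < A.sum + 1 := by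
  intro a ha
  have h1 : a ≤ A.sum := List.single_le_sum (by simp) a ha
  have h2 : Nat.log p a ≤ a := Nat.log_le_self p a
  omega

/-- Legendre criterion at one prime. -/
theorem factorization_fac_le (A B : List ℕ) {p : ℕ} (hp : p.Prime)
    (h : ∀ i, 1 ≤ i → (B.map (· / p ^ i)).sum ≤ (A.map (· / p ^ i)).sum) :
    ((B.map Nat.factorial).prod).factorization p
      ≤ ((A.map Nat.factorial).prod).factorization p := by
  have hA : ∀ a ∈ A, Nat.log p a < A.sum + B.sum + 1 := by
    intro a ha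
    have := log_lt_bound A p a ha
    omega
  have hB : ∀ a ∈ B, Nat.log p a < A.sum + B.sum + 1 := by
    intro a ha
    have := log_lt_bound B p a ha
    omega
  rw [factorization_prod_fac A hp hA, factorization_prod_fac B hp hB]
  refine Finset.sum_le_sum fun i hi => h i ?_
  rw [Finset.mem_Ico] at hi
  exact hi.1

/-- Legendre criterion for divisibility of products of factorials. -/
theorem prod_fac_dvd (A B : List ℕ)
    (h : ∀ q, 2 ≤ q → (B.map (· / q)).sum ≤ (A.map (· / q)).sum) :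
    (B.map Nat.factorial).prod ∣ (A.map Nat.factorial).prod := by
  rw [← Nat.factorization_prime_le_iff_dvd (prod_fac_ne_zero B) (prod_fac_ne_zero A)]
  intro p hp
  refine factorization_fac_le A B hp fun i hi => h _ ?_
  calc 2 ≤ p := hp.two_le
    _ = p ^ 1 := (pow_one p).symm
    _ ≤ p ^ i := Nat.pow_le_pow_right hp.pos hi

/-- Central binomial coefficient with integer index, `0` at negative integers. -/
noncomputable def cb (m : ℤ) : ℚ := if 0 ≤ m then ((2 * m.toNat).choose m.toNat : ℚ) else 0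

theorem cb_nat (m : ℕ) : cb (m : ℤ) = ((2 * m).choose m : ℚ) := by
  unfold cb
  rw [if_pos (Int.natCast_nonneg m)]
  simp

theorem cb_neg {m : ℤ} (h : m < 0) : cb m = 0 := by
  unfold cb
  rw [if_neg (by omega)]

theorem choose_two_mul (m : ℕ) :
    ((2 * m).choose m : ℚ) = ((2 * m)! : ℚ) / ((m ! : ℚ) * (m ! : ℚ)) := by
  rw [Nat.cast_choose ℚ (by omega : m ≤ 2 * m), show 2 * m - m = m by omega]

theorem cb_step (m : ℤ) : ((m : ℚ) + 1) * cb (m + 1) = 2 * (2 * m + 1) * cb m := by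
  rcases lt_trichotomy m (-1) with h | h | h
  · rw [cb_neg (by omega), cb_neg (by omega)]; simp
  · subst h
    rw [cb_neg (by norm_num : (-1 : ℤ) < 0)]; simp
  · obtain ⟨j, rfl⟩ : ∃ j : ℕ, m = j := ⟨m.toNat, by omega⟩
    have h2 : ((j : ℤ) + 1) = ((j + 1 : ℕ) : ℤ) := by push_cast; ring
    rw [h2, cb_nat, cb_nat, choose_two_mul, choose_two_mul,
      show 2 * (j + 1) = 2 * j + 1 + 1 by ring, Nat.factorial_succ, Nat.factorial_succ,
      Nat.factorial_succ]
    have h1 : (j ! : ℚ) ≠ 0 := by positivity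
    have h3 : ((2 * j)! : ℚ) ≠ 0 := by positivity
    have h4 : ((j : ℚ) + 1) ≠ 0 := by positivity
    push_cast
    field_simp
    ring

/-- The half-integer Gamma quotient `Γ(x+1/2)/√π` on the integers. -/
noncomputable def hg (x : ℤ) : ℚ :=
  if 0 ≤ x then ((2 * x.toNat)! : ℚ) / (4 ^ x.toNat * (x.toNat)!)
  else (-4) ^ (-x).toNat * ((-x).toNat)! / ((2 * (-x).toNat)! : ℚ)

theorem hg_nat (m : ℕ) : hg (m : ℤ) = ((2 * m)! : ℚ) / (4 ^ m * m !) := by
  unfold hg
  rw [if_pos (Int.natCast_nonneg m)]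
  simp

theorem hg_neg (m : ℕ) : hg (-(m : ℤ)) = (-4) ^ m * m ! / ((2 * m)! : ℚ) := by
  rcases Nat.eq_zero_or_pos m with h | h
  · subst h
    have := hg_nat 0
    simpa using this
  · unfold hg
    rw [if_neg (by omega)]
    simp

theorem hg_step (x : ℤ) : hg (x + 1) = ((x : ℚ) + 1 / 2) * hg x := by
  rcases lt_or_ge x 0 with h | h
  · obtain ⟨m, rfl⟩ : ∃ m : ℕ, x = -((m + 1 : ℕ) : ℤ) := ⟨(-x).toNat - 1, by omega⟩
    have h2 : (-((m + 1 : ℕ) : ℤ)) + 1 = -(m : ℤ) := by push_cast; ring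
    rw [h2, hg_neg, hg_neg, show 2 * (m + 1) = 2 * m + 1 + 1 by ring, Nat.factorial_succ,
      Nat.factorial_succ, Nat.factorial_succ]
    have h1 : (m ! : ℚ) ≠ 0 := by positivity
    have h3 : ((2 * m)! : ℚ) ≠ 0 := by positivity
    have h4 : ((m : ℚ) + 1) ≠ 0 := by positivity
    have h5 : (2 * (m : ℚ) + 1) ≠ 0 := by positivity
    push_cast
    field_simp
    ring
  · obtain ⟨m, rfl⟩ : ∃ m : ℕ, x = m := ⟨x.toNat, by omega⟩
    have h2 : ((m : ℤ) + 1) = ((m + 1 : ℕ) : ℤ) := by push_cast; ring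
    rw [h2, hg_nat, hg_nat, show 2 * (m + 1) = 2 * m + 1 + 1 by ring, Nat.factorial_succ,
      Nat.factorial_succ, Nat.factorial_succ]
    have h1 : (m ! : ℚ) ≠ 0 := by positivity
    have h4 : ((m : ℚ) + 1) ≠ 0 := by positivity
    push_cast
    field_simp
    ring

theorem hg_ne_zero (x : ℤ) : hg x ≠ 0 := by
  rcases lt_or_ge x 0 with h | h
  · obtain ⟨m, rfl⟩ : ∃ m : ℕ, x = -(m : ℤ) := ⟨(-x).toNat, by omega⟩
    rw [hg_neg]
    positivity
  · obtain ⟨m, rfl⟩ : ∃ m : ℕ, x = m := ⟨x.toNat, by omega⟩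
    rw [hg_nat]
    positivity

/-- Generic telescoping scheme: `s` is the summand, `(T, R)` the WZ-type certificate. -/
theorem wz_sum (z : ℚ) (s : ℕ → ℚ) (T R : ℕ → ℕ → ℚ)
    (h : ∀ n k, k ≤ n → T (n + 1) k - z * T n k = R n (k + 1) - R n k)
    (hR0 : ∀ n, R n 0 = - s n) (hR1 : ∀ n, R n (n + 1) = 0) (hT : ∀ n, T n n = 0) (N : ℕ) :
    ∑ j ∈ range N, s j * z ^ (N - 1 - j) = ∑ k ∈ range N, T N k := by
  induction N with
  | zero => simp
  | succ N ih =>
    have h1 : ∑ k ∈ range (N + 1), (R N (k + 1) - R N k) = R N (N + 1) - R N 0 :=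
      Finset.sum_range_sub (R N) (N + 1)
    rw [hR1, hR0] at h1
    have h2 : ∑ k ∈ range (N + 1), (T (N + 1) k - z * T N k)
        = ∑ k ∈ range (N + 1), (R N (k + 1) - R N k) :=
      Finset.sum_congr rfl fun k hk => h N k (by
        have := Finset.mem_range.mp hk; omega)
    rw [Finset.sum_sub_distrib, ← Finset.mul_sum, sum_range_succ (fun k => T N k), hT, add_zero,
      ← ih, h1] at h2
    have h3 : ∑ j ∈ range (N + 1), s j * z ^ (N + 1 - 1 - j)
        = z * ∑ j ∈ range N, s j * z ^ (N - 1 - j) + s N := by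
      rw [sum_range_succ, Finset.mul_sum]
      congr 1
      · refine Finset.sum_congr rfl fun j hj => ?_
        have hj' := Finset.mem_range.mp hj
        rw [show N + 1 - 1 - j = (N - 1 - j) + 1 by omega, pow_succ]
        ring
      · rw [show N + 1 - 1 - N = 0 by omega]; ring
    rw [h3]
    linarith

/-- Variant of `wz_sum` where the certificate is only valid for `n ≥ 1`. -/
theorem wz_sum' (z : ℚ) (s : ℕ → ℚ) (T R : ℕ → ℕ → ℚ)
    (h : ∀ n k, 1 ≤ n → k ≤ n → T (n + 1) k - z * T n k = R n (k + 1) - R n k)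
    (hR0 : ∀ n, 1 ≤ n → R n 0 = - s n) (hR1 : ∀ n, 1 ≤ n → R n (n + 1) = 0)
    (hT : ∀ n, 1 ≤ n → T n n = 0) (h1 : T 1 0 = s 0) (N : ℕ) (hN : 1 ≤ N) :
    ∑ j ∈ range N, s j * z ^ (N - 1 - j) = ∑ k ∈ range N, T N k := by
  obtain ⟨N, rfl⟩ : ∃ M, N = M + 1 := ⟨N - 1, by omega⟩
  clear hN
  induction N with
  | zero => simp [h1]
  | succ N ih =>
    have h1 : ∑ k ∈ range (N + 1 + 1), (R (N + 1) (k + 1) - R (N + 1) k)
        = R (N + 1) (N + 1 + 1) - R (N + 1) 0 := Finset.sum_range_sub (R (N + 1)) (N + 1 + 1)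
    rw [hR1 _ (by omega), hR0 _ (by omega)] at h1
    have h2 : ∑ k ∈ range (N + 1 + 1), (T (N + 1 + 1) k - z * T (N + 1) k)
        = ∑ k ∈ range (N + 1 + 1), (R (N + 1) (k + 1) - R (N + 1) k) :=
      Finset.sum_congr rfl fun k hk => h (N + 1) k (by omega) (by
        have := Finset.mem_range.mp hk; omega)
    rw [Finset.sum_sub_distrib, ← Finset.mul_sum, sum_range_succ (fun k => T (N + 1) k),
      hT _ (by omega), add_zero, ← ih, h1] at h2
    have h3 : ∑ j ∈ range (N + 1 + 1), s j * z ^ (N + 1 + 1 - 1 - j)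
        = z * ∑ j ∈ range (N + 1), s j * z ^ (N + 1 - 1 - j) + s (N + 1) := by
      rw [sum_range_succ, Finset.mul_sum]
      congr 1
      · refine Finset.sum_congr rfl fun j hj => ?_
        have hj' := Finset.mem_range.mp hj
        rw [show N + 1 + 1 - 1 - j = (N + 1 - 1 - j) + 1 by omega, pow_succ]
        ring
      · rw [show N + 1 + 1 - 1 - (N + 1) = 0 by omega]; ring
    rw [h3]
    linarith

/-- Sign of the partial sums of a fast decreasing alternating series. -/
theorem alt_pos (c : ℚ) (hc : 0 < c) (s : ℕ → ℚ) (hs : ∀ n, 0 < s n)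
    (h : ∀ n, 2 * s (n + 1) ≤ c * s n) (n : ℕ) :
    0 < (-1) ^ n * ∑ j ∈ range (n + 1), s j * (-c) ^ (n - j) := by
  have hrec : ∀ n, ∑ j ∈ range (n + 1 + 1), s j * (-c) ^ (n + 1 - j)
      = (-c) * ∑ j ∈ range (n + 1), s j * (-c) ^ (n - j) + s (n + 1) := by
    intro n
    rw [sum_range_succ _ (n + 1), Finset.mul_sum]
    congr 1
    · refine Finset.sum_congr rfl fun j hj => ?_
      have hj' := Finset.mem_range.mp hj
      rw [show n + 1 - j = (n - j) + 1 by omega, pow_succ]
      ring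
    · rw [Nat.sub_self]; ring
  have key : ∀ n, s (n + 1) * 2 ≤ c * ((-1) ^ n * ∑ j ∈ range (n + 1), s j * (-c) ^ (n - j)) ∧
      0 < (-1) ^ n * ∑ j ∈ range (n + 1), s j * (-c) ^ (n - j) := by
    intro n
    induction n with
    | zero =>
      have h0 := h 0
      have h1 := hs 0
      simp only [zero_add, Finset.sum_range_one, pow_zero, Nat.sub_self, mul_one, one_mul]
      exact ⟨by linarith, h1⟩
    | succ n ih =>
      have h1 := hs (n + 1)
      have h2 := h (n + 1)
      have e : (-1 : ℚ) ^ (n + 1) * ∑ j ∈ range (n + 1 + 1), s j * (-c) ^ (n + 1 - j)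
          = c * ((-1) ^ n * ∑ j ∈ range (n + 1), s j * (-c) ^ (n - j)) + (-1) ^ (n + 1) * s (n + 1) := by
        rw [hrec]; ring
      have h3 : -s (n + 1) ≤ (-1) ^ (n + 1) * s (n + 1) := by
        rcases neg_one_pow_eq_or ℚ (n + 1) with h4 | h4 <;> rw [h4] <;> linarith
      have h5 : s (n + 1) ≤ (-1 : ℚ) ^ (n + 1) * ∑ j ∈ range (n + 1 + 1), s j * (-c) ^ (n + 1 - j) := by
        rw [e]; linarith [ih.1]
      refine ⟨?_, by linarith⟩
      have := mul_le_mul_of_nonneg_left h5 hc.le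
      linarith
  exact (key n).2

/-- Defining inequalities of a floor quotient lying in a known range. -/
theorem fl_spec (v q lo hi : ℤ) (hq : 0 < q) (h1 : lo * q ≤ v) (h2 : v < hi * q + q) :
    lo ≤ v / q ∧ v / q ≤ hi ∧ q * (v / q) ≤ v ∧ v < q * (v / q) + q := by
  refine ⟨?_, ?_, Int.mul_ediv_self_le hq.ne', Int.lt_mul_ediv_self_add hq⟩
  · exact (Int.le_ediv_iff_mul_le hq).mpr h1
  · have : v / q < hi + 1 := (Int.ediv_lt_iff_lt_mul hq).mpr (by linarith)
    omega

theorem v2_even (m : ℕ) : ((2 * m)!).factorization 2 = (m !).factorization 2 + m :=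
  Nat.factorization_factorial_mul Nat.prime_two

theorem v2_odd (m : ℕ) : ((2 * m + 1)!).factorization 2 = (m !).factorization 2 + m := by
  rw [Nat.factorial_succ, Nat.factorization_mul (by omega) (Nat.factorial_ne_zero _),
    Finsupp.add_apply, v2_even, Nat.factorization_eq_zero_of_not_dvd (by omega), zero_add]

theorem v2_lt {m : ℕ} (hm : m ≠ 0) : (m !).factorization 2 < m := by
  have : Fact (Nat.Prime 2) := ⟨Nat.prime_two⟩
  have h := sub_one_mul_padicValNat_factorial_lt_of_ne_zero 2 hm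
  rw [Nat.factorization_def _ Nat.prime_two]
  simpa using h

theorem two_pow_oddfac_even (m : ℕ) :
    ((2 * m)! : ℕ) = 2 ^ m * m ! * ∏ i ∈ Finset.range m, (2 * i + 1) := by
  induction m with
  | zero => simp
  | succ m ih =>
    rw [show 2 * (m + 1) = 2 * m + 1 + 1 by ring, Nat.factorial_succ, Nat.factorial_succ, ih,
      Finset.prod_range_succ, Nat.factorial_succ]
    ring

end Pool.Agent.R440
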