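import Mathlib
import Pool.Agent.R440.WZ

/-!
Local integrality of rational numbers at a prime and Legendre-type valuation sums.
-/

namespace Pool.Agent.R440

open Nat Finset

/-- The subring of `ℚ` of `p`-integral rationals. -/
def Zp (p : ℕ) [Fact p.Prime] : Subring ℚ where
  carrier := {x | padicNorm p x ≤ 1}
  mul_mem' {a b} ha hb := by
    simp only [Set.mem_ofPred_eq] at ha hb ⊢
    rw [padicNorm.mul]
    exact mul_le_one₀ ha (padicNorm.nonneg _) hb
  one_mem' := by simp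
  add_mem' {a b} ha hb := by
    simp only [Set.mem_ofPred_eq] at ha hb ⊢
    exact (padicNorm.nonarchimedean (p := p)).trans (max_le ha hb)
  zero_mem' := by simp
  neg_mem' {a} ha := by
    simp only [Set.mem_ofPred_eq] at ha ⊢
    rwa [padicNorm.neg]

theorem mem_Zp_def {p : ℕ} [Fact p.Prime] {x : ℚ} : x ∈ Zp p ↔ padicNorm p x ≤ 1 := Iff.rfl

theorem mem_Zp_iff {p : ℕ} [hp : Fact p.Prime] {x : ℚ} (hx : x ≠ 0) :
    x ∈ Zp p ↔ 0 ≤ padicValRat p x := by
  rw [mem_Zp_def, padicNorm.eq_zpow_of_nonzero hx]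
  have h1 : (1 : ℚ) < p := by exact_mod_cast hp.out.one_lt
  rw [zpow_le_one_iff_right₀ h1]
  omega

theorem intCast_mem_Zp {p : ℕ} [Fact p.Prime] (z : ℤ) : (z : ℚ) ∈ Zp p :=
  intCast_mem (Zp p) z

theorem natCast_mem_Zp {p : ℕ} [Fact p.Prime] (z : ℕ) : (z : ℚ) ∈ Zp p :=
  natCast_mem (Zp p) z

/-- A rational number that is `p`-integral for all primes `p` is an integer. -/
theorem int_of_forall_mem {x : ℚ} (h : ∀ (p : ℕ) [Fact p.Prime], x ∈ Zp p) :
    ∃ z : ℤ, x = z := by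
  have hden : x.den = 1 := by
    by_contra hne
    obtain ⟨p, hp, hd⟩ := Nat.exists_prime_and_dvd hne
    have : Fact p.Prime := ⟨hp⟩
    have hx : x ≠ 0 := by
      rintro rfl
      simp at hne
    have h1 := (mem_Zp_iff hx).mp (h p)
    have hnum : ¬ (p : ℤ) ∣ x.num := by
      intro hc
      have h2 : p ∣ x.num.natAbs := Int.natCast_dvd.mp hc
      have h3 := Nat.Coprime.eq_one_of_dvd (Nat.Coprime.coprime_dvd_left h2 x.reduced) hd
      exact hp.one_lt.ne' h3
    have h4 : padicValInt p x.num = 0 := padicValInt.eq_zero_of_not_dvd hnum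
    have h5 : 1 ≤ padicValNat p x.den := one_le_padicValNat_of_dvd x.den_nz hd
    rw [padicValRat_def, h4] at h1
    omega
  exact ⟨x.num, (Rat.coe_int_num_of_den_eq_one hden).symm⟩

/-- `HasVal p x w`: `x` is nonzero and its `p`-adic valuation is `∑_{i ≥ 1} w i`
(the sum being eventually constant). -/
def HasVal (p : ℕ) (x : ℚ) (w : ℕ → ℤ) : Prop :=
  x ≠ 0 ∧ ∃ B : ℕ, ∀ b, B ≤ b → padicValRat p x = ∑ i ∈ Finset.Ico 1 b, w i

namespace HasVal

variable {p : ℕ} {x y : ℚ} {w v : ℕ → ℤ}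

theorem of_val_zero (hx0 : x ≠ 0) (h : padicValRat p x = 0) : HasVal p x (fun _ => 0) :=
  ⟨hx0, 0, fun b _ => by simp [h]⟩

theorem congr (hx : HasVal p x w) (h : ∀ i, 1 ≤ i → w i = v i) : HasVal p x v := by
  obtain ⟨hx0, B, hB⟩ := hx
  refine ⟨hx0, B, fun b hb => ?_⟩
  rw [hB b hb]
  exact Finset.sum_congr rfl fun i hi => h i (Finset.mem_Ico.mp hi).1

theorem neg (hx : HasVal p x w) : HasVal p (-x) w := by
  obtain ⟨hx0, B, hB⟩ := hx
  exact ⟨neg_ne_zero.mpr hx0, B, fun b hb => by rw [padicValRat.neg]; exact hB b hb⟩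

variable [Fact p.Prime]

theorem mul (hx : HasVal p x w) (hy : HasVal p y v) : HasVal p (x * y) (fun i => w i + v i) := by
  obtain ⟨hx0, B, hB⟩ := hx
  obtain ⟨hy0, C, hC⟩ := hy
  refine ⟨mul_ne_zero hx0 hy0, max B C, fun b hb => ?_⟩
  rw [padicValRat.mul hx0 hy0, hB b (le_trans (le_max_left _ _) hb),
    hC b (le_trans (le_max_right _ _) hb), Finset.sum_add_distrib]

theorem div (hx : HasVal p x w) (hy : HasVal p y v) : HasVal p (x / y) (fun i => w i - v i) := by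
  obtain ⟨hx0, B, hB⟩ := hx
  obtain ⟨hy0, C, hC⟩ := hy
  refine ⟨div_ne_zero hx0 hy0, max B C, fun b hb => ?_⟩
  rw [padicValRat.div hx0 hy0, hB b (le_trans (le_max_left _ _) hb),
    hC b (le_trans (le_max_right _ _) hb), Finset.sum_sub_distrib]

theorem mem (hx : HasVal p x w) (h : ∀ i, 1 ≤ i → 0 ≤ w i) : x ∈ Zp p := by
  obtain ⟨hx0, B, hB⟩ := hx
  rw [mem_Zp_iff hx0, hB B le_rfl]
  exact Finset.sum_nonneg fun i hi => h i (Finset.mem_Ico.mp hi).1

/-- If `w i ≥ -1` with `w i ≥ 0` for `i > c`, then multiplying by something of valuation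
`≥ c` gives a `p`-integral number. -/
theorem mul_mem_of_le (hx : HasVal p x w) (c : ℕ) (hy0 : y ≠ 0) (hy : (c : ℤ) ≤ padicValRat p y)
    (h : ∀ i, 1 ≤ i → -(if i ≤ c then 1 else 0 : ℤ) ≤ w i) : x * y ∈ Zp p := by
  obtain ⟨hx0, B, hB⟩ := hx
  rw [mem_Zp_iff (mul_ne_zero hx0 hy0), padicValRat.mul hx0 hy0, hB (max B (c + 1)) (le_max_left _ _)]
  have h1 : ∑ i ∈ Finset.Ico 1 (max B (c + 1)), -(if i ≤ c then 1 else 0 : ℤ)
      ≤ ∑ i ∈ Finset.Ico 1 (max B (c + 1)), w i :=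
    Finset.sum_le_sum fun i hi => h i (Finset.mem_Ico.mp hi).1
  have h2 : ∑ i ∈ Finset.Ico 1 (max B (c + 1)), (if i ≤ c then 1 else 0 : ℤ) = c := by
    rw [← Finset.sum_filter]
    have : (Finset.Ico 1 (max B (c + 1))).filter (fun i => i ≤ c) = Finset.Ico 1 (c + 1) := by
      ext i
      simp only [Finset.mem_filter, Finset.mem_Ico]
      have := le_max_right B (c + 1)
      omega
    rw [this]
    simp
  rw [Finset.sum_neg_distrib, h2] at h1
  omega

/-- one loss at level `1` compensated by one gain at level `l₀` -/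
theorem mem_of_bonus (hx : HasVal p x w) (l₀ : ℕ) (hl : 1 ≤ l₀)
    (h : ∀ i, 1 ≤ i → -(if i = 1 then 1 else 0 : ℤ) + (if i = l₀ then 1 else 0 : ℤ) ≤ w i) :
    x ∈ Zp p := by
  obtain ⟨hx0, B, hB⟩ := hx
  rw [mem_Zp_iff hx0, hB (max B (l₀ + 1)) (le_max_left _ _)]
  have h1 : ∑ i ∈ Finset.Ico 1 (max B (l₀ + 1)),
      (-(if i = 1 then 1 else 0 : ℤ) + (if i = l₀ then 1 else 0 : ℤ))
      ≤ ∑ i ∈ Finset.Ico 1 (max B (l₀ + 1)), w i :=
    Finset.sum_le_sum fun i hi => h i (Finset.mem_Ico.mp hi).1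
  have hm : l₀ + 1 ≤ max B (l₀ + 1) := le_max_right _ _
  have h2 : ∑ i ∈ Finset.Ico 1 (max B (l₀ + 1)), (if i = 1 then 1 else 0 : ℤ) = 1 := by
    rw [Finset.sum_ite_eq', if_pos (Finset.mem_Ico.mpr ⟨le_rfl, by omega⟩)]
  have h3 : ∑ i ∈ Finset.Ico 1 (max B (l₀ + 1)), (if i = l₀ then 1 else 0 : ℤ) = 1 := by
    rw [Finset.sum_ite_eq', if_pos (Finset.mem_Ico.mpr ⟨hl, by omega⟩)]
  rw [Finset.sum_add_distrib, Finset.sum_neg_distrib, h2, h3] at h1
  linarith

/-- a loss at level `1` and no gain elsewhere -/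
theorem not_mem_of_loss (hx : HasVal p x w)
    (h : ∀ i, 1 ≤ i → w i ≤ -(if i = 1 then 1 else 0 : ℤ)) : x ∉ Zp p := by
  obtain ⟨hx0, B, hB⟩ := hx
  rw [mem_Zp_iff hx0, hB (max B 2) (le_max_left _ _)]
  have h1 : ∑ i ∈ Finset.Ico 1 (max B 2), w i ≤
      ∑ i ∈ Finset.Ico 1 (max B 2), -(if i = 1 then 1 else 0 : ℤ) :=
    Finset.sum_le_sum fun i hi => h i (Finset.mem_Ico.mp hi).1
  have hm : 2 ≤ max B 2 := le_max_right _ _
  have h2 : ∑ i ∈ Finset.Ico 1 (max B 2), (if i = 1 then 1 else 0 : ℤ) = 1 := by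
    rw [Finset.sum_ite_eq', if_pos (Finset.mem_Ico.mpr ⟨le_rfl, by omega⟩)]
  rw [Finset.sum_neg_distrib, h2] at h1
  omega

/-- the valuation of a factorial -/
theorem fac (n : ℕ) : HasVal p (n ! : ℚ) (fun i => (n : ℤ) / (p : ℤ) ^ i) := by
  refine ⟨by positivity, n + 1, fun b hb => ?_⟩
  have hlog : Nat.log p n < b := lt_of_le_of_lt (Nat.log_le_self p n) (by omega)
  rw [padicValRat.of_nat, padicValNat_factorial hlog]
  push_cast
  rfl

/-- multiplying by something of valuation zero -/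
theorem mul_unit (hx : HasVal p x w) (hy0 : y ≠ 0) (h : padicValRat p y = 0) :
    HasVal p (x * y) w :=
  (hx.mul (of_val_zero hy0 h)).congr fun i _ => by ring

theorem div_unit (hx : HasVal p x w) (hy0 : y ≠ 0) (h : padicValRat p y = 0) :
    HasVal p (x / y) w :=
  (hx.div (of_val_zero hy0 h)).congr fun i _ => by ring

end HasVal

theorem val_unit_nat {p : ℕ} [Fact p.Prime] {c : ℕ} (h : ¬ p ∣ c) : padicValRat p (c : ℚ) = 0 := by
  rw [padicValRat.of_nat, padicValNat.eq_zero_of_not_dvd h]; rfl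

theorem inv_nat_mem_Zp {p : ℕ} [hp : Fact p.Prime] {c : ℕ} (h : ¬ p ∣ c) : (1 / (c : ℚ)) ∈ Zp p := by
  have hc : (c : ℚ) ≠ 0 := by
    rintro h0
    have : c = 0 := by exact_mod_cast h0
    subst this
    exact h (dvd_zero p)
  rw [mem_Zp_iff (one_div_ne_zero hc), padicValRat.div one_ne_zero hc, val_unit_nat h]
  simp

/-- scaling by an integer whose valuation is at most one can only fail once -/
theorem not_dvd_of_not_mem {p : ℕ} [hp : Fact p.Prime] {x : ℚ} (hx : x ∉ Zp p) {z : ℤ}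
    (h : (p : ℚ) * x = z) : ¬ (p : ℤ) ∣ z := by
  rintro ⟨w, hw⟩
  apply hx
  have hp0 : (p : ℚ) ≠ 0 := by exact_mod_cast hp.out.ne_zero
  have : x = w := by
    have h2 : (p : ℚ) * x = p * w := by rw [h, hw]; push_cast; ring
    exact mul_left_cancel₀ hp0 h2
  rw [this]
  exact intCast_mem_Zp w

theorem half_floor (m q : ℤ) (hq : 0 < q) : (2 * m) / q - m / q = (2 * m + q) / (2 * q) := by
  have h0 : q ≠ 0 := hq.ne'
  have e : m = m % q + q * (m / q) := (Int.emod_add_mul_ediv m q).symm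
  have hr0 := Int.emod_nonneg m h0
  have hr1 := Int.emod_lt_of_pos m hq
  generalize m % q = r at *
  generalize m / q = a at *
  subst e
  rw [show 2 * (r + q * a) = 2 * r + q * (2 * a) by ring, Int.add_mul_ediv_left _ _ h0,
    show 2 * r + q * (2 * a) + q = (2 * r + q) + (2 * q) * a by ring,
    Int.add_mul_ediv_left _ _ (by omega)]
  rcases lt_or_ge (2 * r) q with h | h
  · rw [Int.ediv_eq_zero_of_lt (by omega) h, Int.ediv_eq_zero_of_lt (by omega) (by omega)]
    ring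
  · have h1 : 2 * r / q = 1 := by
      rw [show 2 * r = (2 * r - q) + q * 1 by ring, Int.add_mul_ediv_left _ _ h0,
        Int.ediv_eq_zero_of_lt (by omega) (by omega)]
      norm_num
    have h2 : (2 * r + q) / (2 * q) = 1 := by
      rw [show 2 * r + q = (2 * r - q) + (2 * q) * 1 by ring,
        Int.add_mul_ediv_left _ _ (by omega), Int.ediv_eq_zero_of_lt (by omega) (by omega)]
      norm_num
    rw [h1, h2]
    ring

theorem neg_half_floor (m q : ℤ) (hq : 0 < q) (hodd : q % 2 = 1) :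
    -((2 * m + q) / (2 * q)) = (2 * (-m) + q) / (2 * q) := by
  have h0 : 2 * q ≠ 0 := by omega
  have e : 2 * m + q = (2 * m + q) % (2 * q) + (2 * q) * ((2 * m + q) / (2 * q)) :=
    (Int.emod_add_mul_ediv _ _).symm
  have hr0 := Int.emod_nonneg (2 * m + q) h0
  have hr1 := Int.emod_lt_of_pos (2 * m + q) (by omega : 0 < 2 * q)
  generalize hr : (2 * m + q) % (2 * q) = r at *
  generalize (2 * m + q) / (2 * q) = a at *
  have hr2 : r % 2 = 1 := by
    have h2 : (2 * m + q - r) = 2 * (q * a) := by linarith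
    omega
  have e2 : 2 * (-m) + q = (2 * q - r) + (2 * q) * (-a) := by
    have h3 : 2 * m = r + 2 * q * a - q := by linarith
    linarith
  rw [e2, Int.add_mul_ediv_left _ _ h0, Int.ediv_eq_zero_of_lt (by omega) (by omega)]
  ring

theorem val_four_pow {p : ℕ} [hp : Fact p.Prime] (h2 : p ≠ 2) (m : ℕ) :
    padicValRat p ((4 : ℚ) ^ m) = 0 := by
  have h4 : padicValNat p 4 = 0 := by
    apply padicValNat.eq_zero_of_not_dvd
    intro h
    have : p ∣ 2 ^ 2 := by simpa using h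
    have := (Nat.prime_dvd_prime_iff_eq hp.out Nat.prime_two).mp (hp.out.dvd_of_dvd_pow this)
    exact h2 this
  rw [padicValRat.pow]
  have : padicValRat p (4 : ℚ) = ((padicValNat p 4 : ℕ) : ℤ) := by
    have := padicValRat.of_nat (p := p) (n := 4)
    simpa using this
  rw [this, h4]
  simp

/-- the valuation of a half-integer Gamma value at an odd prime -/
theorem HasVal.hgv {p : ℕ} [hp : Fact p.Prime] (h2 : p ≠ 2) (x : ℤ) :
    HasVal p (hg x) (fun i => (2 * x + (p : ℤ) ^ i) / (2 * (p : ℤ) ^ i)) := by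
  have hodd : ∀ i : ℕ, ((p : ℤ) ^ i) % 2 = 1 := by
    intro i
    have h1 : Odd p := hp.out.odd_of_ne_two h2
    have h3 : Odd (p ^ i) := h1.pow
    have h4 : (p ^ i) % 2 = 1 := Nat.odd_iff.mp h3
    exact_mod_cast h4
  have hpos : ∀ i : ℕ, (0 : ℤ) < (p : ℤ) ^ i := fun i => by
    have := hp.out.pos
    positivity
  rcases lt_or_ge x 0 with h | h
  · obtain ⟨m, rfl⟩ : ∃ m : ℕ, x = -(m : ℤ) := ⟨(-x).toNat, by omega⟩
    rw [hg_neg, show ((-4 : ℚ)) ^ m * m ! / ((2 * m)! : ℚ)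
      = (m ! : ℚ) / ((2 * m)! : ℚ) * ((-1) ^ m * 4 ^ m) by rw [← mul_pow]; norm_num; ring]
    refine (((HasVal.fac m).div (HasVal.fac (2 * m))).mul_unit (by positivity) ?_).congr ?_
    · rcases neg_one_pow_eq_or ℚ m with h5 | h5
      · rw [h5, one_mul, val_four_pow h2]
      · rw [h5, neg_one_mul, padicValRat.neg, val_four_pow h2]
    · intro i _
      rw [← neg_half_floor _ _ (hpos i) (hodd i), ← half_floor _ _ (hpos i)]
      push_cast
      ring
  · obtain ⟨m, rfl⟩ : ∃ m : ℕ, x = m := ⟨x.toNat, by omega⟩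
    rw [hg_nat, show ((2 * m)! : ℚ) / (4 ^ m * m !) = ((2 * m)! : ℚ) / (m ! : ℚ) / 4 ^ m by
      field_simp]
    refine (((HasVal.fac (2 * m)).div (HasVal.fac m)).div_unit (by positivity)
      (val_four_pow h2 m)).congr ?_
    intro i _
    rw [← half_floor _ _ (hpos i)]
    push_cast
    ring

theorem natCast_pow_mul_fac {n : ℕ} (hn : n ≠ 0) : (n : ℚ) = (n ! : ℚ) / ((n - 1)! : ℚ) := by
  obtain ⟨m, rfl⟩ := Nat.exists_eq_succ_of_ne_zero hn
  rw [Nat.succ_eq_add_one, Nat.add_sub_cancel, Nat.factorial_succ]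
  have : (m ! : ℚ) ≠ 0 := by positivity
  push_cast
  field_simp

end Pool.Agent.R440
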