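import Mathlib
import Pool.Agent.R440.WZ
import Pool.Agent.R440.Loc

/-!
Small helpers on valuations: `2`-adic valuation of factorials as integers, integer factors,
odd prime powers.
-/

set_option autoImplicit false

namespace Pool.Agent.R440

open Finset Nat

/-- the 2-adic valuation of a factorial as an integer -/
noncomputable def vf (n : ℕ) : ℤ := ((n !).factorization 2 : ℤ)

theorem val_fac [Fact (Nat.Prime 2)] (n : ℕ) : padicValRat 2 (n ! : ℚ) = vf n := by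
  unfold vf
  rw [padicValRat.of_nat, Nat.factorization_def _ Nat.prime_two]

theorem vf_even (n : ℕ) : vf (2 * n) = vf n + n := by
  unfold vf; rw [v2_even]; push_cast; ring

theorem vf_odd (n : ℕ) : vf (2 * n + 1) = vf n + n := by
  unfold vf; rw [v2_odd]; push_cast; ring

theorem vf_lt {n : ℕ} (h : n ≠ 0) : vf n < n := by
  unfold vf; exact_mod_cast v2_lt h

theorem vf_mono {m n : ℕ} (h : m ≤ n) : vf m ≤ vf n := by
  unfold vf
  have : (m !).factorization 2 ≤ (n !).factorization 2 :=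
    (Nat.factorization_le_iff_dvd (Nat.factorial_ne_zero _) (Nat.factorial_ne_zero _)).mpr
      (Nat.factorial_dvd_factorial h) 2
  exact_mod_cast this

theorem vf_zero : vf 0 = 0 := by
  unfold vf; simp

theorem vf_le (n : ℕ) : vf n ≤ n := by
  rcases Nat.eq_zero_or_pos n with h | h
  · subst h; rw [vf_zero]; simp
  · exact (vf_lt h.ne').le

/-- valuation of an integer factor -/
theorem val_nat {p : ℕ} [hp : Fact p.Prime] {n : ℕ} (hn : n ≠ 0) :
    HasVal p (n : ℚ) (fun i => (n : ℤ) / (p : ℤ) ^ i - ((n : ℤ) - 1) / (p : ℤ) ^ i) := by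
  rw [natCast_pow_mul_fac hn]
  refine ((HasVal.fac n).div (HasVal.fac (n - 1))).congr fun i _ => ?_
  have : ((n - 1 : ℕ) : ℤ) = (n : ℤ) - 1 := by omega
  rw [this]

theorem two_le_pow' {p : ℕ} (hp : p.Prime) {l : ℕ} (hl : 1 ≤ l) : (2 : ℤ) ≤ (p : ℤ) ^ l := by
  have h6 : 2 ≤ p ^ l := by
    calc 2 ≤ p := hp.two_le
      _ = p ^ 1 := (pow_one p).symm
      _ ≤ p ^ l := Nat.pow_le_pow_right hp.pos hl
  exact_mod_cast h6

theorem five_le_pow {p : ℕ} (hp : p.Prime) (h2 : p ≠ 2) (h3 : p ≠ 3) {l : ℕ} (hl : 1 ≤ l) :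
    (5 : ℤ) ≤ (p : ℤ) ^ l ∧ ((p : ℤ) ^ l) % 2 = 1 := by
  have h1 : Odd p := hp.odd_of_ne_two h2
  have h4 : (p ^ l) % 2 = 1 := Nat.odd_iff.mp h1.pow
  have h5 : 5 ≤ p := by
    have := hp.two_le
    rcases h1 with ⟨r, hr⟩
    omega
  have h6 : 5 ≤ p ^ l := by
    calc 5 ≤ p := h5
      _ = p ^ 1 := (pow_one p).symm
      _ ≤ p ^ l := Nat.pow_le_pow_right hp.pos hl
  exact ⟨by exact_mod_cast h6, by exact_mod_cast h4⟩

theorem odd_three_pow (j : ℕ) : (3 ^ j) % 2 = 1 := by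
  have : Odd (3 ^ j) := (by decide : Odd 3).pow
  exact Nat.odd_iff.mp this

theorem three_le_pow {l : ℕ} (hl : 1 ≤ l) : 3 ≤ 3 ^ l := by
  calc 3 = 3 ^ 1 := by norm_num
    _ ≤ 3 ^ l := Nat.pow_le_pow_right (by norm_num) hl

theorem nine_le_pow {l : ℕ} (hl : 2 ≤ l) : 9 ≤ 3 ^ l := by
  calc 9 = 3 ^ 2 := by norm_num
    _ ≤ 3 ^ l := Nat.pow_le_pow_right (by norm_num) hl

end Pool.Agent.R440
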