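import Mathlib
import Pool.Agent.R440.WZ
import Pool.Agent.R440.Loc
import Pool.Agent.R440.V2

/-!
# The normalised (154j+15) sums: WZ transformation, primes other than `5`, and sign
-/

set_option autoImplicit false

namespace Pool.Agent.R440.E154

open Finset Nat Pool.Agent.R440

/-- the numbers `c_j = (6j)!/((3j)! (j!)^3)` -/
noncomputable def c (j : ℕ) : ℚ := ((6 * j)! : ℚ) / (((3 * j)! : ℚ) * (j ! : ℚ) ^ 3)

/-- the numbers `a_n` -/
noncomputable def a (n : ℕ) : ℚ :=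
  (∑ j ∈ range n, (154 * (j : ℚ) + 15) * c j * (-32768) ^ (n - 1 - j)) /
    (10 * n * (2 * n + 1) * ((2 * n).choose n : ℚ))

/-- the summands of the transformed sum -/
noncomputable def T (n i : ℕ) : ℚ :=
  - (4 ^ (n + i) * n * ((6 * n)! : ℚ) * hg ((n : ℤ) - 2 - 2 * i) * rf ((n : ℤ) - 1 - i) *
    rf (2 * (n : ℤ) - 1 - i) / (64 * ((3 * n)! : ℚ) * (n ! : ℚ)))

/-- the certificate -/
noncomputable def R (n i : ℕ) : ℚ :=
  - (4 ^ (n + i) * ((6 * n)! : ℚ) * hg ((n : ℤ) - 2 * i) * rf ((n : ℤ) - i) *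
    rf (2 * (n : ℤ) + 1 - i) / (((3 * n)! : ℚ) * (n ! : ℚ))) *
    ((2 * n + 1) * (154 * n + 15) - (264 * n + 76) * i + 64 * (i : ℚ) ^ 2)

theorem wz (n i : ℕ) : T (n + 1) i - (-32768) * T n i = R n (i + 1) - R n i := by
  unfold T R
  have e1 : rf (((n + 1 : ℕ) : ℤ) - 1 - i) = rf ((n : ℤ) - i) := by
    rw [show ((n + 1 : ℕ) : ℤ) - 1 - i = (n : ℤ) - i by push_cast; ring]
  have e2 : rf (2 * ((n + 1 : ℕ) : ℤ) - 1 - i) = rf (2 * (n : ℤ) + 1 - i) := by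
    rw [show 2 * ((n + 1 : ℕ) : ℤ) - 1 - i = 2 * (n : ℤ) + 1 - i by push_cast; ring]
  have e3 : rf ((n : ℤ) - 1 - i) = ((n : ℚ) - i) * rf ((n : ℤ) - i) := by
    rw [rf_step, show (n : ℤ) - 1 - i + 1 = (n : ℤ) - i by ring]; push_cast; ring
  have e4 : rf (2 * (n : ℤ) - 1 - i) = (2 * (n : ℚ) - i) * ((2 * (n : ℚ) + 1 - i) * rf (2 * (n : ℤ) + 1 - i)) := by
    rw [rf_step, show 2 * (n : ℤ) - 1 - i + 1 = 2 * (n : ℤ) - i by ring, rf_step (2 * (n : ℤ) - i),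
      show 2 * (n : ℤ) - i + 1 = 2 * (n : ℤ) + 1 - i by ring]
    push_cast; ring
  have e5 : rf ((n : ℤ) - (i + 1 : ℕ)) = ((n : ℚ) - i) * rf ((n : ℤ) - i) := by
    rw [← e3, show (n : ℤ) - (i + 1 : ℕ) = (n : ℤ) - 1 - i by push_cast; ring]
  have e6 : rf (2 * (n : ℤ) + 1 - (i + 1 : ℕ)) = (2 * (n : ℚ) + 1 - i) * rf (2 * (n : ℤ) + 1 - i) := by
    rw [show 2 * (n : ℤ) + 1 - (i + 1 : ℕ) = 2 * (n : ℤ) - i by push_cast; ring, rf_step (2 * (n : ℤ) - i),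
      show 2 * (n : ℤ) - i + 1 = 2 * (n : ℤ) + 1 - i by ring]
    push_cast; ring
  have g1 : hg (((n + 1 : ℕ) : ℤ) - 2 - 2 * i) = ((n : ℚ) - 2 * i - 3 / 2) * hg ((n : ℤ) - 2 - 2 * i) := by
    rw [show ((n + 1 : ℕ) : ℤ) - 2 - 2 * i = ((n : ℤ) - 2 - 2 * i) + 1 by push_cast; ring, hg_step]
    push_cast; ring
  have g2 : hg ((n : ℤ) - 2 * i) = ((n : ℚ) - 2 * i - 1 / 2) * (((n : ℚ) - 2 * i - 3 / 2) *
      hg ((n : ℤ) - 2 - 2 * i)) := by
    rw [show (n : ℤ) - 2 * i = ((n : ℤ) - 2 - 2 * i) + 1 + 1 by ring, hg_step, hg_step]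
    push_cast; ring
  have g3 : hg ((n : ℤ) - 2 * (i + 1 : ℕ)) = hg ((n : ℤ) - 2 - 2 * i) := by
    rw [show (n : ℤ) - 2 * (i + 1 : ℕ) = (n : ℤ) - 2 - 2 * i by push_cast; ring]
  have f1 : ((6 * (n + 1))! : ℚ) = (6 * n + 6) * (6 * n + 5) * (6 * n + 4) * (6 * n + 3) *
      (6 * n + 2) * (6 * n + 1) * ((6 * n)! : ℚ) := by
    rw [show 6 * (n + 1) = 6 * n + 1 + 1 + 1 + 1 + 1 + 1 by ring, Nat.factorial_succ, Nat.factorial_succ,
      Nat.factorial_succ, Nat.factorial_succ, Nat.factorial_succ, Nat.factorial_succ]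
    push_cast; ring
  have f2 : ((n + 1)! : ℚ) = (n + 1) * (n ! : ℚ) := by
    rw [Nat.factorial_succ]; push_cast; ring
  have f3 : ((3 * (n + 1))! : ℚ) = (3 * n + 3) * (3 * n + 2) * (3 * n + 1) * ((3 * n)! : ℚ) := by
    rw [show 3 * (n + 1) = 3 * n + 1 + 1 + 1 by ring, Nat.factorial_succ, Nat.factorial_succ,
      Nat.factorial_succ]
    push_cast; ring
  rw [e1, e2, e3, e4, e5, e6, g1, g2, g3, f1, f2, f3, show n + 1 + i = (n + i) + 1 by ring,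
    show n + (i + 1) = (n + i) + 1 by ring, pow_succ (4 : ℚ) (n + i)]
  have z1 : (n ! : ℚ) ≠ 0 := by positivity
  have z2 : ((3 * n)! : ℚ) ≠ 0 := by positivity
  have z3 : ((n : ℚ) + 1) ≠ 0 := by positivity
  have z5 : (3 * (n : ℚ) + 2) ≠ 0 := by positivity
  have z6 : (3 * (n : ℚ) + 1) ≠ 0 := by positivity
  have z7 : (3 * (n : ℚ) + 3) ≠ 0 := by positivity
  generalize hg ((n : ℤ) - 2 - 2 * i) = H1
  generalize rf ((n : ℤ) - i) = H2
  generalize rf (2 * (n : ℤ) + 1 - i) = H3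
  generalize ((6 * n)! : ℚ) = H4
  push_cast
  field_simp
  ring

theorem R_zero (n : ℕ) : R n 0 = - ((154 * (n : ℚ) + 15) * c n) := by
  have h1 : rf ((n : ℤ) - (0 : ℕ)) = 1 / (n ! : ℚ) := by
    rw [← rf_nat n]; simp
  have h2 : rf (2 * (n : ℤ) + 1 - (0 : ℕ)) = 1 / ((2 * n + 1) * ((2 * n)! : ℚ)) := by
    rw [show 2 * (n : ℤ) + 1 - (0 : ℕ) = ((2 * n + 1 : ℕ) : ℤ) by push_cast; ring, rf_nat,
      Nat.factorial_succ]
    push_cast; rfl
  have h3 : hg ((n : ℤ) - 2 * (0 : ℕ)) = ((2 * n)! : ℚ) / (4 ^ n * n !) := by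
    rw [← hg_nat]; simp
  unfold R c
  rw [h1, h2, h3]
  have z2 : (n ! : ℚ) ≠ 0 := by positivity
  have z3 : ((2 * n)! : ℚ) ≠ 0 := by positivity
  have z4 : (2 * (n : ℚ) + 1) ≠ 0 := by positivity
  have z5 : ((3 * n)! : ℚ) ≠ 0 := by positivity
  simp only [Nat.cast_zero, add_zero]
  field_simp
  ring

theorem R_top (n : ℕ) : R n (n + 1) = 0 := by
  unfold R
  rw [rf_neg (by push_cast; omega : (n : ℤ) - ((n + 1 : ℕ) : ℤ) < 0)]
  ring

theorem T_top (n : ℕ) : T n n = 0 := by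
  unfold T
  rw [rf_neg (by omega : (n : ℤ) - 1 - n < 0)]
  ring

theorem norm_eq (n : ℕ) : 10 * ((n + 1 : ℕ) : ℚ) * (2 * ((n + 1 : ℕ) : ℚ) + 1) *
    ((2 * (n + 1)).choose (n + 1) : ℚ) = 10 * ((2 * n + 3)! : ℚ) / ((n ! : ℚ) * ((n + 1)! : ℚ)) := by
  rw [choose_two_mul, show 2 * n + 3 = 2 * (n + 1) + 1 by ring, Nat.factorial_succ (2 * (n + 1)),
    Nat.factorial_succ n]
  have z1 : (n ! : ℚ) ≠ 0 := by positivity
  have z2 : ((n : ℚ) + 1) ≠ 0 := by positivity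
  push_cast
  field_simp

/-- the basic terms -/
noncomputable def F0 (n j : ℕ) : ℚ :=
  4 ^ (n + j) * ((6 * n)! : ℚ) * (n ! : ℚ) * hg ((n : ℤ) - 2 * j) * rf ((n : ℤ) - j) *
    rf (2 * (n : ℤ) - j) / (((3 * n)! : ℚ) * ((2 * n + 1)! : ℚ))

theorem a_eq (n : ℕ) : a n = - (1 / 2560) * ∑ i ∈ range n, F0 n (i + 1) := by
  have hS := wz_sum (-32768) (fun k => (154 * (k : ℚ) + 15) * c k) T R (fun n k _ => wz n k)
    R_zero R_top T_top n
  unfold a
  rw [hS, Finset.sum_div, Finset.mul_sum]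
  refine Finset.sum_congr rfl fun i hi => ?_
  have hi' := Finset.mem_range.mp hi
  obtain ⟨m, rfl⟩ : ∃ m, n = m + 1 := ⟨n - 1, by omega⟩
  rw [norm_eq]
  have h1 : rf (((m + 1 : ℕ) : ℤ) - (i + 1 : ℕ)) = rf (((m + 1 : ℕ) : ℤ) - 1 - i) := by
    congr 1; push_cast; ring
  have h2 : rf (2 * ((m + 1 : ℕ) : ℤ) - (i + 1 : ℕ)) = rf (2 * ((m + 1 : ℕ) : ℤ) - 1 - i) := by
    congr 1; push_cast; ring
  have h3 : hg (((m + 1 : ℕ) : ℤ) - 2 * (i + 1 : ℕ)) = hg (((m + 1 : ℕ) : ℤ) - 2 - 2 * i) := by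
    congr 1; push_cast; ring
  unfold T F0
  rw [h1, h2, h3, show m + 1 + (i + 1) = (m + 1 + i) + 1 by ring, pow_succ (4 : ℚ) (m + 1 + i),
    show 2 * (m + 1) + 1 = 2 * m + 3 by ring, Nat.factorial_succ m]
  have z1 : (m ! : ℚ) ≠ 0 := by positivity
  have z2 : ((3 * (m + 1))! : ℚ) ≠ 0 := by positivity
  have z3 : ((2 * m + 3)! : ℚ) ≠ 0 := by positivity
  have z6 : ((m : ℚ) + 1) ≠ 0 := by positivity
  generalize hg (((m + 1 : ℕ) : ℤ) - 2 - 2 * i) = H1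
  generalize rf (((m + 1 : ℕ) : ℤ) - 1 - i) = H2
  generalize rf (2 * ((m + 1 : ℕ) : ℤ) - 1 - i) = H3
  push_cast
  field_simp
  ring

/-- valuation count -/
def W (q n j : ℤ) : ℤ :=
  ((6 * n) / q + n / q + (2 * (n - 2 * j) + q) / (2 * q)) -
    ((n - j) / q + (2 * n - j) / q + (3 * n) / q + (2 * n + 1) / q)

theorem W_nonneg (q n j : ℤ) (hq : 3 ≤ q) (hodd : q % 2 = 1) : 0 ≤ W q n j := by
  have h0 : q ≠ 0 := by omega
  have hq0 : 0 < q := by omega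
  have h20 : 2 * q ≠ 0 := by omega
  obtain ⟨b, y, hy0, hy1, rfl⟩ : ∃ b y : ℤ, 0 ≤ y ∧ y < q ∧ j = y + q * b :=
    ⟨j / q, j % q, Int.emod_nonneg _ h0, Int.emod_lt_of_pos _ hq0, (Int.emod_add_mul_ediv j q).symm⟩
  obtain ⟨c, u, hu0, hu1, rfl⟩ : ∃ c u : ℤ, 0 ≤ u ∧ u < q ∧ n = u + q * c :=
    ⟨n / q, n % q, Int.emod_nonneg _ h0, Int.emod_lt_of_pos _ hq0, (Int.emod_add_mul_ediv n q).symm⟩
  unfold W
  rw [show 2 * (u + q * c - 2 * (y + q * b)) + q = (2 * u - 4 * y + q) + (2 * q) * (c - 2 * b) by ring,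
    show 6 * (u + q * c) = 6 * u + q * (6 * c) by ring,
    show 3 * (u + q * c) = 3 * u + q * (3 * c) by ring,
    show 2 * (u + q * c) + 1 = (2 * u + 1) + q * (2 * c) by ring,
    show 2 * (u + q * c) - (y + q * b) = (2 * u - y) + q * (2 * c - b) by ring,
    show u + q * c - (y + q * b) = (u - y) + q * (c - b) by ring]
  simp only [Int.add_mul_ediv_left _ _ h0, Int.add_mul_ediv_left _ _ h20]
  rw [Int.ediv_eq_zero_of_lt hu0 hu1]
  obtain ⟨l1, u1, c1, d1⟩ := fl_spec (6 * u) q 0 5 hq0 (by linarith) (by linarith)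
  obtain ⟨l2, u2, c2, d2⟩ := fl_spec (2 * u - 4 * y + q) (2 * q) (-2) 1 (by omega) (by linarith) (by linarith)
  obtain ⟨l3, u3, c3, d3⟩ := fl_spec (3 * u) q 0 2 hq0 (by linarith) (by linarith)
  obtain ⟨l4, u4, c4, d4⟩ := fl_spec (2 * u + 1) q 0 1 hq0 (by linarith) (by linarith)
  obtain ⟨l5, u5, c5, d5⟩ := fl_spec (2 * u - y) q (-1) 1 hq0 (by linarith) (by linarith)
  obtain ⟨l6, u6, c6, d6⟩ := fl_spec (u - y) q (-1) 0 hq0 (by linarith) (by linarith)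
  generalize (6 * u) / q = X1 at *
  generalize (2 * u - 4 * y + q) / (2 * q) = X2 at *
  generalize (3 * u) / q = X3 at *
  generalize (2 * u + 1) / q = X4 at *
  generalize (2 * u - y) / q = X5 at *
  generalize (u - y) / q = X6 at *
  obtain ⟨r, rfl⟩ : ∃ r, q = 2 * r + 1 := ⟨q / 2, by omega⟩
  interval_cases X4 <;> interval_cases X3 <;> (try omega) <;> interval_cases X1 <;> (try omega) <;>
    interval_cases X6 <;> (try omega) <;> interval_cases X5 <;> (try omega) <;>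
    interval_cases X2 <;> omega

theorem F0_mem {p : ℕ} [hp : Fact p.Prime] (h2 : p ≠ 2) (n j : ℕ) (hj : j ≤ n) : F0 n j ∈ Zp p := by
  have h1 : rf ((n : ℤ) - j) = 1 / ((n - j)! : ℚ) := by
    rw [show (n : ℤ) - j = ((n - j : ℕ) : ℤ) by omega, rf_nat]
  have h3 : rf (2 * (n : ℤ) - j) = 1 / ((2 * n - j)! : ℚ) := by
    rw [show 2 * (n : ℤ) - j = ((2 * n - j : ℕ) : ℤ) by omega, rf_nat]
  have hv : HasVal p ((((6 * n)! : ℚ) * (n ! : ℚ) * hg ((n : ℤ) - 2 * j)) /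
      (((n - j)! : ℚ) * ((2 * n - j)! : ℚ) * ((3 * n)! : ℚ) * ((2 * n + 1)! : ℚ)))
      (fun i => W ((p : ℤ) ^ i) n j) := by
    refine ((((HasVal.fac (6 * n)).mul (HasVal.fac n)).mul (HasVal.hgv h2 ((n : ℤ) - 2 * j))).div
      ((((HasVal.fac (n - j)).mul (HasVal.fac (2 * n - j))).mul (HasVal.fac (3 * n))).mul
      (HasVal.fac (2 * n + 1)))).congr fun i _ => ?_
    unfold W
    rw [show ((n - j : ℕ) : ℤ) = (n : ℤ) - j by omega, show ((2 * n - j : ℕ) : ℤ) = 2 * (n : ℤ) - j by omega]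
    push_cast
    ring
  have h4 : F0 n j = ((4 ^ (n + j) : ℕ) : ℚ) * ((((6 * n)! : ℚ) * (n ! : ℚ) * hg ((n : ℤ) - 2 * j)) /
      (((n - j)! : ℚ) * ((2 * n - j)! : ℚ) * ((3 * n)! : ℚ) * ((2 * n + 1)! : ℚ))) := by
    unfold F0
    rw [h1, h3]
    have z1 : ((n - j)! : ℚ) ≠ 0 := by positivity
    have z2 : ((3 * n)! : ℚ) ≠ 0 := by positivity
    have z3 : ((2 * n + 1)! : ℚ) ≠ 0 := by positivity
    have z4 : ((2 * n - j)! : ℚ) ≠ 0 := by positivity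
    push_cast
    field_simp
  rw [h4]
  refine (Zp p).mul_mem (natCast_mem_Zp _) (hv.mem fun l hl => ?_)
  have h5 : Odd p := hp.out.odd_of_ne_two h2
  have h6 : (p ^ l) % 2 = 1 := Nat.odd_iff.mp h5.pow
  have h7 : 2 ≤ p ^ l := by
    have := two_le_pow' hp.out hl
    exact_mod_cast this
  refine W_nonneg _ _ _ ?_ (by exact_mod_cast h6)
  have : 3 ≤ p ^ l := by omega
  exact_mod_cast this

/-- integrality away from `2` and `5` -/
theorem a_mem {p : ℕ} [hp : Fact p.Prime] (h2 : p ≠ 2) (h5 : p ≠ 5) (n : ℕ) : a n ∈ Zp p := by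
  rw [a_eq n]
  refine (Zp p).mul_mem ((Zp p).neg_mem ?_) ((Zp p).sum_mem fun i hi => ?_)
  · have := inv_nat_mem_Zp (p := p) (c := 2560) (fun hd => by
      have h' : p ∣ 2 ^ 9 * 5 := by simpa using hd
      rcases (hp.out.dvd_mul).mp h' with h4 | h4
      · exact h2 ((Nat.prime_dvd_prime_iff_eq hp.out Nat.prime_two).mp (hp.out.dvd_of_dvd_pow h4))
      · exact h5 ((Nat.prime_dvd_prime_iff_eq hp.out Nat.prime_five).mp h4))
    exact_mod_cast this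
  · have hi' := Finset.mem_range.mp hi
    exact F0_mem h2 _ _ (by omega)

local instance : Fact (Nat.Prime 2) := ⟨Nat.prime_two⟩

/-- integrality at `2` -/
theorem a_mem_two (n : ℕ) (hn : 2 ≤ n) : a n ∈ Zp 2 := by
  obtain ⟨m, rfl⟩ : ∃ m, n = m + 1 := ⟨n - 1, by omega⟩
  unfold a
  rw [Finset.sum_div]
  refine (Zp 2).sum_mem fun k hk => ?_
  have hk' := Finset.mem_range.mp hk
  rw [norm_eq, show m + 1 - 1 - k = m - k by omega]
  have z1 : (m ! : ℚ) ≠ 0 := by positivity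
  have z2 : ((m + 1)! : ℚ) ≠ 0 := by positivity
  have z3 : ((2 * m + 3)! : ℚ) ≠ 0 := by positivity
  have z4 : (k ! : ℚ) ≠ 0 := by positivity
  have z5 : ((6 * k)! : ℚ) ≠ 0 := by positivity
  have z7 : ((3 * k)! : ℚ) ≠ 0 := by positivity
  have z6 : (2 : ℚ) ^ (15 * (m - k)) ≠ 0 := by positivity
  have h1 : (154 * (k : ℚ) + 15) * c k * (-32768) ^ (m - k) /
      (10 * ((2 * m + 3)! : ℚ) / ((m ! : ℚ) * ((m + 1)! : ℚ)))
      = (((154 * k + 15) * (-1) ^ (m - k) : ℤ) : ℚ) * (1 / ((5 : ℕ) : ℚ)) *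
        (2 ^ (15 * (m - k)) * ((6 * k)! : ℚ) * (m ! : ℚ) * ((m + 1)! : ℚ) /
          (((3 * k)! : ℚ) * (k ! : ℚ) ^ 3 * 2 * ((2 * m + 3)! : ℚ))) := by
    have h2 : (-32768 : ℚ) ^ (m - k) = (-1) ^ (m - k) * 2 ^ (15 * (m - k)) := by
      rw [pow_mul, ← mul_pow]; norm_num
    unfold c
    rw [h2]
    push_cast
    field_simp
    try norm_num
  rw [h1]
  refine (Zp 2).mul_mem ((Zp 2).mul_mem (intCast_mem_Zp _) (inv_nat_mem_Zp (by norm_num))) ?_
  rw [mem_Zp_iff (by positivity), padicValRat.div (by positivity) (by positivity),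
    padicValRat.mul (by positivity) z2, padicValRat.mul (by positivity) z1,
    padicValRat.mul z6 z5, padicValRat.mul (by positivity) z3,
    padicValRat.mul (by positivity) (by norm_num), padicValRat.mul z7 (by positivity),
    padicValRat.pow, padicValRat.pow,
    val_fac, val_fac, val_fac, val_fac, val_fac, val_fac]
  have h2 : padicValRat 2 (2 : ℚ) = 1 := by
    have := padicValRat.self (p := 2) (by norm_num)
    exact_mod_cast this
  rw [h2, show 6 * k = 2 * (3 * k) by ring, vf_even,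
    show 2 * m + 3 = 2 * (m + 1) + 1 by ring, vf_odd]
  have h3 := vf_mono (show k ≤ m by omega)
  push_cast
  have h5 : ((m - k : ℕ) : ℤ) = (m : ℤ) - k := by omega
  rw [h5]
  rcases Nat.eq_zero_or_pos k with h | h
  · subst h
    rw [vf_zero] at h3 ⊢
    push_cast
    omega
  · have h6 := vf_lt h.ne'
    have : (k : ℤ) ≤ m := by omega
    omega

theorem c_pos (k : ℕ) : 0 < c k := by unfold c; positivity

theorem c_succ (k : ℕ) : c (k + 1) * ((k : ℚ) + 1) ^ 3 =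
    8 * (6 * k + 1) * (6 * k + 3) * (6 * k + 5) * c k := by
  unfold c
  have f1 : ((6 * (k + 1))! : ℚ) = (6 * k + 6) * (6 * k + 5) * (6 * k + 4) * (6 * k + 3) *
      (6 * k + 2) * (6 * k + 1) * ((6 * k)! : ℚ) := by
    rw [show 6 * (k + 1) = 6 * k + 1 + 1 + 1 + 1 + 1 + 1 by ring, Nat.factorial_succ, Nat.factorial_succ,
      Nat.factorial_succ, Nat.factorial_succ, Nat.factorial_succ, Nat.factorial_succ]
    push_cast; ring
  have f2 : ((k + 1)! : ℚ) = (k + 1) * (k ! : ℚ) := by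
    rw [Nat.factorial_succ]; push_cast; ring
  have f3 : ((3 * (k + 1))! : ℚ) = (3 * k + 3) * (3 * k + 2) * (3 * k + 1) * ((3 * k)! : ℚ) := by
    rw [show 3 * (k + 1) = 3 * k + 1 + 1 + 1 by ring, Nat.factorial_succ, Nat.factorial_succ,
      Nat.factorial_succ]
    push_cast; ring
  rw [f1, f2, f3]
  have z1 : (k ! : ℚ) ≠ 0 := by positivity
  have z2 : ((3 * k)! : ℚ) ≠ 0 := by positivity
  have z3 : ((k : ℚ) + 1) ≠ 0 := by positivity
  have z5 : (3 * (k : ℚ) + 2) ≠ 0 := by positivity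
  have z6 : (3 * (k : ℚ) + 1) ≠ 0 := by positivity
  have z7 : (3 * (k : ℚ) + 3) ≠ 0 := by positivity
  field_simp
  ring

theorem sign (n : ℕ) (hn : 1 ≤ n) : 0 < (-1) ^ (n - 1) * a n := by
  obtain ⟨m, rfl⟩ : ∃ m, n = m + 1 := ⟨n - 1, by omega⟩
  have h1 := alt_pos 32768 (by norm_num) (fun k => (154 * (k : ℚ) + 15) * c k)
    (fun k => by have := c_pos k; positivity) (fun k => by
      have h2 := c_succ k
      have h3 := c_pos k
      have hk : (0 : ℚ) ≤ k := by positivity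
      have h4 : (0 : ℚ) < ((k : ℚ) + 1) ^ 3 := by positivity
      have h5 : c (k + 1) = 8 * (6 * k + 1) * (6 * k + 3) * (6 * k + 5) * c k / ((k : ℚ) + 1) ^ 3 := by
        rw [eq_div_iff h4.ne', h2]
      push_cast
      rw [h5, ← mul_div_assoc, ← mul_div_assoc, div_le_iff₀ h4]
      have h6 : 2 * ((154 * ((k : ℚ) + 1) + 15) * (8 * (6 * k + 1) * (6 * k + 3) * (6 * k + 5)))
          ≤ 32768 * (154 * (k : ℚ) + 15) * ((k : ℚ) + 1) ^ 3 := by
        have e : 32768 * (154 * (k : ℚ) + 15) * ((k : ℚ) + 1) ^ 3 -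
            2 * ((154 * ((k : ℚ) + 1) + 15) * (8 * (6 * k + 1) * (6 * k + 3) * (6 * k + 5)))
            = 450960 + 6110720 * k + 15397248 * k ^ 2 + 14247936 * k ^ 3 + 4514048 * k ^ 4 := by
          ring
        have : 0 ≤ 450960 + 6110720 * k + 15397248 * k ^ 2 + 14247936 * k ^ 3 + 4514048 * (k : ℚ) ^ 4 := by
          positivity
        linarith
      nlinarith [mul_le_mul_of_nonneg_right h6 h3.le]) m
  unfold a
  rw [show m + 1 - 1 = m by omega, ← mul_div_assoc]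
  have h2 : 0 < (2 * (m + 1)).choose (m + 1) := Nat.choose_pos (by omega)
  refine div_pos ?_ (by positivity)
  simpa using h1

end Pool.Agent.R440.E154
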