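import Mathlib
import Pool.Agent.R440.WZ
import Pool.Agent.R440.Loc

/-!
Residues modulo `5` of `5`-integral rationals, and the splitting of factorials and of
half-integer Gamma values according to the last base-`5` digit.
-/

set_option autoImplicit false

namespace Pool.Agent.R440

open Finset Nat

/-- `x` is `5`-integral with residue `c` modulo `5` -/
def Res (x : ℚ) (c : ZMod 5) : Prop :=
  ∃ a b : ℤ, x * b = a ∧ (b : ZMod 5) ≠ 0 ∧ (a : ZMod 5) = c * b

theorem five_zero : (5 : ZMod 5) = 0 := rfl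

instance : Fact (Nat.Prime 5) := ⟨Nat.prime_five⟩

namespace Res

variable {x y : ℚ} {c d : ZMod 5}

theorem int (z : ℤ) : Res (z : ℚ) (z : ZMod 5) := ⟨z, 1, by simp, by simp, by simp⟩

theorem nat (z : ℕ) : Res (z : ℚ) (z : ZMod 5) := by simpa using Res.int (z : ℤ)

theorem zero : Res 0 0 := by simpa using Res.int 0

theorem one : Res 1 1 := by simpa using Res.int 1

theorem add (hx : Res x c) (hy : Res y d) : Res (x + y) (c + d) := by
  obtain ⟨a, b, h1, h2, h3⟩ := hx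
  obtain ⟨a', b', h1', h2', h3'⟩ := hy
  refine ⟨a * b' + a' * b, b * b', ?_, ?_, ?_⟩
  · push_cast
    rw [← h1, ← h1']; ring
  · push_cast
    exact mul_ne_zero h2 h2'
  · push_cast
    rw [h3, h3']; ring

theorem mul (hx : Res x c) (hy : Res y d) : Res (x * y) (c * d) := by
  obtain ⟨a, b, h1, h2, h3⟩ := hx
  obtain ⟨a', b', h1', h2', h3'⟩ := hy
  refine ⟨a * a', b * b', ?_, ?_, ?_⟩
  · push_cast
    rw [← h1, ← h1']; ring
  · push_cast
    exact mul_ne_zero h2 h2'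
  · push_cast
    rw [h3, h3']; ring

theorem neg (hx : Res x c) : Res (-x) (-c) := by
  have := (Res.int (-1)).mul hx
  simpa using this

theorem sub (hx : Res x c) (hy : Res y d) : Res (x - y) (c - d) := by
  rw [sub_eq_add_neg, sub_eq_add_neg]; exact hx.add hy.neg

theorem congr (hx : Res x c) (h : c = d) : Res x d := h ▸ hx

theorem inv (hx : Res x c) (hc : c ≠ 0) : Res x⁻¹ c⁻¹ := by
  obtain ⟨a, b, h1, h2, h3⟩ := hx
  have ha : (a : ZMod 5) ≠ 0 := by rw [h3]; exact mul_ne_zero hc h2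
  have ha' : (a : ℚ) ≠ 0 := by
    intro h
    have : a = 0 := by exact_mod_cast h
    rw [this] at ha
    simp at ha
  have hb' : (b : ℚ) ≠ 0 := by
    intro h
    have : b = 0 := by exact_mod_cast h
    rw [this] at h2
    simp at h2
  have hx0 : x ≠ 0 := by
    rintro rfl
    rw [zero_mul] at h1
    exact ha' h1.symm
  refine ⟨b, a, ?_, ha, ?_⟩
  · rw [← h1]; field_simp
  · rw [h3, ← mul_assoc, inv_mul_cancel₀ hc, one_mul]

theorem unique (hx : Res x c) (hy : Res x d) : c = d := by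
  obtain ⟨a, b, h1, h2, h3⟩ := hx
  obtain ⟨a', b', h1', h2', h3'⟩ := hy
  have h4 : (a : ℚ) * b' = a' * b := by rw [← h1, ← h1']; ring
  have h5 : a * b' = a' * b := by exact_mod_cast h4
  have h6 : (a : ZMod 5) * b' = a' * b := by exact_mod_cast congrArg (Int.cast : ℤ → ZMod 5) h5
  rw [h3, h3'] at h6
  have h7 : c * (b * b') = d * (b * b') := by rw [← mul_assoc, h6]; ring
  exact mul_right_cancel₀ (mul_ne_zero h2 h2') h7

theorem sum {ι : Type*} (s : Finset ι) (f : ι → ℚ) (g : ι → ZMod 5)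
    (h : ∀ i ∈ s, Res (f i) (g i)) : Res (∑ i ∈ s, f i) (∑ i ∈ s, g i) := by
  classical
  induction s using Finset.induction_on with
  | empty => simpa using Res.zero
  | insert a s ha ih =>
    rw [Finset.sum_insert ha, Finset.sum_insert ha]
    exact (h a (Finset.mem_insert_self a s)).add
      (ih fun i hi => h i (Finset.mem_insert_of_mem hi))

theorem mem (hx : Res x c) : x ∈ Zp 5 := by
  obtain ⟨a, b, h1, h2, h3⟩ := hx
  have hb : ¬ (5 : ℤ) ∣ b := by
    intro h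
    apply h2
    exact (ZMod.intCast_zmod_eq_zero_iff_dvd b 5).mpr h
  have hb0 : (b : ℚ) ≠ 0 := by
    intro h
    have : b = 0 := by exact_mod_cast h
    exact hb (this ▸ dvd_zero _)
  have hx' : x = a * (b : ℚ)⁻¹ := by rw [← h1]; field_simp
  rw [hx']
  refine (Zp 5).mul_mem (intCast_mem_Zp a) ?_
  have h4 : ¬ 5 ∣ b.natAbs := by
    intro h
    apply hb
    exact Int.natCast_dvd.mpr h
  have h5 := inv_nat_mem_Zp (p := 5) h4
  rw [one_div] at h5
  rcases Int.natAbs_eq b with h6 | h6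
  · have h7 : (b : ℚ) = (b.natAbs : ℚ) := by
      conv_lhs => rw [h6]
      exact Int.cast_natCast _
    rw [h7]; exact h5
  · have h7 : (b : ℚ) = -(b.natAbs : ℚ) := by
      conv_lhs => rw [h6]
      rw [Int.cast_neg]
      exact congrArg _ (Int.cast_natCast _)
    rw [h7, inv_neg]; exact (Zp 5).neg_mem h5

theorem div_five (hx : Res x 0) : x / 5 ∈ Zp 5 := by
  obtain ⟨a, b, h1, h2, h3⟩ := hx
  rw [zero_mul] at h3
  obtain ⟨a', ha'⟩ := (ZMod.intCast_zmod_eq_zero_iff_dvd a 5).mp h3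
  have : Res (x / 5) ((a' : ZMod 5) * (b : ZMod 5)⁻¹) := by
    refine ⟨a', b, ?_, h2, ?_⟩
    · have : (a : ℚ) = 5 * a' := by rw [ha']; push_cast; ring
      rw [this] at h1
      have h5 : x / 5 * b = (x * b) / 5 := by ring
      rw [h5, h1]; ring
    · rw [mul_assoc, inv_mul_cancel₀ h2, mul_one]
  exact this.mem

end Res

/-- residues of factorials of digits -/
def fz (r : ℕ) : ZMod 5 := match r with
  | 0 => 1
  | 1 => 1
  | 2 => 2
  | 3 => 1
  | _ => 4

/-- residues of reciprocal factorials of digits -/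
def fi (r : ℕ) : ZMod 5 := match r with
  | 0 => 1
  | 1 => 1
  | 2 => 3
  | 3 => 1
  | _ => 4

/-- residues for half-integer Gamma values, the digit is `r - 2` -/
def gz (r : ℕ) : ZMod 5 := match r with
  | 0 => 3
  | 1 => 3
  | 2 => 1
  | 3 => 3
  | _ => 2

theorem fac_split_zero (n : ℕ) :
    ∃ w, Res w ((-1) ^ n) ∧ ((5 * n)! : ℚ) = 5 ^ n * (n ! : ℚ) * w := by
  induction n with
  | zero => exact ⟨1, by simpa using Res.one, by simp⟩
  | succ n ih =>
    obtain ⟨w, h1, h2⟩ := ih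
    refine ⟨w * (((5 * n + 4) * (5 * n + 3) * (5 * n + 2) * (5 * n + 1) : ℕ) : ℚ),
      (h1.mul (Res.nat _)).congr ?_, ?_⟩
    · push_cast
      rw [five_zero, pow_succ]
      simp only [zero_mul, zero_add, mul_one]
      congr 1
    · rw [show 5 * (n + 1) = 5 * n + 1 + 1 + 1 + 1 + 1 by ring, Nat.factorial_succ, Nat.factorial_succ,
        Nat.factorial_succ, Nat.factorial_succ, Nat.factorial_succ, Nat.factorial_succ n, pow_succ]
      push_cast
      rw [h2]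
      ring

theorem fac_split (n r : ℕ) (hr : r < 5) :
    ∃ w, Res w ((-1) ^ n * fz r) ∧ ((5 * n + r)! : ℚ) = 5 ^ n * (n ! : ℚ) * w := by
  obtain ⟨w, h1, h2⟩ := fac_split_zero n
  have key : ∀ (v : ℕ) (c : ZMod 5), (v : ZMod 5) = c → ((5 * n + r)! : ℕ) = v * (5 * n)! →
      c = fz r → ∃ w, Res w ((-1) ^ n * fz r) ∧ ((5 * n + r)! : ℚ) = 5 ^ n * (n ! : ℚ) * w := by
    intro v c hc hv hf
    refine ⟨w * v, (h1.mul (Res.nat v)).congr (by rw [hc, hf]), ?_⟩
    have hv' : ((5 * n + r)! : ℚ) = (v : ℚ) * ((5 * n)! : ℚ) := by exact_mod_cast hv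
    rw [hv', h2]; ring
  interval_cases r
  · exact key 1 1 (by simp) (by simp) rfl
  · refine key (5 * n + 1) 1 (by push_cast; rw [five_zero]; simp) ?_ rfl
    rw [Nat.factorial_succ]
  · refine key ((5 * n + 2) * (5 * n + 1)) 2 (by push_cast; rw [five_zero]; simp) ?_ rfl
    rw [show 5 * n + 2 = 5 * n + 1 + 1 by ring, Nat.factorial_succ, Nat.factorial_succ]; ring
  · refine key ((5 * n + 3) * (5 * n + 2) * (5 * n + 1)) 1
      (by push_cast; rw [five_zero]; simp only [zero_mul, zero_add]; rfl) ?_ rfl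
    rw [show 5 * n + 3 = 5 * n + 1 + 1 + 1 by ring, Nat.factorial_succ, Nat.factorial_succ,
      Nat.factorial_succ]; ring
  · refine key ((5 * n + 4) * (5 * n + 3) * (5 * n + 2) * (5 * n + 1)) 4
      (by push_cast; rw [five_zero]; simp only [zero_mul, zero_add]; rfl) ?_ rfl
    rw [show 5 * n + 4 = 5 * n + 1 + 1 + 1 + 1 by ring, Nat.factorial_succ, Nat.factorial_succ,
      Nat.factorial_succ, Nat.factorial_succ]; ring

theorem fz_ne_zero (r : ℕ) (hr : r < 5) : fz r ≠ 0 ∧ (fz r)⁻¹ = fi r := by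
  have h : ∀ c d : ZMod 5, c * d = 1 → c⁻¹ = d := by
    intro c d h
    exact inv_eq_of_mul_eq_one_right h
  interval_cases r
  · exact ⟨by decide, h _ _ (by decide)⟩
  · exact ⟨by decide, h _ _ (by decide)⟩
  · exact ⟨by decide, h _ _ (by decide)⟩
  · exact ⟨by decide, h _ _ (by decide)⟩
  · exact ⟨by decide, h _ _ (by decide)⟩

theorem neg_one_pow_inv (n : ℕ) : ((-1 : ZMod 5) ^ n)⁻¹ = (-1) ^ n := by
  rcases neg_one_pow_eq_or (ZMod 5) n with h | h <;> rw [h] <;> simp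

theorem five_ne : (5 : ℚ) ≠ 0 := by norm_num

/-- splitting of reciprocal factorials -/
theorem fac_split_inv (n r : ℕ) (hr : r < 5) :
    ∃ w, Res w ((-1) ^ n * fi r) ∧ ((5 * n + r)! : ℚ)⁻¹ = (5 : ℚ) ^ (-(n : ℤ)) * (n ! : ℚ)⁻¹ * w := by
  obtain ⟨w, h1, h2⟩ := fac_split n r hr
  obtain ⟨h3, h4⟩ := fz_ne_zero r hr
  refine ⟨w⁻¹, (h1.inv ?_).congr ?_, ?_⟩
  · exact mul_ne_zero (pow_ne_zero _ (by decide)) h3
  · rw [mul_inv, neg_one_pow_inv, h4]
  · rw [h2, mul_inv, mul_inv, zpow_neg, zpow_natCast]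

theorem fac_split' (n r : ℕ) (hr : r < 5) :
    ∃ w, Res w ((-1) ^ (n : ℤ) * fz r) ∧ ((5 * n + r)! : ℚ) = (5 : ℚ) ^ (n : ℤ) * (n ! : ℚ) * w := by
  obtain ⟨w, h1, h2⟩ := fac_split n r hr
  exact ⟨w, by simpa using h1, by rw [h2, zpow_natCast]⟩

theorem neg_one_zpow_or (x : ℤ) : (-1 : ZMod 5) ^ x = 1 ∨ (-1 : ZMod 5) ^ x = -1 := by
  rcases Int.even_or_odd x with h | h
  · exact Or.inl h.neg_one_zpow
  · exact Or.inr h.neg_one_zpow

theorem rf_split (x r : ℤ) (hr0 : 0 ≤ r) (hr : r < 5) :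
    ∃ w, Res w ((-1) ^ (-x) * fi r.toNat) ∧ rf (5 * x + r) = (5 : ℚ) ^ (-x) * rf x * w := by
  rcases lt_or_ge x 0 with h | h
  · obtain ⟨w, h1, -⟩ := fac_split_inv 0 r.toNat (by omega)
    rcases neg_one_zpow_or (-x) with h3 | h3
    · refine ⟨w, by rw [h3]; simpa using h1, ?_⟩
      rw [rf_neg h, rf_neg (by omega)]; ring
    · refine ⟨-w, by rw [h3]; simpa using h1.neg, ?_⟩
      rw [rf_neg h, rf_neg (by omega)]; ring
  · obtain ⟨n, rfl⟩ : ∃ n : ℕ, x = n := ⟨x.toNat, by omega⟩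
    obtain ⟨k, rfl⟩ : ∃ k : ℕ, r = k := ⟨r.toNat, by omega⟩
    obtain ⟨w, h1, h2⟩ := fac_split_inv n k (by omega)
    refine ⟨w, ?_, ?_⟩
    · rw [Int.toNat_natCast, zpow_neg, zpow_natCast, neg_one_pow_inv]; exact h1
    · rw [show 5 * (n : ℤ) + k = ((5 * n + k : ℕ) : ℤ) by push_cast; ring, rf_nat, rf_nat, one_div,
        one_div]
      exact h2

/-- residues of half-integers -/
theorem res_half (z : ℤ) : Res ((z : ℚ) + 1 / 2) ((z : ZMod 5) + 3) := by
  refine ⟨2 * z + 1, 2, ?_, by decide, ?_⟩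
  · push_cast; ring
  · push_cast
    have : (3 : ZMod 5) * 2 = 1 := by decide
    rw [add_mul, this]; ring

theorem hg_split_zero (x : ℤ) : Res (hg (5 * x) * ((5 : ℚ) ^ x * hg x)⁻¹) ((-1) ^ x) := by
  have step : ∀ x : ℤ, hg (5 * (x + 1)) * ((5 : ℚ) ^ (x + 1) * hg (x + 1))⁻¹
      = (hg (5 * x) * ((5 : ℚ) ^ x * hg x)⁻¹) *
        (((((5 * x + 4 : ℤ) : ℚ) + 1 / 2)) * (((5 * x + 3 : ℤ) : ℚ) + 1 / 2) *
          (((5 * x + 1 : ℤ) : ℚ) + 1 / 2) * (((5 * x : ℤ) : ℚ) + 1 / 2)) := by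
    intro x
    have h1 : hg (5 * (x + 1)) = (((5 * x + 4 : ℤ) : ℚ) + 1 / 2) * ((((5 * x + 3 : ℤ) : ℚ) + 1 / 2) *
        ((((5 * x + 2 : ℤ) : ℚ) + 1 / 2) * ((((5 * x + 1 : ℤ) : ℚ) + 1 / 2) *
        ((((5 * x : ℤ) : ℚ) + 1 / 2) * hg (5 * x))))) := by
      rw [show 5 * (x + 1) = 5 * x + 4 + 1 by ring, hg_step, show 5 * x + 4 = 5 * x + 3 + 1 by ring,
        hg_step, show 5 * x + 3 = 5 * x + 2 + 1 by ring, hg_step,
        show 5 * x + 2 = 5 * x + 1 + 1 by ring, hg_step, hg_step]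
    have hx1 : (x : ℚ) + 1 / 2 ≠ 0 := by
      intro h
      have h2 : 2 * (x : ℚ) + 1 = 0 := by linarith
      have h3 : 2 * x + 1 = 0 := by exact_mod_cast h2
      omega
    rw [h1, hg_step, zpow_add₀ five_ne, zpow_one]
    have hx := hg_ne_zero x
    have h5 : (5 : ℚ) ^ x ≠ 0 := zpow_ne_zero _ five_ne
    have h6 : (((5 * x + 2 : ℤ) : ℚ) + 1 / 2) = 5 * ((x : ℚ) + 1 / 2) := by push_cast; ring
    rw [h6]
    generalize hD : (x : ℚ) + 1 / 2 = D at *
    field_simp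
  have hres : ∀ x : ℤ, Res (((((5 * x + 4 : ℤ) : ℚ) + 1 / 2)) * (((5 * x + 3 : ℤ) : ℚ) + 1 / 2) *
          (((5 * x + 1 : ℤ) : ℚ) + 1 / 2) * (((5 * x : ℤ) : ℚ) + 1 / 2)) (-1) := by
    intro x
    refine ((((res_half (5 * x + 4)).mul (res_half (5 * x + 3))).mul (res_half (5 * x + 1))).mul
      (res_half (5 * x))).congr ?_
    push_cast
    rw [five_zero, zero_mul]
    decide
  induction x using Int.induction_on with
  | zero =>
    have h0 : hg 0 = 1 := by have := hg_nat 0; simpa using this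
    simpa [h0] using Res.one
  | succ i ih =>
    rw [step]
    refine (ih.mul (hres i)).congr ?_
    rw [zpow_add₀ (by decide), zpow_one]
  | pred i ih =>
    have h1 := step (-(i : ℤ) - 1)
    rw [show -(i : ℤ) - 1 + 1 = -(i : ℤ) by ring] at h1
    rw [h1] at ih
    have h2 := hres (-(i : ℤ) - 1)
    have h3 := ih.mul (h2.inv (by decide))
    have hP : ∀ P X : ℚ, P ≠ 0 → (X * P) * P⁻¹ = X := by
      intro P X h; field_simp
    rw [hP] at h3
    · refine h3.congr ?_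
      rw [show -(i : ℤ) = (-(i : ℤ) - 1) + 1 by ring, zpow_add₀ (by decide), zpow_one,
        show -(i : ℤ) - 1 + 1 - 1 = -(i : ℤ) - 1 by ring]
      rw [mul_assoc, mul_inv_cancel₀ (by decide), mul_one]
    · intro h0
      rw [h0] at h2
      exact (by decide : (0 : ZMod 5) ≠ -1) (Res.zero.unique h2)

theorem hg_split (x : ℤ) (r : ℕ) (hr : r < 5) :
    ∃ w, Res w ((-1) ^ x * gz r) ∧ hg (5 * x + r - 2) = (5 : ℚ) ^ x * hg x * w := by
  have h0 := hg_split_zero x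
  obtain ⟨w, hw⟩ : ∃ w, w = hg (5 * x) * ((5 : ℚ) ^ x * hg x)⁻¹ := ⟨_, rfl⟩
  have hx := hg_ne_zero x
  have h5 : (5 : ℚ) ^ x ≠ 0 := zpow_ne_zero _ five_ne
  have h1 : hg (5 * x) = (5 : ℚ) ^ x * hg x * w := by rw [hw]; field_simp
  rw [← hw] at h0
  have e1 : ∀ y : ℤ, (y : ZMod 5) = 5 * x → (y : ZMod 5) = 0 := by
    intro y hy; rw [hy, five_zero, zero_mul]
  have hz : ((5 * x : ℤ) : ZMod 5) = 0 := by push_cast; rw [five_zero, zero_mul]
  interval_cases r
  · -- `r = -2`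
    have ha := res_half (5 * x - 1)
    have hb := res_half (5 * x - 2)
    have ha' : Res (((5 * x - 1 : ℤ) : ℚ) + 1 / 2) 2 := ha.congr (by
      push_cast; push_cast at hz; rw [hz]; decide)
    have hb' : Res (((5 * x - 2 : ℤ) : ℚ) + 1 / 2) 1 := hb.congr (by
      push_cast; push_cast at hz; rw [hz]; decide)
    refine ⟨w * (((5 * x - 1 : ℤ) : ℚ) + 1 / 2)⁻¹ * (((5 * x - 2 : ℤ) : ℚ) + 1 / 2)⁻¹,
      ((h0.mul (ha'.inv (by decide))).mul (hb'.inv (by decide))).congr ?_, ?_⟩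
    · have : ((2 : ZMod 5)⁻¹) * (1 : ZMod 5)⁻¹ = gz 0 := by
        rw [inv_one, mul_one]; exact inv_eq_of_mul_eq_one_right (by decide)
      rw [mul_assoc, this]
    · have s1 := hg_step (5 * x - 1)
      have s2 := hg_step (5 * x - 2)
      rw [show 5 * x - 1 + 1 = 5 * x by ring, h1] at s1
      rw [show 5 * x - 2 + 1 = 5 * x - 1 by ring] at s2
      have n1 : (((5 * x - 1 : ℤ) : ℚ) + 1 / 2) ≠ 0 := by
        intro h; rw [h] at ha'; exact (by decide : (0 : ZMod 5) ≠ 2) (Res.zero.unique ha')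
      have n2 : (((5 * x - 2 : ℤ) : ℚ) + 1 / 2) ≠ 0 := by
        intro h; rw [h] at hb'; exact (by decide : (0 : ZMod 5) ≠ 1) (Res.zero.unique hb')
      rw [s2] at s1
      rw [show 5 * x + ((0 : ℕ) : ℤ) - 2 = 5 * x - 2 by push_cast; ring]
      generalize (((5 * x - 1 : ℤ) : ℚ) + 1 / 2) = P at *
      generalize (((5 * x - 2 : ℤ) : ℚ) + 1 / 2) = Q at *
      have : (5 : ℚ) ^ x * hg x * (w * P⁻¹ * Q⁻¹) = ((5 : ℚ) ^ x * hg x * w) * P⁻¹ * Q⁻¹ := by ring
      rw [this, s1]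
      field_simp
  · have ha := res_half (5 * x - 1)
    have ha' : Res (((5 * x - 1 : ℤ) : ℚ) + 1 / 2) 2 := ha.congr (by
      push_cast; push_cast at hz; rw [hz]; decide)
    refine ⟨w * (((5 * x - 1 : ℤ) : ℚ) + 1 / 2)⁻¹, (h0.mul (ha'.inv (by decide))).congr ?_, ?_⟩
    · have : (2 : ZMod 5)⁻¹ = gz 1 := inv_eq_of_mul_eq_one_right (by decide)
      rw [this]
    · have s1 := hg_step (5 * x - 1)
      rw [show 5 * x - 1 + 1 = 5 * x by ring, h1] at s1
      have n1 : (((5 * x - 1 : ℤ) : ℚ) + 1 / 2) ≠ 0 := by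
        intro h; rw [h] at ha'; exact (by decide : (0 : ZMod 5) ≠ 2) (Res.zero.unique ha')
      rw [show 5 * x + ((1 : ℕ) : ℤ) - 2 = 5 * x - 1 by push_cast; ring]
      generalize (((5 * x - 1 : ℤ) : ℚ) + 1 / 2) = P at *
      have : (5 : ℚ) ^ x * hg x * (w * P⁻¹) = ((5 : ℚ) ^ x * hg x * w) * P⁻¹ := by ring
      rw [this, s1]
      field_simp
  · refine ⟨w, h0.congr ?_, ?_⟩
    · rw [show gz 2 = 1 from rfl, mul_one]
    · rw [show 5 * x + ((2 : ℕ) : ℤ) - 2 = 5 * x by push_cast; ring, h1]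
  · have ha := res_half (5 * x)
    have ha' : Res (((5 * x : ℤ) : ℚ) + 1 / 2) 3 := ha.congr (by
      rw [hz]; decide)
    refine ⟨w * (((5 * x : ℤ) : ℚ) + 1 / 2), (h0.mul ha').congr ?_, ?_⟩
    · rfl
    · rw [show 5 * x + ((3 : ℕ) : ℤ) - 2 = 5 * x + 1 by push_cast; ring, hg_step, h1]
      ring
  · have ha := res_half (5 * x)
    have hb := res_half (5 * x + 1)
    have ha' : Res (((5 * x : ℤ) : ℚ) + 1 / 2) 3 := ha.congr (by
      rw [hz]; decide)
    have hb' : Res (((5 * x + 1 : ℤ) : ℚ) + 1 / 2) 4 := hb.congr (by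
      push_cast; push_cast at hz; rw [hz]; decide)
    refine ⟨w * (((5 * x : ℤ) : ℚ) + 1 / 2) * (((5 * x + 1 : ℤ) : ℚ) + 1 / 2),
      ((h0.mul ha').mul hb').congr ?_, ?_⟩
    · rw [mul_assoc]; rfl
    · rw [show 5 * x + ((4 : ℕ) : ℤ) - 2 = 5 * x + 1 + 1 by push_cast; ring, hg_step, hg_step, h1]
      ring

end Pool.Agent.R440
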