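import Mathlib
import Pool.Agent.R440.E154A
import Pool.Agent.R440.Res5

/-!
# The normalised (154j+15) sums: the prime `5`

The basic terms split according to the last base-`5` digits of `n` and `j`, up to a finite number
of shifts (`33` states); the residues modulo `5` of the sums of the terms satisfy a linear
recursion in the base-`5` digits, which is solved explicitly.
-/

set_option autoImplicit false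

namespace Pool.Agent.R440.E154

open Finset Nat Pool.Agent.R440

/-- shifts of the arguments of the terms -/
structure St where
  s1 : ℕ
  s4 : ℕ
  s5 : ℕ
  s3 : ℤ
  s6 : ℤ
  s7 : ℤ
deriving DecidableEq

/-- the shifted terms -/
noncomputable def F (s : St) (n j : ℕ) : ℚ :=
  4 ^ (n + j) * ((6 * n + s.s1)! : ℚ) * (n ! : ℚ) * hg ((n : ℤ) - 2 * j + s.s3) *
    rf ((n : ℤ) - j + s.s6) * rf (2 * (n : ℤ) - j + s.s7) * ((3 * n + s.s4)! : ℚ)⁻¹ *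
    ((2 * n + s.s5)! : ℚ)⁻¹

theorem F0_eq (n j : ℕ) : F0 n j = F ⟨0, 0, 1, 0, 0, 0⟩ n j := by
  unfold F0 F
  simp only [add_zero]
  rw [div_eq_mul_inv, mul_inv]
  ring

/-- the shifts after removing the last digits -/
def step (s : St) (ν ι : ℕ) : St :=
  ⟨(6 * ν + s.s1) / 5, (3 * ν + s.s4) / 5, (2 * ν + s.s5) / 5, ((ν : ℤ) - 2 * ι + s.s3 + 2) / 5,
    ((ν : ℤ) - ι + s.s6) / 5, (2 * (ν : ℤ) - ι + s.s7) / 5⟩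

/-- the exponent of `5` gained -/
def del (s : St) (ν ι : ℕ) : ℤ :=
  (((6 * ν + s.s1) / 5 : ℕ) : ℤ) + ((ν : ℤ) - 2 * ι + s.s3 + 2) / 5 - (((3 * ν + s.s4) / 5 : ℕ) : ℤ) -
    (((2 * ν + s.s5) / 5 : ℕ) : ℤ) - ((ν : ℤ) - ι + s.s6) / 5 - (2 * (ν : ℤ) - ι + s.s7) / 5

/-- the residue of the unit part -/
def coef (s : St) (ν ι : ℕ) : ZMod 5 :=
  4 ^ (ν + ι) * fz ((6 * ν + s.s1) % 5) * fz ν * gz (((ν : ℤ) - 2 * ι + s.s3 + 2) % 5).toNat *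
    fi (((ν : ℤ) - ι + s.s6) % 5).toNat * fi ((2 * (ν : ℤ) - ι + s.s7) % 5).toNat *
    fi ((3 * ν + s.s4) % 5) * fi ((2 * ν + s.s5) % 5)

theorem pow_split (n r : ℕ) : ∃ w, Res w (4 ^ r) ∧ (4 : ℚ) ^ (5 * n + r) = 4 ^ n * w := by
  refine ⟨((4 ^ (4 * n + r) : ℕ) : ℚ), (Res.nat _).congr ?_, ?_⟩
  · push_cast
    rw [pow_add, pow_mul, show (4 : ZMod 5) ^ 4 = 1 by decide, one_pow, one_mul]
  · push_cast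
    rw [← pow_add]
    congr 1
    ring

theorem split (s : St) (n j ν ι : ℕ) (hν : ν < 5) :
    ∃ w, Res w (coef s ν ι * (-1) ^ (del s ν ι)) ∧
      F s (5 * n + ν) (5 * j + ι) = (5 : ℚ) ^ (del s ν ι) * w * F (step s ν ι) n j := by
  obtain ⟨w0, r0, e0⟩ := pow_split (n + j) (ν + ι)
  obtain ⟨w1, r1, e1⟩ := fac_split' (6 * n + (6 * ν + s.s1) / 5) ((6 * ν + s.s1) % 5)
    (Nat.mod_lt _ (by norm_num))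
  obtain ⟨w2, r2, e2⟩ := fac_split' n ν hν
  obtain ⟨w3, r3, e3⟩ := hg_split ((n : ℤ) - 2 * j + ((ν : ℤ) - 2 * ι + s.s3 + 2) / 5)
    (((ν : ℤ) - 2 * ι + s.s3 + 2) % 5).toNat (by omega)
  obtain ⟨w4, r4, e4⟩ := rf_split ((n : ℤ) - j + ((ν : ℤ) - ι + s.s6) / 5)
    (((ν : ℤ) - ι + s.s6) % 5) (by omega) (by omega)
  obtain ⟨w5, r5, e5⟩ := rf_split (2 * (n : ℤ) - j + (2 * (ν : ℤ) - ι + s.s7) / 5)
    ((2 * (ν : ℤ) - ι + s.s7) % 5) (by omega) (by omega)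
  obtain ⟨w6, r6, e6⟩ := fac_split_inv (3 * n + (3 * ν + s.s4) / 5) ((3 * ν + s.s4) % 5)
    (Nat.mod_lt _ (by norm_num))
  obtain ⟨w7, r7, e7⟩ := fac_split_inv (2 * n + (2 * ν + s.s5) / 5) ((2 * ν + s.s5) % 5)
    (Nat.mod_lt _ (by norm_num))
  refine ⟨w0 * w1 * w2 * w3 * w4 * w5 * w6 * w7,
    (((((((r0.mul r1).mul r2).mul r3).mul r4).mul r5).mul r6).mul r7).congr ?_, ?_⟩
  · unfold coef
    have h6 : ((-1 : ZMod 5)) ^ (3 * n + (3 * ν + s.s4) / 5) =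
        (-1) ^ (-((3 * n + (3 * ν + s.s4) / 5 : ℕ) : ℤ)) := by
      rw [zpow_neg, zpow_natCast, neg_one_pow_inv]
    have h7 : ((-1 : ZMod 5)) ^ (2 * n + (2 * ν + s.s5) / 5) =
        (-1) ^ (-((2 * n + (2 * ν + s.s5) / 5 : ℕ) : ℤ)) := by
      rw [zpow_neg, zpow_natCast, neg_one_pow_inv]
    rw [h6, h7]
    have hd : del s ν ι = ((6 * n + (6 * ν + s.s1) / 5 : ℕ) : ℤ) + (n : ℤ) +
        ((n : ℤ) - 2 * j + ((ν : ℤ) - 2 * ι + s.s3 + 2) / 5) +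
        (-((n : ℤ) - j + ((ν : ℤ) - ι + s.s6) / 5)) +
        (-(2 * (n : ℤ) - j + (2 * (ν : ℤ) - ι + s.s7) / 5)) +
        (-((3 * n + (3 * ν + s.s4) / 5 : ℕ) : ℤ)) + (-((2 * n + (2 * ν + s.s5) / 5 : ℕ) : ℤ)) := by
      unfold del; push_cast; ring
    have hm : (-1 : ZMod 5) ≠ 0 := by decide
    have key : ∀ a b c d e f g : ℤ, (-1 : ZMod 5) ^ (a + b + c + d + e + f + g) =
        (-1) ^ a * (-1) ^ b * (-1) ^ c * (-1) ^ d * (-1) ^ e * (-1) ^ f * (-1) ^ g := by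
      intro a b c d e f g
      rw [zpow_add₀ hm, zpow_add₀ hm, zpow_add₀ hm, zpow_add₀ hm, zpow_add₀ hm, zpow_add₀ hm]
    rw [hd, key]
    generalize (-1 : ZMod 5) ^ ((6 * n + (6 * ν + s.s1) / 5 : ℕ) : ℤ) = z1
    generalize (-1 : ZMod 5) ^ (n : ℤ) = z2
    generalize (-1 : ZMod 5) ^ ((n : ℤ) - 2 * j + ((ν : ℤ) - 2 * ι + s.s3 + 2) / 5) = z3
    generalize (-1 : ZMod 5) ^ (-((n : ℤ) - j + ((ν : ℤ) - ι + s.s6) / 5)) = z4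
    generalize (-1 : ZMod 5) ^ (-(2 * (n : ℤ) - j + (2 * (ν : ℤ) - ι + s.s7) / 5)) = z5
    generalize (-1 : ZMod 5) ^ (-((3 * n + (3 * ν + s.s4) / 5 : ℕ) : ℤ)) = z6
    generalize (-1 : ZMod 5) ^ (-((2 * n + (2 * ν + s.s5) / 5 : ℕ) : ℤ)) = z7
    ring
  · have hd : del s ν ι = ((6 * n + (6 * ν + s.s1) / 5 : ℕ) : ℤ) + (n : ℤ) +
        ((n : ℤ) - 2 * j + ((ν : ℤ) - 2 * ι + s.s3 + 2) / 5) +
        (-((n : ℤ) - j + ((ν : ℤ) - ι + s.s6) / 5)) +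
        (-(2 * (n : ℤ) - j + (2 * (ν : ℤ) - ι + s.s7) / 5)) +
        (-((3 * n + (3 * ν + s.s4) / 5 : ℕ) : ℤ)) + (-((2 * n + (2 * ν + s.s5) / 5 : ℕ) : ℤ)) := by
      unfold del; push_cast; ring
    unfold F
    rw [hd, zpow_add₀ five_ne, zpow_add₀ five_ne, zpow_add₀ five_ne, zpow_add₀ five_ne,
      zpow_add₀ five_ne, zpow_add₀ five_ne]
    have a1 : 6 * (5 * n + ν) + s.s1 = 5 * (6 * n + (6 * ν + s.s1) / 5) + (6 * ν + s.s1) % 5 := by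
      omega
    have a6 : 3 * (5 * n + ν) + s.s4 = 5 * (3 * n + (3 * ν + s.s4) / 5) + (3 * ν + s.s4) % 5 := by
      omega
    have a7 : 2 * (5 * n + ν) + s.s5 = 5 * (2 * n + (2 * ν + s.s5) / 5) + (2 * ν + s.s5) % 5 := by
      omega
    have a0 : 5 * n + ν + (5 * j + ι) = 5 * (n + j) + (ν + ι) := by ring
    have a3 : (((5 * n + ν : ℕ) : ℤ) - 2 * (5 * j + ι : ℕ) + s.s3)
        = 5 * ((n : ℤ) - 2 * j + ((ν : ℤ) - 2 * ι + s.s3 + 2) / 5) +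
          ((((ν : ℤ) - 2 * ι + s.s3 + 2) % 5).toNat : ℤ) - 2 := by
      push_cast; omega
    have a4 : (((5 * n + ν : ℕ) : ℤ) - (5 * j + ι : ℕ) + s.s6)
        = 5 * ((n : ℤ) - j + ((ν : ℤ) - ι + s.s6) / 5) + (((ν : ℤ) - ι + s.s6) % 5) := by
      push_cast; omega
    have a5 : (2 * ((5 * n + ν : ℕ) : ℤ) - (5 * j + ι : ℕ) + s.s7)
        = 5 * (2 * (n : ℤ) - j + (2 * (ν : ℤ) - ι + s.s7) / 5) + ((2 * (ν : ℤ) - ι + s.s7) % 5) := by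
      push_cast; omega
    rw [a0, a1, a6, a7, a3, a4, a5, e0, e1, e2, e3, e4, e5, e6, e7]
    unfold step
    simp only
    ring

/-- the states -/
def L33 : List St := [
  ⟨0, 0, 0, -2, -1, -1⟩, ⟨0, 0, 0, -1, -1, -1⟩, ⟨0, 0, 0, 0, -1, -1⟩, ⟨0, 0, 0, 0, -1, 0⟩,
  ⟨0, 0, 0, 0, 0, 0⟩, ⟨0, 0, 1, 0, 0, 0⟩, ⟨1, 0, 0, -2, -1, -1⟩, ⟨1, 0, 0, -1, -1, -1⟩,
  ⟨1, 0, 0, -1, -1, 0⟩, ⟨1, 0, 0, 0, -1, 0⟩, ⟨1, 0, 0, 0, 0, 0⟩, ⟨2, 1, 0, -2, -1, -1⟩,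
  ⟨2, 1, 0, -1, -1, -1⟩, ⟨2, 1, 0, -1, -1, 0⟩, ⟨2, 1, 1, -1, -1, 0⟩, ⟨2, 1, 0, 0, -1, 0⟩,
  ⟨2, 1, 0, 0, 0, 0⟩, ⟨2, 1, 1, 0, 0, 0⟩, ⟨3, 1, 1, -1, -1, 0⟩, ⟨3, 1, 1, -1, 0, 0⟩,
  ⟨3, 1, 1, 0, 0, 0⟩, ⟨3, 1, 1, 0, 0, 1⟩, ⟨3, 1, 1, 1, 0, 1⟩, ⟨4, 2, 1, -1, -1, 0⟩,
  ⟨4, 2, 1, -1, 0, 0⟩, ⟨4, 2, 1, 0, 0, 0⟩, ⟨4, 2, 1, 0, 0, 1⟩, ⟨4, 2, 1, 1, 0, 1⟩,
  ⟨5, 2, 1, -1, -1, 0⟩, ⟨5, 2, 1, -1, 0, 0⟩, ⟨5, 2, 1, -1, 0, 1⟩, ⟨5, 2, 1, 0, 0, 1⟩,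
  ⟨5, 2, 1, 1, 0, 1⟩]

/-- the states which matter modulo `5` -/
def L10 : List St := [
  ⟨0, 0, 0, -2, -1, -1⟩, ⟨0, 0, 0, 0, 0, 0⟩, ⟨0, 0, 1, 0, 0, 0⟩, ⟨2, 1, 1, -1, -1, 0⟩,
  ⟨2, 1, 1, 0, 0, 0⟩, ⟨3, 1, 1, -1, 0, 0⟩, ⟨3, 1, 1, 0, 0, 1⟩, ⟨4, 2, 1, -1, 0, 0⟩,
  ⟨4, 2, 1, 0, 0, 1⟩, ⟨5, 2, 1, -1, 0, 1⟩]

/-- residues of the total sums, `cl = 1` for `n = 0`, `cl = 2` for `2n+1 = 5^m`, `m ≥ 1`,
`cl = 0` otherwise -/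
def tv (s : St) (cl : ℕ) : ZMod 5 :=
  match cl with
  | 0 => 0
  | 1 => if s = ⟨0, 0, 0, 0, 0, 0⟩ then 1 else if s = ⟨0, 0, 1, 0, 0, 0⟩ then 1 else
      if s = ⟨2, 1, 1, 0, 0, 0⟩ then 2 else if s = ⟨3, 1, 1, -1, 0, 0⟩ then 3 else
      if s = ⟨3, 1, 1, 0, 0, 1⟩ then 1 else if s = ⟨4, 2, 1, -1, 0, 0⟩ then 1 else
      if s = ⟨4, 2, 1, 0, 0, 1⟩ then 2 else 0
  | _ => if s = ⟨0, 0, 1, 0, 0, 0⟩ then 1 else if s = ⟨2, 1, 1, -1, -1, 0⟩ then 2 else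
      if s = ⟨2, 1, 1, 0, 0, 0⟩ then 1 else if s = ⟨3, 1, 1, -1, 0, 0⟩ then 3 else
      if s = ⟨3, 1, 1, 0, 0, 1⟩ then 1 else if s = ⟨4, 2, 1, -1, 0, 0⟩ then 1 else
      if s = ⟨4, 2, 1, 0, 0, 1⟩ then 2 else 0

/-- residues of the terms with `j = 0` -/
def qv (s : St) (cl : ℕ) : ZMod 5 :=
  match cl with
  | 0 => 0
  | 1 => if s = ⟨0, 0, 0, 0, 0, 0⟩ then 1 else if s = ⟨0, 0, 1, 0, 0, 0⟩ then 1 else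
      if s = ⟨2, 1, 1, 0, 0, 0⟩ then 2 else 0
  | _ => if s = ⟨0, 0, 1, 0, 0, 0⟩ then 2 else if s = ⟨2, 1, 1, 0, 0, 0⟩ then 2 else 0

/-- transition of the classes -/
def nx (ν cl : ℕ) : ℕ :=
  match cl with
  | 0 => 0
  | 1 => if ν = 0 then 1 else if ν = 2 then 2 else 0
  | _ => if ν = 2 then 2 else 0

theorem L33_closed : ∀ s ∈ L33, ∀ ν < 5, ∀ ι < 5, step s ν ι ∈ L33 ∧ 0 ≤ del s ν ι := by
  decide +kernel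

theorem L33_s6 : ∀ s ∈ L33, s.s6 ≤ 0 := by decide

theorem L10_sub : ∀ s ∈ L10, s ∈ L33 := by decide +kernel

theorem L10_closed : ∀ s ∈ L10, ∀ ν < 5, ∀ ι < 5, del s ν ι = 0 → step s ν ι ∈ L10 := by
  decide +kernel

theorem tv_rec : ∀ s ∈ L10, ∀ ν < 5, ∀ cl < 3,
    ∑ ι ∈ range 5, (if del s ν ι = 0 then coef s ν ι * tv (step s ν ι) cl else 0)
      = tv s (nx ν cl) := by
  decide +kernel

def L3 : List St := [⟨0, 0, 0, 0, 0, 0⟩, ⟨0, 0, 1, 0, 0, 0⟩, ⟨2, 1, 1, 0, 0, 0⟩]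

theorem L3_sub : ∀ s ∈ L3, s ∈ L33 := by decide +kernel

theorem L3_closed : ∀ s ∈ L3, ∀ ν < 5, del s ν 0 = 0 → step s ν 0 ∈ L3 := by
  decide +kernel

theorem qv_rec : ∀ s ∈ L3, ∀ ν < 5, ∀ cl < 3,
    (if del s ν 0 = 0 then coef s ν 0 * qv (step s ν 0) cl else 0) = qv s (nx ν cl) := by
  decide +kernel

end Pool.Agent.R440.E154
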