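import Mathlib
import Pool.Agent.R440.E154B

/-!
# The normalised (154j+15) sums: the prime `5`, conclusion
-/

set_option autoImplicit false

namespace Pool.Agent.R440.E154

open Finset Nat Pool.Agent.R440

theorem hgm2 : hg (-2) = 4 / 3 := by
  have := hg_neg 2
  rw [show (-2 : ℤ) = -((2 : ℕ) : ℤ) by norm_num, this]
  norm_num [Nat.factorial]

theorem hgm1 : hg (-1) = -2 := by
  have := hg_neg 1
  rw [show (-1 : ℤ) = -((1 : ℕ) : ℤ) by norm_num, this]
  norm_num [Nat.factorial]

theorem hgz : hg 0 = 1 := by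
  have := hg_nat 0
  simpa using this

theorem hg1 : hg 1 = 1 / 2 := by
  have := hg_nat 1
  rw [show (1 : ℤ) = ((1 : ℕ) : ℤ) by norm_num, this]
  norm_num [Nat.factorial]

theorem rfm1 : rf (-1) = 0 := rf_neg (by norm_num)

theorem rf1 : rf 1 = 1 := by
  have := rf_nat 1
  simpa using this

theorem F00 (s : St) : F s 0 0 = (s.s1 ! : ℚ) * hg s.s3 * rf s.s6 * rf s.s7 *
    ((s.s4)! : ℚ)⁻¹ * ((s.s5)! : ℚ)⁻¹ := by
  unfold F
  simp

theorem base_int : ∀ s ∈ L33, ∃ z : ℤ, F s 0 0 = z := by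
  intro s hs
  rw [F00]
  fin_cases hs
  all_goals simp only [hgm1, hgm2, hgz, hg1, rfm1, rf_zero, rf1]
  all_goals first
    | (refine ⟨0, ?_⟩; norm_num [Nat.factorial]; done)
    | (refine ⟨1, ?_⟩; norm_num [Nat.factorial]; done)
    | (refine ⟨2, ?_⟩; norm_num [Nat.factorial]; done)
    | (refine ⟨-12, ?_⟩; norm_num [Nat.factorial]; done)
    | (refine ⟨6, ?_⟩; norm_num [Nat.factorial]; done)
    | (refine ⟨3, ?_⟩; norm_num [Nat.factorial]; done)
    | (refine ⟨-24, ?_⟩; norm_num [Nat.factorial]; done)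
    | (refine ⟨12, ?_⟩; norm_num [Nat.factorial]; done)
    | (refine ⟨-120, ?_⟩; norm_num [Nat.factorial]; done)
    | (refine ⟨60, ?_⟩; norm_num [Nat.factorial]; done)
    | (refine ⟨30, ?_⟩; norm_num [Nat.factorial]; done)

theorem res_of_eq {x : ℚ} {c : ZMod 5} (z : ℤ) (h : x = z) (hc : (z : ZMod 5) = c) : Res x c := by
  rw [h]; exact (Res.int z).congr hc

theorem base10 : ∀ s ∈ L10, Res (F s 0 0) (tv s 1) := by
  intro s hs
  rw [F00]
  fin_cases hs
  all_goals simp only [hgm1, hgm2, hgz, hg1, rfm1, rf_zero, rf1]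
  all_goals first
    | (refine res_of_eq 0 ?_ (by decide); norm_num [Nat.factorial]; done)
    | (refine res_of_eq 1 ?_ (by decide); norm_num [Nat.factorial]; done)
    | (refine res_of_eq 2 ?_ (by decide); norm_num [Nat.factorial]; done)
    | (refine res_of_eq (-12) ?_ (by decide); norm_num [Nat.factorial]; done)
    | (refine res_of_eq 6 ?_ (by decide); norm_num [Nat.factorial]; done)
    | (refine res_of_eq (-24) ?_ (by decide); norm_num [Nat.factorial]; done)
    | (refine res_of_eq 12 ?_ (by decide); norm_num [Nat.factorial]; done)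
    | (refine res_of_eq (-120) ?_ (by decide); norm_num [Nat.factorial]; done)

theorem base3 : ∀ s ∈ L3, Res (F s 0 0) (qv s 1) := by
  intro s hs
  rw [F00]
  fin_cases hs
  all_goals simp only [hgm1, hgm2, hgz, hg1, rfm1, rf_zero, rf1]
  all_goals first
    | (refine res_of_eq 1 ?_ (by decide); norm_num [Nat.factorial]; done)
    | (refine res_of_eq 2 ?_ (by decide); norm_num [Nat.factorial]; done)

theorem res_five_zpow (d : ℤ) (hd : 0 ≤ d) : Res ((5 : ℚ) ^ d) (if d = 0 then 1 else 0) := by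
  obtain ⟨m, rfl⟩ : ∃ m : ℕ, d = m := ⟨d.toNat, by omega⟩
  rcases Nat.eq_zero_or_pos m with h | h
  · subst h
    simpa using Res.one
  · rw [if_neg (by omega), zpow_natCast]
    have := Res.nat (5 ^ m)
    push_cast at this
    rwa [five_zero, zero_pow (by omega)] at this

theorem F_vanish (s : St) (hs : s.s6 ≤ 0) (n j : ℕ) (h : n < j) : F s n j = 0 := by
  unfold F
  rw [rf_neg (by omega)]
  ring

theorem F_int (n : ℕ) : ∀ j, ∀ s ∈ L33, ∃ c, Res (F s n j) c := by
  induction n using Nat.strong_induction_on with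
  | _ n ih =>
    intro j s hs
    rcases Nat.eq_zero_or_pos n with h | h
    · subst h
      rcases Nat.eq_zero_or_pos j with hj | hj
      · subst hj
        obtain ⟨z, hz⟩ := base_int s hs
        rw [hz]; exact ⟨_, Res.int z⟩
      · rw [F_vanish s (L33_s6 s hs) 0 j hj]
        exact ⟨0, Res.zero⟩
    · have hν : n % 5 < 5 := Nat.mod_lt _ (by norm_num)
      have hι : j % 5 < 5 := Nat.mod_lt _ (by norm_num)
      obtain ⟨w, hw, he⟩ := split s (n / 5) (j / 5) (n % 5) (j % 5) hν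
      rw [Nat.div_add_mod, Nat.div_add_mod] at he
      obtain ⟨h1, h2⟩ := L33_closed s hs _ hν _ hι
      obtain ⟨c, hc⟩ := ih (n / 5) (by omega) (j / 5) _ h1
      rw [he]
      exact ⟨_, ((res_five_zpow _ h2).mul hw).mul hc⟩

/-- total sums -/
noncomputable def Tot (s : St) (n : ℕ) : ℚ := ∑ j ∈ range (n + 1), F s n j

theorem sum_digits (f : ℕ → ℚ) (m : ℕ) :
    ∑ j ∈ range (5 * m), f j = ∑ j ∈ range m, ∑ ι ∈ range 5, f (5 * j + ι) := by
  induction m with
  | zero => simp
  | succ m ih =>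
    rw [show 5 * (m + 1) = 5 * m + 1 + 1 + 1 + 1 + 1 by ring, sum_range_succ, sum_range_succ,
      sum_range_succ, sum_range_succ, sum_range_succ, ih, sum_range_succ _ m,
      sum_range_succ _ 4, sum_range_succ _ 3, sum_range_succ _ 2, sum_range_succ _ 1,
      sum_range_one]
    ring_nf

theorem Tot_split (s : St) (hs : s.s6 ≤ 0) (n ν : ℕ) (hν : ν < 5) :
    Tot s (5 * n + ν) = ∑ ι ∈ range 5, ∑ j ∈ range (n + 1), F s (5 * n + ν) (5 * j + ι) := by
  rw [Finset.sum_comm, ← sum_digits]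
  unfold Tot
  refine Finset.sum_subset ?_ ?_
  · intro x hx
    rw [Finset.mem_range] at hx ⊢
    omega
  · intro x _ hx
    rw [Finset.mem_range] at hx
    exact F_vanish s hs _ _ (by omega)

open Classical in
/-- the class of `n` -/
noncomputable def cls (n : ℕ) : ℕ := if n = 0 then 1 else if ∃ m : ℕ, 2 * n + 1 = 5 ^ m then 2 else 0

theorem cls_lt (n : ℕ) : cls n < 3 := by
  unfold cls; split_ifs <;> norm_num

theorem cls_rec (n ν : ℕ) (hν : ν < 5) (h : 5 * n + ν ≠ 0) : cls (5 * n + ν) = nx ν (cls n) := by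
  have key : (∃ m : ℕ, 2 * (5 * n + ν) + 1 = 5 ^ m) ↔ (ν = 2 ∧ ∃ m : ℕ, 2 * n + 1 = 5 ^ m) := by
    constructor
    · rintro ⟨m, hm⟩
      obtain ⟨k, rfl⟩ : ∃ k, m = k + 1 := by
        rcases Nat.eq_zero_or_pos m with h0 | h0
        · subst h0; simp at hm; omega
        · exact ⟨m - 1, by omega⟩
      rw [pow_succ] at hm
      refine ⟨by omega, k, by omega⟩
    · rintro ⟨rfl, m, hm⟩
      refine ⟨m + 1, ?_⟩
      rw [pow_succ, ← hm]; ring
  unfold cls
  rw [if_neg h]
  by_cases hn : n = 0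
  · subst hn
    rw [if_pos rfl]
    have h1 : (∃ m : ℕ, 2 * 0 + 1 = 5 ^ m) := ⟨0, by norm_num⟩
    by_cases h2 : ν = 2
    · rw [if_pos (key.mpr ⟨h2, h1⟩), h2]; rfl
    · rw [if_neg (fun hc => h2 (key.mp hc).1)]
      have h3 : ν ≠ 0 := by omega
      simp [nx, h2, h3]
  · rw [if_neg hn]
    by_cases h1 : ∃ m : ℕ, 2 * n + 1 = 5 ^ m
    · rw [if_pos h1]
      by_cases h2 : ν = 2
      · rw [if_pos (key.mpr ⟨h2, h1⟩), h2]; rfl
      · rw [if_neg (fun hc => h2 (key.mp hc).1)]
        simp [nx, h2]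
    · rw [if_neg h1, if_neg (fun hc => h1 (key.mp hc).2)]
      rfl

theorem inner (s : St) (hs : s ∈ L10) (n ν ι : ℕ) (hν : ν < 5) (hι : ι < 5)
    (ih : ∀ s ∈ L10, Res (Tot s n) (tv s (cls n))) :
    Res (∑ j ∈ range (n + 1), F s (5 * n + ν) (5 * j + ι))
      (if del s ν ι = 0 then coef s ν ι * tv (step s ν ι) (cls n) else 0) := by
  have hs33 := L10_sub s hs
  obtain ⟨hst, hd0⟩ := L33_closed s hs33 ν hν ι hι
  have hsp := fun j => split s n j ν ι hν
  choose w hw he using hsp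
  have hin := fun j => F_int n j _ hst
  choose r hr using hin
  have hsum : ∑ j ∈ range (n + 1), F s (5 * n + ν) (5 * j + ι)
      = ∑ j ∈ range (n + 1), (5 : ℚ) ^ (del s ν ι) * w j * F (step s ν ι) n j :=
    Finset.sum_congr rfl fun j _ => he j
  rw [hsum]
  by_cases hd : del s ν ι = 0
  · rw [if_pos hd]
    have h1 : Res (∑ j ∈ range (n + 1), (5 : ℚ) ^ (del s ν ι) * w j * F (step s ν ι) n j)
        (∑ j ∈ range (n + 1), coef s ν ι * r j) := by
      refine Res.sum _ _ _ fun j _ => ?_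
      have h2 := hw j
      rw [hd, zpow_zero, mul_one] at h2
      rw [hd, zpow_zero, one_mul]
      exact h2.mul (hr j)
    refine h1.congr ?_
    rw [← Finset.mul_sum]
    congr 1
    have h2 : Res (Tot (step s ν ι) n) (∑ j ∈ range (n + 1), r j) :=
      Res.sum _ _ _ fun j _ => hr j
    exact h2.unique (ih _ (L10_closed s hs ν hν ι hι hd))
  · rw [if_neg hd]
    have h1 : Res (∑ j ∈ range (n + 1), (5 : ℚ) ^ (del s ν ι) * w j * F (step s ν ι) n j)
        (∑ j ∈ range (n + 1), 0) := by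
      refine Res.sum _ _ _ fun j _ => ?_
      have h2 := res_five_zpow _ hd0
      rw [if_neg hd] at h2
      exact ((h2.mul (hw j)).mul (hr j)).congr (by ring)
    simpa using h1

theorem Tot_res (n : ℕ) : ∀ s ∈ L10, Res (Tot s n) (tv s (cls n)) := by
  induction n using Nat.strong_induction_on with
  | _ n ih =>
    intro s hs
    rcases Nat.eq_zero_or_pos n with h | h
    · subst h
      have h1 : cls 0 = 1 := by unfold cls; rw [if_pos rfl]
      have h2 : Tot s 0 = F s 0 0 := by unfold Tot; simp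
      rw [h1, h2]
      exact base10 s hs
    · have hν : n % 5 < 5 := Nat.mod_lt _ (by norm_num)
      have h1 := Tot_split s (L33_s6 s (L10_sub s hs)) (n / 5) (n % 5) hν
      have h2 : Res (∑ ι ∈ range 5, ∑ j ∈ range (n / 5 + 1), F s (5 * (n / 5) + n % 5) (5 * j + ι))
          (∑ ι ∈ range 5, (if del s (n % 5) ι = 0 then
            coef s (n % 5) ι * tv (step s (n % 5) ι) (cls (n / 5)) else 0)) := by
        refine Res.sum _ _ _ fun ι hι => ?_
        exact inner s hs (n / 5) (n % 5) ι hν (Finset.mem_range.mp hι) (ih (n / 5) (by omega))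
      rw [← h1, tv_rec s hs _ hν _ (cls_lt _), ← cls_rec _ _ hν (by omega), Nat.div_add_mod] at h2
      exact h2

theorem Q_res (n : ℕ) : ∀ s ∈ L3, Res (F s n 0) (qv s (cls n)) := by
  induction n using Nat.strong_induction_on with
  | _ n ih =>
    intro s hs
    rcases Nat.eq_zero_or_pos n with h | h
    · subst h
      have h1 : cls 0 = 1 := by unfold cls; rw [if_pos rfl]
      rw [h1]
      exact base3 s hs
    · have hν : n % 5 < 5 := Nat.mod_lt _ (by norm_num)
      obtain ⟨w, hw, he⟩ := split s (n / 5) 0 (n % 5) 0 hν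
      rw [Nat.div_add_mod, show 5 * 0 + 0 = 0 by norm_num] at he
      obtain ⟨h1, h2⟩ := L33_closed s (L3_sub s hs) _ hν 0 (by norm_num)
      rw [he]
      have h3 := qv_rec s hs _ hν _ (cls_lt (n / 5))
      rw [← cls_rec _ _ hν (by omega), Nat.div_add_mod] at h3
      rw [← h3]
      by_cases hd : del s (n % 5) 0 = 0
      · rw [if_pos hd]
        have h4 := ih (n / 5) (by omega) _ (L3_closed s hs _ hν hd)
        rw [hd, zpow_zero, mul_one] at hw
        rw [hd, zpow_zero, one_mul]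
        exact hw.mul h4
      · rw [if_neg hd]
        obtain ⟨c, hc⟩ := F_int (n / 5) 0 _ h1
        have h4 := res_five_zpow _ h2
        rw [if_neg hd] at h4
        exact ((h4.mul hw).mul hc).congr (by ring)

theorem five_a (n : ℕ) : 5 * a n = -(1 / 512) * (Tot ⟨0, 0, 1, 0, 0, 0⟩ n - F ⟨0, 0, 1, 0, 0, 0⟩ n 0) := by
  rw [a_eq]
  unfold Tot
  rw [Finset.sum_range_succ' _ n, add_sub_cancel_right]
  have : ∑ i ∈ range n, F0 n (i + 1) = ∑ i ∈ range n, F ⟨0, 0, 1, 0, 0, 0⟩ n (i + 1) :=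
    Finset.sum_congr rfl fun i _ => F0_eq n (i + 1)
  rw [this]
  ring

theorem res_c : Res (-(1 / 512)) 2 := by
  refine ⟨-1, 512, by norm_num, by decide, by decide⟩

theorem five_a_res (n : ℕ) (hn : 1 ≤ n) :
    ((¬ ∃ m : ℕ, 2 * n + 1 = 5 ^ m) → Res (5 * a n) 0) ∧
    ((∃ m : ℕ, 2 * n + 1 = 5 ^ m) → Res (5 * a n) 3) := by
  have h1 := Tot_res n ⟨0, 0, 1, 0, 0, 0⟩ (by decide)
  have h2 := Q_res n ⟨0, 0, 1, 0, 0, 0⟩ (by decide)
  rw [five_a]
  have h3 := res_c.mul (h1.sub h2)
  constructor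
  · intro h
    have : cls n = 0 := by unfold cls; rw [if_neg (by omega), if_neg h]
    rw [this] at h3
    exact h3.congr (by decide)
  · intro h
    have : cls n = 2 := by unfold cls; rw [if_neg (by omega), if_pos h]
    rw [this] at h3
    exact h3.congr (by decide)

theorem int_main (n : ℕ) (hn : 2 ≤ n) : ∃ z : ℤ, 5 * a n = z := by
  refine int_of_forall_mem fun p hp => ?_
  by_cases h5 : p = 5
  · subst h5
    have h := five_a_res n (by omega)
    by_cases hm : ∃ m : ℕ, 2 * n + 1 = 5 ^ m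
    · exact (h.2 hm).mem
    · exact (h.1 hm).mem
  · refine (Zp p).mul_mem (by exact_mod_cast natCast_mem_Zp 5) ?_
    by_cases h2 : p = 2
    · subst h2
      exact a_mem_two n hn
    · exact a_mem h2 h5 n

theorem main (n : ℕ) (hn : 2 ≤ n) :
    ((¬ ∃ m : ℕ, 2 * n + 1 = 5 ^ m) → ∃ z : ℤ, (-1) ^ (n - 1) * a n = z ∧ 0 < z) ∧
    ((∃ m : ℕ, 2 * n + 1 = 5 ^ m) → ∃ z : ℤ, 5 * a n = z ∧ ¬ (5 : ℤ) ∣ z) := by
  have h := five_a_res n (by omega)
  constructor
  · intro hm
    have hint : ∃ z : ℤ, a n = z := by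
      refine int_of_forall_mem fun p hp => ?_
      by_cases h5 : p = 5
      · subst h5
        have := (h.1 hm).div_five
        rwa [mul_div_cancel_left₀ _ five_ne] at this
      · by_cases h2 : p = 2
        · subst h2
          exact a_mem_two n hn
        · exact a_mem h2 h5 n
    obtain ⟨z, hz⟩ := hint
    have hpos := sign n (by omega)
    refine ⟨(-1) ^ (n - 1) * z, by rw [hz]; push_cast; ring, ?_⟩
    rw [hz] at hpos
    exact_mod_cast hpos
  · intro hm
    obtain ⟨z, hz⟩ := int_main n hn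
    refine ⟨z, hz, fun hd => ?_⟩
    have h1 := h.2 hm
    rw [hz] at h1
    have h2 := (Res.int z).unique h1
    have h3 := (ZMod.intCast_zmod_eq_zero_iff_dvd z 5).mpr hd
    rw [h3] at h2
    exact absurd h2 (by decide)

end Pool.Agent.R440.E154
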