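import Mathlib
import Pool.Agent.R440.WZ
import Pool.Agent.R440.Loc

/-!
# The normalised (6j+1) sums: WZ transformation and local integrality
-/

set_option autoImplicit false

namespace Pool.Agent.R440.E815A

open Finset Nat Pool.Agent.R440

/-- the summands of the transformed sum -/
noncomputable def T (n k : ℕ) : ℚ :=
  27 ^ k * (k ! : ℚ) * ((3 * n)! : ℚ) * cb ((n : ℤ) - 1 - k) * n * (3 * (n : ℚ) - 3 * k - 1) *
    rf ((n : ℤ) - 1 - 2 * k) / (6 * ((3 * k + 2)! : ℚ) * (n ! : ℚ) ^ 2)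

/-- the certificate -/
noncomputable def R (n k : ℕ) : ℚ :=
  - (27 ^ k * (k ! : ℚ) * ((3 * n)! : ℚ) * cb ((n : ℤ) - k) * rf ((n : ℤ) - 2 * k) /
    (((3 * k)! : ℚ) * (n ! : ℚ) ^ 2)) * (6 * (n : ℚ) + 1 - 6 * k)

theorem wz (n k : ℕ) : T (n + 1) k - 216 * T n k = R n (k + 1) - R n k := by
  unfold T R
  have e1 : cb (((n + 1 : ℕ) : ℤ) - 1 - k) = cb ((n : ℤ) - k) := by
    rw [show ((n + 1 : ℕ) : ℤ) - 1 - k = (n : ℤ) - k by push_cast; ring]
  have e2 : rf (((n + 1 : ℕ) : ℤ) - 1 - 2 * k) = rf ((n : ℤ) - 2 * k) := by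
    rw [show ((n + 1 : ℕ) : ℤ) - 1 - 2 * k = (n : ℤ) - 2 * k by push_cast; ring]
  have hne : (2 * (n : ℚ) - 2 * k - 1) ≠ 0 := by
    intro h
    have h2 : (2 * (n : ℤ) - 2 * k - 1) = 0 := by exact_mod_cast h
    omega
  obtain ⟨d, hd⟩ : ∃ d, d = 2 * (n : ℚ) - 2 * k - 1 := ⟨_, rfl⟩
  rw [← hd] at hne
  have e3 : cb ((n : ℤ) - 1 - k) = ((n : ℚ) - k) * cb ((n : ℤ) - k) / (2 * d) := by
    have h := cb_step ((n : ℤ) - 1 - k)
    rw [show (n : ℤ) - 1 - k + 1 = (n : ℤ) - k by ring] at h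
    push_cast at h
    rw [eq_div_iff (by positivity), hd]
    linarith
  have e4 : cb ((n : ℤ) - (k + 1 : ℕ)) = ((n : ℚ) - k) * cb ((n : ℤ) - k) / (2 * d) := by
    rw [← e3]
    rw [show (n : ℤ) - (k + 1 : ℕ) = (n : ℤ) - 1 - k by push_cast; ring]
  have e5 : rf ((n : ℤ) - 1 - 2 * k) = ((n : ℚ) - 2 * k) * rf ((n : ℤ) - 2 * k) := by
    rw [rf_step, show (n : ℤ) - 1 - 2 * k + 1 = (n : ℤ) - 2 * k by ring]; push_cast; ring
  have e6 : rf ((n : ℤ) - 2 * (k + 1 : ℕ)) = ((n : ℚ) - 2 * k - 1) * (((n : ℚ) - 2 * k) * rf ((n : ℤ) - 2 * k)) := by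
    rw [← e5, rf_step, show (n : ℤ) - 2 * (k + 1 : ℕ) + 1 = (n : ℤ) - 1 - 2 * k by push_cast; ring]
    push_cast; ring
  have f1 : ((3 * (n + 1))! : ℚ) = (3 * n + 3) * (3 * n + 2) * (3 * n + 1) * ((3 * n)! : ℚ) := by
    rw [show 3 * (n + 1) = 3 * n + 1 + 1 + 1 by ring, Nat.factorial_succ, Nat.factorial_succ,
      Nat.factorial_succ]
    push_cast; ring
  have f2 : ((n + 1)! : ℚ) = (n + 1) * (n ! : ℚ) := by
    rw [Nat.factorial_succ]; push_cast; ring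
  have f3 : ((3 * (k + 1))! : ℚ) = (3 * k + 3) * (3 * k + 2) * (3 * k + 1) * ((3 * k)! : ℚ) := by
    rw [show 3 * (k + 1) = 3 * k + 1 + 1 + 1 by ring, Nat.factorial_succ, Nat.factorial_succ,
      Nat.factorial_succ]
    push_cast; ring
  have f4 : ((k + 1)! : ℚ) = (k + 1) * (k ! : ℚ) := by
    rw [Nat.factorial_succ]; push_cast; ring
  have f5 : ((3 * k + 2)! : ℚ) = (3 * k + 2) * (3 * k + 1) * ((3 * k)! : ℚ) := by
    rw [Nat.factorial_succ, Nat.factorial_succ]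
    push_cast; ring
  rw [e1, e2, e3, e4, e5, e6, f1, f2, f3, f4, f5, pow_succ (27 : ℚ) k]
  have z1 : (n ! : ℚ) ≠ 0 := by positivity
  have z2 : ((3 * k)! : ℚ) ≠ 0 := by positivity
  have z3 : ((n : ℚ) + 1) ≠ 0 := by positivity
  have z4 : ((k : ℚ) + 1) ≠ 0 := by positivity
  have z5 : (3 * (k : ℚ) + 2) ≠ 0 := by positivity
  have z6 : (3 * (k : ℚ) + 1) ≠ 0 := by positivity
  have z7 : (3 * (k : ℚ) + 3) ≠ 0 := by positivity
  generalize cb ((n : ℤ) - k) = H1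
  generalize rf ((n : ℤ) - 2 * k) = H2
  generalize (k ! : ℚ) = H3
  generalize ((3 * n)! : ℚ) = H4
  push_cast
  field_simp
  rw [hd]
  ring

/-- the numbers `binom(2j,j)^2 binom(3j,j)` -/
noncomputable def M (j : ℕ) : ℚ := ((2 * j).choose j : ℚ) ^ 2 * ((3 * j).choose j : ℚ)

/-- the numbers `a_n` -/
noncomputable def a (n : ℕ) : ℚ :=
  (∑ j ∈ range n, (6 * (j : ℚ) + 1) * M j * 216 ^ (n - 1 - j)) /
    (n * (2 * n + 1) * ((2 * n).choose n : ℚ))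

theorem choose_three_mul (m : ℕ) :
    ((3 * m).choose m : ℚ) = ((3 * m)! : ℚ) / ((m ! : ℚ) * ((2 * m)! : ℚ)) := by
  rw [Nat.cast_choose ℚ (by omega : m ≤ 3 * m), show 3 * m - m = 2 * m by omega]

theorem R_zero (n : ℕ) : R n 0 = - ((6 * (n : ℚ) + 1) * M n) := by
  have h1 : rf ((n : ℤ) - 2 * (0 : ℕ)) = 1 / (n ! : ℚ) := by
    rw [← rf_nat n]; simp
  have h2 : cb ((n : ℤ) - (0 : ℕ)) = ((2 * n)! : ℚ) / ((n ! : ℚ) * (n ! : ℚ)) := by
    rw [← choose_two_mul, ← cb_nat n]; simp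
  unfold R M
  rw [h1, h2, choose_two_mul, choose_three_mul]
  have z2 : (n ! : ℚ) ≠ 0 := by positivity
  have z3 : ((2 * n)! : ℚ) ≠ 0 := by positivity
  simp only [Nat.cast_zero, mul_zero, pow_zero, Nat.factorial_zero, Nat.cast_one]
  field_simp
  ring

theorem R_top (n : ℕ) : R n (n + 1) = 0 := by
  unfold R
  rw [cb_neg (by push_cast; omega : (n : ℤ) - ((n + 1 : ℕ) : ℤ) < 0)]
  ring

theorem T_top (n : ℕ) : T n n = 0 := by
  unfold T
  rw [cb_neg (by omega : (n : ℤ) - 1 - n < 0)]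
  ring

/-- the terms, `n = 2k + m + 1` -/
noncomputable def t (k m : ℕ) : ℚ :=
  27 ^ k * (((k)! : ℚ) * ((6 * k + 3 * m + 3)! : ℚ) * ((2 * k + 2 * m)! : ℚ) *
    ((3 * k + 3 * m + 2 : ℕ) : ℚ) / (((3 * k + 2)! : ℚ) * (m ! : ℚ) * ((k + m)! : ℚ) *
      ((k + m)! : ℚ) * ((4 * k + 2 * m + 3)! : ℚ) * ((6 : ℕ) : ℚ)))

theorem norm_eq (n : ℕ) : ((n + 1 : ℕ) : ℚ) * (2 * ((n + 1 : ℕ) : ℚ) + 1) *
    ((2 * (n + 1)).choose (n + 1) : ℚ) = ((2 * n + 3)! : ℚ) / ((n ! : ℚ) * ((n + 1)! : ℚ)) := by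
  rw [choose_two_mul, show 2 * n + 3 = 2 * (n + 1) + 1 by ring, Nat.factorial_succ (2 * (n + 1)),
    Nat.factorial_succ n]
  have z1 : (n ! : ℚ) ≠ 0 := by positivity
  have z2 : ((n : ℚ) + 1) ≠ 0 := by positivity
  push_cast
  field_simp

theorem a_eq (n : ℕ) : a n = ∑ k ∈ range n, if 2 * k + 1 ≤ n then t k (n - 1 - 2 * k) else 0 := by
  have hS := wz_sum 216 (fun k => (6 * (k : ℚ) + 1) * M k) T R (fun n k _ => wz n k)
    R_zero R_top T_top n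
  unfold a
  rw [hS, Finset.sum_div]
  refine Finset.sum_congr rfl fun k hk => ?_
  have hk' := Finset.mem_range.mp hk
  by_cases h : 2 * k + 1 ≤ n
  · rw [if_pos h]
    obtain ⟨m, hm⟩ : ∃ m, n = 2 * k + m + 1 := ⟨n - 1 - 2 * k, by omega⟩
    subst hm
    rw [norm_eq]
    have h1 : cb (((2 * k + m + 1 : ℕ) : ℤ) - 1 - k) = ((2 * k + 2 * m)! : ℚ) / (((k + m)! : ℚ) * ((k + m)! : ℚ)) := by
      rw [show 2 * k + 2 * m = 2 * (k + m) by ring, ← choose_two_mul, ← cb_nat]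
      congr 1; push_cast; ring
    have h2 : rf (((2 * k + m + 1 : ℕ) : ℤ) - 1 - 2 * k) = 1 / (m ! : ℚ) := by
      rw [show ((2 * k + m + 1 : ℕ) : ℤ) - 1 - 2 * k = (m : ℤ) by push_cast; ring, rf_nat]
    have h3 : 2 * k + m + 1 - 1 - 2 * k = m := by omega
    unfold T t
    rw [h1, h2, h3, show 3 * (2 * k + m + 1) = 6 * k + 3 * m + 3 by ring,
      show 2 * (2 * k + m) + 3 = 4 * k + 2 * m + 3 by ring, Nat.factorial_succ (2 * k + m)]
    have z1 : (m ! : ℚ) ≠ 0 := by positivity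
    have z2 : ((2 * k + m)! : ℚ) ≠ 0 := by positivity
    have z3 : ((4 * k + 2 * m + 3)! : ℚ) ≠ 0 := by positivity
    have z4 : ((k + m)! : ℚ) ≠ 0 := by positivity
    have z5 : ((3 * k + 2)! : ℚ) ≠ 0 := by positivity
    have z6 : (2 * (k : ℚ) + m + 1) ≠ 0 := by positivity
    push_cast
    field_simp
    ring
  · rw [if_neg h]
    unfold T
    rw [rf_neg (by omega)]
    ring

/-- valuation count of the terms -/
def W (q k m : ℤ) : ℤ :=
  (k / q + (6 * k + 3 * m + 3) / q + (2 * k + 2 * m) / q +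
    ((3 * k + 3 * m + 2) / q - (3 * k + 3 * m + 1) / q)) -
    ((3 * k + 2) / q + m / q + (k + m) / q + (k + m) / q + (4 * k + 2 * m + 3) / q)

theorem W_nonneg (q k m : ℤ) (hq : 2 ≤ q) : 0 ≤ W q k m := by
  have h0 : q ≠ 0 := by omega
  have hq0 : 0 < q := by omega
  obtain ⟨b, y, hy0, hy1, rfl⟩ : ∃ b y : ℤ, 0 ≤ y ∧ y < q ∧ k = y + q * b :=
    ⟨k / q, k % q, Int.emod_nonneg _ h0, Int.emod_lt_of_pos _ hq0, (Int.emod_add_mul_ediv k q).symm⟩
  obtain ⟨c, u, hu0, hu1, rfl⟩ : ∃ c u : ℤ, 0 ≤ u ∧ u < q ∧ m = u + q * c :=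
    ⟨m / q, m % q, Int.emod_nonneg _ h0, Int.emod_lt_of_pos _ hq0, (Int.emod_add_mul_ediv m q).symm⟩
  unfold W
  rw [show 6 * (y + q * b) + 3 * (u + q * c) + 3 = (6 * y + 3 * u + 3) + q * (6 * b + 3 * c) by ring,
    show 2 * (y + q * b) + 2 * (u + q * c) = (2 * y + 2 * u) + q * (2 * b + 2 * c) by ring,
    show 3 * (y + q * b) + 3 * (u + q * c) + 2 = (3 * y + 3 * u + 2) + q * (3 * b + 3 * c) by ring,
    show 3 * (y + q * b) + 3 * (u + q * c) + 1 = (3 * y + 3 * u + 1) + q * (3 * b + 3 * c) by ring,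
    show 3 * (y + q * b) + 2 = (3 * y + 2) + q * (3 * b) by ring,
    show y + q * b + (u + q * c) = (y + u) + q * (b + c) by ring,
    show 4 * (y + q * b) + 2 * (u + q * c) + 3 = (4 * y + 2 * u + 3) + q * (4 * b + 2 * c) by ring]
  simp only [Int.add_mul_ediv_left _ _ h0]
  rw [Int.ediv_eq_zero_of_lt hu0 hu1, Int.ediv_eq_zero_of_lt hy0 hy1]
  obtain ⟨l1, u1, c1, d1⟩ := fl_spec (6 * y + 3 * u + 3) q 0 8 hq0 (by linarith) (by linarith)
  obtain ⟨l2, u2, c2, d2⟩ := fl_spec (2 * y + 2 * u) q 0 3 hq0 (by linarith) (by linarith)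
  obtain ⟨l3, u3, c3, d3⟩ := fl_spec (3 * y + 3 * u + 2) q 0 5 hq0 (by linarith) (by linarith)
  obtain ⟨l4, u4, c4, d4⟩ := fl_spec (3 * y + 3 * u + 1) q 0 5 hq0 (by linarith) (by linarith)
  obtain ⟨l5, u5, c5, d5⟩ := fl_spec (3 * y + 2) q 0 2 hq0 (by linarith) (by linarith)
  obtain ⟨l6, u6, c6, d6⟩ := fl_spec (y + u) q 0 1 hq0 (by linarith) (by linarith)
  obtain ⟨l7, u7, c7, d7⟩ := fl_spec (4 * y + 2 * u + 3) q 0 5 hq0 (by linarith) (by linarith)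
  generalize (6 * y + 3 * u + 3) / q = X1 at *
  generalize (2 * y + 2 * u) / q = X2 at *
  generalize (3 * y + 3 * u + 2) / q = X3 at *
  generalize (3 * y + 3 * u + 1) / q = X4 at *
  generalize (3 * y + 2) / q = X5 at *
  generalize (y + u) / q = X6 at *
  generalize (4 * y + 2 * u + 3) / q = X7 at *
  interval_cases X6 <;> interval_cases X2 <;> (try omega) <;> interval_cases X5 <;> (try omega) <;>
    interval_cases X7 <;> (try omega) <;> interval_cases X4 <;> (try omega) <;>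
    interval_cases X3 <;> (try omega) <;> interval_cases X1 <;> omega

end Pool.Agent.R440.E815A
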