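import Mathlib
import Pool.Agent.R440.E815A
import Pool.Agent.R440.V2

/-!
# The normalised (6j+1) sums: integrality
-/

set_option autoImplicit false

namespace Pool.Agent.R440.E815A

open Finset Nat Pool.Agent.R440

/-- the part of the terms without the power of `27` -/
noncomputable def x (k m : ℕ) : ℚ :=
  (((k)! : ℚ) * ((6 * k + 3 * m + 3)! : ℚ) * ((2 * k + 2 * m)! : ℚ) *
    ((3 * k + 3 * m + 2 : ℕ) : ℚ) / (((3 * k + 2)! : ℚ) * (m ! : ℚ) * ((k + m)! : ℚ) *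
      ((k + m)! : ℚ) * ((4 * k + 2 * m + 3)! : ℚ) * ((6 : ℕ) : ℚ)))

theorem t_eq (k m : ℕ) : t k m = 27 ^ k * x k m := rfl

theorem x_val {p : ℕ} [hp : Fact p.Prime] (k m : ℕ) :
    HasVal p (x k m) (fun i => W ((p : ℤ) ^ i) k m - ((6 : ℤ) / (p : ℤ) ^ i - 5 / (p : ℤ) ^ i)) := by
  unfold x
  refine ((((HasVal.fac k).mul (HasVal.fac (6 * k + 3 * m + 3))).mul (HasVal.fac (2 * k + 2 * m))).mul
    (val_nat (n := 3 * k + 3 * m + 2) (by omega))).div
    ((((((HasVal.fac (3 * k + 2)).mul (HasVal.fac m)).mul (HasVal.fac (k + m))).mul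
    (HasVal.fac (k + m))).mul (HasVal.fac (4 * k + 2 * m + 3))).mul
    (val_nat (n := 6) (by norm_num))) |>.congr fun i _ => ?_
  unfold W
  push_cast
  rw [show (3 * (k : ℤ) + 3 * m + 2 - 1) = 3 * k + 3 * m + 1 by ring]
  ring

theorem t_mem {p : ℕ} [hp : Fact p.Prime] (h2 : p ≠ 2) (h3 : p ≠ 3) (k m : ℕ) : t k m ∈ Zp p := by
  rw [t_eq]
  refine (Zp p).mul_mem ?_ ((x_val k m).mem fun l hl => ?_)
  · have : (27 : ℚ) ^ k = ((27 ^ k : ℕ) : ℚ) := by push_cast; ring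
    rw [this]; exact natCast_mem_Zp _
  · have h4 := W_nonneg ((p : ℤ) ^ l) k m (two_le_pow' hp.out hl)
    obtain ⟨h5, h6⟩ := five_le_pow hp.out h2 h3 hl
    rcases h5.eq_or_lt with h7 | h7
    · rw [← h7] at h4 ⊢
      norm_num
      exact h4
    · have h8 : (5 : ℤ) / (p : ℤ) ^ l = 0 := Int.ediv_eq_zero_of_lt (by norm_num) h7
      have h9 : (6 : ℤ) / (p : ℤ) ^ l = 0 := Int.ediv_eq_zero_of_lt (by norm_num) (by omega)
      rw [h8, h9]
      linarith

/-- integrality away from `2` and `3` -/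
theorem a_mem {p : ℕ} [hp : Fact p.Prime] (h2 : p ≠ 2) (h3 : p ≠ 3) (n : ℕ) : a n ∈ Zp p := by
  rw [a_eq n]
  refine (Zp p).sum_mem fun k _ => ?_
  split_ifs
  · exact t_mem h2 h3 _ _
  · exact (Zp p).zero_mem

local instance : Fact (Nat.Prime 2) := ⟨Nat.prime_two⟩
local instance : Fact (Nat.Prime 3) := ⟨Nat.prime_three⟩

/-- integrality at `2` -/
theorem a_mem_two (n : ℕ) (hn : 2 ≤ n) : a n ∈ Zp 2 := by
  obtain ⟨m, rfl⟩ : ∃ m, n = m + 1 := ⟨n - 1, by omega⟩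
  unfold a
  rw [Finset.sum_div]
  refine (Zp 2).sum_mem fun k hk => ?_
  have hk' := Finset.mem_range.mp hk
  rw [norm_eq, show m + 1 - 1 - k = m - k by omega]
  have z1 : (m ! : ℚ) ≠ 0 := by positivity
  have z2 : ((m + 1)! : ℚ) ≠ 0 := by positivity
  have z3 : ((2 * m + 3)! : ℚ) ≠ 0 := by positivity
  have z4 : (k ! : ℚ) ≠ 0 := by positivity
  have z5 : ((2 * k)! : ℚ) ≠ 0 := by positivity
  have z6 : (2 : ℚ) ^ (3 * (m - k)) ≠ 0 := by positivity
  have h1 : (6 * (k : ℚ) + 1) * M k * 216 ^ (m - k) /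
      (((2 * m + 3)! : ℚ) / ((m ! : ℚ) * ((m + 1)! : ℚ)))
      = (((6 * k + 1) * 27 ^ (m - k) * (3 * k).choose k : ℕ) : ℚ) *
        (2 ^ (3 * (m - k)) * ((2 * k)! : ℚ) ^ 2 * (m ! : ℚ) * ((m + 1)! : ℚ) /
          ((k ! : ℚ) ^ 4 * ((2 * m + 3)! : ℚ))) := by
    have h2 : (216 : ℚ) ^ (m - k) = 27 ^ (m - k) * 2 ^ (3 * (m - k)) := by
      rw [pow_mul, ← mul_pow]; norm_num
    unfold M
    rw [h2, choose_two_mul]
    push_cast
    field_simp
  rw [h1]
  refine (Zp 2).mul_mem (natCast_mem_Zp _) ?_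
  rw [mem_Zp_iff (by positivity), padicValRat.div (by positivity) (by positivity),
    padicValRat.mul (by positivity) z2, padicValRat.mul (by positivity) z1,
    padicValRat.mul z6 (by positivity), padicValRat.mul (by positivity) z3,
    padicValRat.pow, padicValRat.pow, padicValRat.pow,
    val_fac, val_fac, val_fac, val_fac, val_fac]
  have h2 : padicValRat 2 (2 : ℚ) = 1 := by
    have := padicValRat.self (p := 2) (by norm_num)
    exact_mod_cast this
  rw [h2, vf_even, show 2 * m + 3 = 2 * (m + 1) + 1 by ring, vf_odd]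
  have h3 := vf_mono (show k ≤ m by omega)
  push_cast
  have h5 : ((m - k : ℕ) : ℤ) = (m : ℤ) - k := by omega
  rw [h5]
  rcases Nat.eq_zero_or_pos k with h | h
  · subst h
    rw [vf_zero] at h3 ⊢
    push_cast
    omega
  · have h6 := vf_lt h.ne'
    have : (k : ℤ) ≤ m := by omega
    omega

theorem six_div (l : ℕ) (hl : 1 ≤ l) :
    (6 : ℤ) / ((3 : ℕ) : ℤ) ^ l - 5 / ((3 : ℕ) : ℤ) ^ l = if l = 1 then 1 else 0 := by
  by_cases h : l = 1
  · subst h; norm_num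
  · rw [if_neg h]
    have : 9 ≤ 3 ^ l := nine_le_pow (by omega)
    have h9 : (9 : ℤ) ≤ ((3 : ℕ) : ℤ) ^ l := by exact_mod_cast this
    rw [Int.ediv_eq_zero_of_lt (by norm_num) (by omega), Int.ediv_eq_zero_of_lt (by norm_num) (by omega)]
    norm_num

theorem val27 (k : ℕ) : padicValRat 3 ((27 : ℚ) ^ k) = 3 * k := by
  rw [show (27 : ℚ) ^ k = ((3 : ℕ) : ℚ) ^ (3 * k) by
      rw [pow_mul]; norm_num, padicValRat.pow, padicValRat.self (by norm_num)]
  push_cast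
  ring

theorem t_mem_three (k m : ℕ) (hk : 1 ≤ k) : t k m ∈ Zp 3 := by
  rw [t_eq, mul_comm]
  refine (x_val (p := 3) k m).mul_mem_of_le 1 (by positivity) ?_ fun l hl => ?_
  · rw [val27]; push_cast; omega
  · have h4 := W_nonneg (((3 : ℕ) : ℤ) ^ l) k m (two_le_pow' Nat.prime_three hl)
    rw [six_div l hl]
    by_cases h : l = 1
    · rw [if_pos h, if_pos (by omega)]; linarith
    · rw [if_neg h, if_neg (by omega)]; linarith

theorem W_zero_three (m : ℤ) (h : ¬ (3 : ℤ) ∣ 2 * m + 3) : 1 ≤ W 3 0 m := by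
  unfold W
  obtain ⟨c, hc⟩ : ∃ c, m = 3 * c + 1 ∨ m = 3 * c + 2 := ⟨m / 3, by omega⟩
  rcases hc with rfl | rfl
  · omega
  · omega

theorem W_zero_level (q m : ℤ) (h1 : m + 1 < q) (h2 : q ≤ 3 * m + 3) (hodd : q % 2 = 1)
    (h3 : q ≠ 2 * m + 1) (h4 : q ≠ 2 * m + 3) (h9 : 9 ≤ q) : 1 ≤ W q 0 m := by
  unfold W
  have hq0 : 0 < q := by omega
  simp only [mul_zero, zero_add]
  have e1 : (0 : ℤ) / q = 0 := Int.zero_ediv q
  have e2 : (2 : ℤ) / q = 0 := Int.ediv_eq_zero_of_lt (by norm_num) (by omega)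
  have e3 : m / q = 0 := Int.ediv_eq_zero_of_lt (by omega) (by omega)
  rw [e1, e2, e3]
  obtain ⟨l1, u1, c1, d1⟩ := fl_spec (3 * m + 3) q 0 3 hq0 (by linarith) (by linarith)
  obtain ⟨l2, u2, c2, d2⟩ := fl_spec (2 * m) q 0 2 hq0 (by linarith) (by linarith)
  obtain ⟨l3, u3, c3, d3⟩ := fl_spec (3 * m + 2) q 0 3 hq0 (by linarith) (by linarith)
  obtain ⟨l4, u4, c4, d4⟩ := fl_spec (3 * m + 1) q 0 3 hq0 (by linarith) (by linarith)
  obtain ⟨l5, u5, c5, d5⟩ := fl_spec (2 * m + 3) q 0 2 hq0 (by linarith) (by linarith)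
  generalize (3 * m + 3) / q = X1 at *
  generalize (2 * m) / q = X2 at *
  generalize (3 * m + 2) / q = X3 at *
  generalize (3 * m + 1) / q = X4 at *
  generalize (2 * m + 3) / q = X5 at *
  interval_cases X5 <;> interval_cases X2 <;> (try omega) <;> interval_cases X1 <;> (try omega) <;>
    interval_cases X4 <;> (try omega) <;> interval_cases X3 <;> omega

/-- the first term when `2n+1` is not a power of `3` -/
theorem t_zero_mem (m : ℕ) (hm : 1 ≤ m) (h : ¬ ∃ M : ℕ, 2 * m + 3 = 3 ^ M) : t 0 m ∈ Zp 3 := by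
  rw [t_eq, pow_zero, one_mul]
  by_cases hd : 3 ∣ 2 * m + 3
  · obtain ⟨L, hL⟩ : ∃ L, L = Nat.log 3 (3 * m + 3) := ⟨_, rfl⟩
    have h1 : 3 * m + 3 < 3 ^ (L + 1) := by
      rw [hL]; exact Nat.lt_pow_succ_log_self (by norm_num) _
    have h2 : 3 ^ L ≤ 3 * m + 3 := by
      rw [hL]; exact Nat.pow_log_le_self 3 (by omega)
    have hL2 : 2 ≤ L := by
      by_contra hc
      have hc' : L + 1 ≤ 2 := by omega
      have : 3 ^ (L + 1) ≤ 3 ^ 2 := Nat.pow_le_pow_right (by norm_num) hc'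
      omega
    refine (x_val (p := 3) 0 m).mem_of_bonus L (by omega) fun l hl => ?_
    have h4 := W_nonneg (((3 : ℕ) : ℤ) ^ l) ((0 : ℕ) : ℤ) m (two_le_pow' Nat.prime_three hl)
    rw [six_div l hl]
    by_cases h5 : l = L
    · subst h5
      rw [if_neg (by omega), if_pos rfl]
      have hodd := odd_three_pow l
      have h9 := nine_le_pow hL2
      have hne : 2 * m + 3 ≠ 3 ^ l := fun hc => h ⟨l, hc⟩
      have hq3 : 3 ∣ 3 ^ l := dvd_pow_self 3 (by omega)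
      rw [pow_succ] at h1
      have hqz : (((3 : ℕ) : ℤ) ^ l) = ((3 ^ l : ℕ) : ℤ) := by push_cast; rfl
      rw [hqz]
      have := W_zero_level ((3 ^ l : ℕ) : ℤ) m (by omega) (by omega) (by omega) (by omega)
        (by omega) (by omega)
      push_cast at this ⊢
      linarith
    · rw [if_neg h5]
      linarith
  · refine (x_val (p := 3) 0 m).mem fun l hl => ?_
    rw [six_div l hl]
    by_cases h5 : l = 1
    · subst h5
      rw [if_pos rfl]
      have := W_zero_three m (by exact_mod_cast hd)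
      push_cast
      linarith
    · rw [if_neg h5]
      have h4 := W_nonneg (((3 : ℕ) : ℤ) ^ l) ((0 : ℕ) : ℤ) m (two_le_pow' Nat.prime_three hl)
      linarith

/-- the first term when `2n+1` is a power of `3` -/
theorem t_zero_not_mem (m M : ℕ) (h : 2 * m + 3 = 3 ^ M) : t 0 m ∉ Zp 3 := by
  rw [t_eq, pow_zero, one_mul]
  refine (x_val (p := 3) 0 m).not_mem_of_loss fun l hl => ?_
  rw [six_div l hl]
  suffices hs : W (((3 : ℕ) : ℤ) ^ l) ((0 : ℕ) : ℤ) m ≤ 0 by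
    by_cases h5 : l = 1
    · rw [if_pos h5]; linarith
    · rw [if_neg h5]; linarith
  have hqz : (((3 : ℕ) : ℤ) ^ l) = ((3 ^ l : ℕ) : ℤ) := by push_cast; rfl
  rw [hqz]
  unfold W
  simp only [Nat.cast_zero, mul_zero, zero_add]
  rcases lt_or_ge M l with hlt | hge
  · -- `q > 2n+1`: all floors vanish
    have hq : 3 * 3 ^ M ≤ 3 ^ l := by
      calc 3 * 3 ^ M = 3 ^ (M + 1) := by rw [pow_succ]; ring
        _ ≤ 3 ^ l := Nat.pow_le_pow_right (by norm_num) (by omega)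
    generalize 3 ^ l = q at *
    rw [Int.ediv_eq_zero_of_lt (by omega : (0 : ℤ) ≤ 3 * (m : ℤ) + 3) (by omega),
      Int.ediv_eq_zero_of_lt (by omega : (0 : ℤ) ≤ 2 * (m : ℤ)) (by omega),
      Int.ediv_eq_zero_of_lt (by omega : (0 : ℤ) ≤ 3 * (m : ℤ) + 2) (by omega),
      Int.ediv_eq_zero_of_lt (by omega : (0 : ℤ) ≤ 3 * (m : ℤ) + 1) (by omega),
      Int.ediv_eq_zero_of_lt (by omega : (0 : ℤ) ≤ 2) (by omega),
      Int.ediv_eq_zero_of_lt (by omega : (0 : ℤ) ≤ (m : ℤ)) (by omega),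
      Int.ediv_eq_zero_of_lt (by omega : (0 : ℤ) ≤ 2 * (m : ℤ) + 3) (by omega), Int.zero_ediv]
    norm_num
  · -- `q ∣ 2n+1`
    obtain ⟨j, rfl⟩ : ∃ j, M = l + j := ⟨M - l, by omega⟩
    have hq3 := three_le_pow hl
    have hq9 : l ≠ 1 → 9 ≤ 3 ^ l := fun hne => nine_le_pow (by omega)
    have hql : l = 1 → 3 ^ l = 3 := by
      rintro rfl; norm_num
    have hqo := odd_three_pow l
    obtain ⟨κ, hκ⟩ : ∃ κ, 3 ^ j = 2 * κ + 1 := ⟨3 ^ j / 2, by have := odd_three_pow j; omega⟩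
    rw [pow_add, hκ] at h
    generalize 3 ^ l = q at *
    obtain ⟨r, rfl⟩ : ∃ r, q = 2 * r + 3 := ⟨(q - 3) / 2, by omega⟩
    have hm : m = r + (2 * r + 3) * κ := by nlinarith
    subst hm
    have h0 : ((2 * r + 3 : ℕ) : ℤ) ≠ 0 := by positivity
    push_cast at h0 ⊢
    rw [show 3 * ((r : ℤ) + (2 * r + 3) * κ) + 3 = (3 * r + 3) + (2 * r + 3) * (3 * κ) by ring,
      show 3 * ((r : ℤ) + (2 * r + 3) * κ) + 2 = (3 * r + 2) + (2 * r + 3) * (3 * κ) by ring,
      show 3 * ((r : ℤ) + (2 * r + 3) * κ) + 1 = (3 * r + 1) + (2 * r + 3) * (3 * κ) by ring,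
      show 2 * ((r : ℤ) + (2 * r + 3) * κ) + 3 = 0 + (2 * r + 3) * (2 * κ + 1) by ring,
      show 2 * ((r : ℤ) + (2 * r + 3) * κ) = (2 * r) + (2 * r + 3) * (2 * κ) by ring]
    simp only [Int.add_mul_ediv_left _ _ h0]
    have e1 : (3 * (r : ℤ) + 3) / (2 * r + 3) = 1 := by
      rw [show 3 * (r : ℤ) + 3 = r + (2 * r + 3) * 1 by ring,
        Int.add_mul_ediv_left _ _ h0, Int.ediv_eq_zero_of_lt (by omega) (by omega)]
      norm_num
    rw [e1, Int.ediv_eq_zero_of_lt (by omega : (0 : ℤ) ≤ 2 * (r : ℤ)) (by omega),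
      Int.ediv_eq_zero_of_lt (by omega : (0 : ℤ) ≤ (r : ℤ)) (by omega),
      Int.ediv_eq_zero_of_lt (by omega : (0 : ℤ) ≤ (0 : ℤ)) (by omega),
      Int.ediv_eq_zero_of_lt (by omega : (0 : ℤ) ≤ (2 : ℤ)) (by omega)]
    by_cases hl1 : l = 1
    · have := hql hl1
      have hr : r = 0 := by omega
      subst hr
      norm_num
      try linarith
    · have h9 := hq9 hl1
      have h4 : (3 * (r : ℤ) + 2) / (2 * r + 3) = 1 := by
        rw [show 3 * (r : ℤ) + 2 = (r - 1) + (2 * r + 3) * 1 by ring,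
          Int.add_mul_ediv_left _ _ h0, Int.ediv_eq_zero_of_lt (by omega) (by omega)]
        norm_num
      have h5 : (3 * (r : ℤ) + 1) / (2 * r + 3) = 1 := by
        rw [show 3 * (r : ℤ) + 1 = (r - 2) + (2 * r + 3) * 1 by ring,
          Int.add_mul_ediv_left _ _ h0, Int.ediv_eq_zero_of_lt (by omega) (by omega)]
        norm_num
      rw [h4, h5]
      linarith

theorem three_t_zero_mem (m : ℕ) : 3 * t 0 m ∈ Zp 3 := by
  rw [t_eq, pow_zero, one_mul, mul_comm]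
  refine (x_val (p := 3) 0 m).mul_mem_of_le 1 (by norm_num) ?_ fun l hl => ?_
  · have : padicValRat 3 (3 : ℚ) = 1 := by
      have := padicValRat.self (p := 3) (by norm_num)
      exact_mod_cast this
    rw [this]; norm_num
  · have h4 := W_nonneg (((3 : ℕ) : ℤ) ^ l) ((0 : ℕ) : ℤ) m (two_le_pow' Nat.prime_three hl)
    rw [six_div l hl]
    by_cases h : l = 1
    · rw [if_pos h, if_pos (by omega)]; linarith
    · rw [if_neg h, if_neg (by omega)]; linarith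

/-- generic deduction at `3` -/
theorem main_three (u s : ℚ) (hs : s ∈ Zp 3)
    (hother : ∀ (p : ℕ) [Fact p.Prime], p ≠ 3 → u + s ∈ Zp p) :
    (u ∈ Zp 3 → ∃ z : ℤ, u + s = z) ∧
    (u ∉ Zp 3 → 3 * u ∈ Zp 3 → ∃ z : ℤ, 3 * (u + s) = z ∧ ¬ (3 : ℤ) ∣ z) := by
  constructor
  · intro hu
    refine int_of_forall_mem fun p hp => ?_
    by_cases hp3 : p = 3
    · subst hp3
      exact (Zp 3).add_mem hu hs
    · exact hother p hp3
  · intro hu h3u
    have hnot : u + s ∉ Zp 3 := by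
      intro hc
      apply hu
      have : u = (u + s) - s := by ring
      rw [this]
      exact (Zp 3).sub_mem hc hs
    have hint : ∃ z : ℤ, 3 * (u + s) = z := by
      refine int_of_forall_mem fun p hp => ?_
      by_cases hp3 : p = 3
      · subst hp3
        rw [mul_add]
        exact (Zp 3).add_mem h3u ((Zp 3).mul_mem (by exact_mod_cast natCast_mem_Zp 3) hs)
      · exact (Zp p).mul_mem (by exact_mod_cast natCast_mem_Zp 3) (hother p hp3)
    obtain ⟨z, hz⟩ := hint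
    exact ⟨z, hz, by exact_mod_cast not_dvd_of_not_mem hnot (by exact_mod_cast hz)⟩

theorem main (n : ℕ) (hn : 2 ≤ n) :
    ((¬ ∃ M : ℕ, 2 * n + 1 = 3 ^ M) → ∃ z : ℤ, a n = z) ∧
    ((∃ M : ℕ, 2 * n + 1 = 3 ^ M) → ∃ z : ℤ, 3 * a n = z ∧ ¬ (3 : ℤ) ∣ z) := by
  obtain ⟨m, rfl⟩ : ∃ m, n = m + 1 := ⟨n - 1, by omega⟩
  have hsum : a (m + 1) = t 0 m + ∑ k ∈ range m,
      (if 2 * (k + 1) + 1 ≤ m + 1 then t (k + 1) (m + 1 - 1 - 2 * (k + 1)) else 0) := by
    rw [a_eq (m + 1), Finset.sum_range_succ']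
    rw [add_comm]
    congr 1
  have htail : ∑ k ∈ range m,
      (if 2 * (k + 1) + 1 ≤ m + 1 then t (k + 1) (m + 1 - 1 - 2 * (k + 1)) else 0) ∈ Zp 3 := by
    refine (Zp 3).sum_mem fun k _ => ?_
    split_ifs
    · exact t_mem_three _ _ (by omega)
    · exact (Zp 3).zero_mem
  have hother : ∀ (p : ℕ) [hp : Fact p.Prime], p ≠ 3 → t 0 m + ∑ k ∈ range m,
      (if 2 * (k + 1) + 1 ≤ m + 1 then t (k + 1) (m + 1 - 1 - 2 * (k + 1)) else 0) ∈ Zp p := by
    intro p hp hne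
    rw [← hsum]
    by_cases h2 : p = 2
    · subst h2
      exact a_mem_two _ hn
    · exact a_mem h2 hne _
  have key := main_three _ _ htail hother
  rw [hsum]
  constructor
  · intro h
    refine key.1 (t_zero_mem m (by omega) ?_)
    rintro ⟨M, hM⟩
    exact h ⟨M, by rw [← hM]; ring⟩
  · rintro ⟨M, hM⟩
    exact key.2 (t_zero_not_mem m M (by rw [← hM]; ring)) (three_t_zero_mem m)

end Pool.Agent.R440.E815A
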