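import Mathlib
import Pool.Agent.R440.WZ
import Pool.Agent.R440.Loc
import Pool.Agent.R440.V2

/-!
# The normalised (8j+1) sums: two WZ transformations
-/

set_option autoImplicit false

namespace Pool.Agent.R440.E815B

open Finset Nat Pool.Agent.R440

/-- the multinomial coefficient `(4j)!/(j!)^4` -/
noncomputable def M (k : ℕ) : ℚ := ((4 * k)! : ℚ) / (k ! : ℚ) ^ 4

/-- the numbers `b_n` -/
noncomputable def b (n : ℕ) : ℚ :=
  (∑ j ∈ range n, (8 * (j : ℚ) + 1) * M j * 2304 ^ (n - 1 - j)) /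
    (2 * n * (2 * n + 1) * ((2 * n).choose n : ℚ))

theorem norm_eq (n : ℕ) : 2 * ((n + 1 : ℕ) : ℚ) * (2 * ((n + 1 : ℕ) : ℚ) + 1) *
    ((2 * (n + 1)).choose (n + 1) : ℚ) = 2 * ((2 * n + 3)! : ℚ) / ((n ! : ℚ) * ((n + 1)! : ℚ)) := by
  rw [choose_two_mul, show 2 * n + 3 = 2 * (n + 1) + 1 by ring, Nat.factorial_succ (2 * (n + 1)),
    Nat.factorial_succ n]
  have z1 : (n ! : ℚ) ≠ 0 := by positivity
  have z2 : ((n : ℚ) + 1) ≠ 0 := by positivity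
  push_cast
  field_simp

/-- first transformation: the summands -/
noncomputable def T1 (n k : ℕ) : ℚ :=
  16 ^ k * (n : ℚ) ^ 2 * ((4 * n + 2 * k)! : ℚ) * cb ((n : ℤ) - 1 - k) * (k ! : ℚ) /
    (12 * 3 ^ k * ((2 * n + k)! : ℚ) * ((2 * k + 1)! : ℚ) * (n ! : ℚ) ^ 2)

/-- first transformation: the certificate -/
noncomputable def R1 (n k : ℕ) : ℚ :=
  - (16 ^ k * ((4 * n + 2 * k)! : ℚ) * cb ((n : ℤ) - k) * (k ! : ℚ) /
    (3 ^ k * ((2 * n + k)! : ℚ) * ((2 * k)! : ℚ) * (n ! : ℚ) ^ 2)) * (8 * (n : ℚ) + 1 - 2 * k)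

theorem wz1 (n k : ℕ) : T1 (n + 1) k - 2304 * T1 n k = R1 n (k + 1) - R1 n k := by
  unfold T1 R1
  have e1 : cb (((n + 1 : ℕ) : ℤ) - 1 - k) = cb ((n : ℤ) - k) := by
    rw [show ((n + 1 : ℕ) : ℤ) - 1 - k = (n : ℤ) - k by push_cast; ring]
  have hne : (2 * (n : ℚ) - 2 * k - 1) ≠ 0 := by
    intro h
    have h2 : (2 * (n : ℤ) - 2 * k - 1) = 0 := by exact_mod_cast h
    omega
  obtain ⟨d, hd⟩ : ∃ d, d = 2 * (n : ℚ) - 2 * k - 1 := ⟨_, rfl⟩
  rw [← hd] at hne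
  have e3 : cb ((n : ℤ) - 1 - k) = ((n : ℚ) - k) * cb ((n : ℤ) - k) / (2 * d) := by
    have h := cb_step ((n : ℤ) - 1 - k)
    rw [show (n : ℤ) - 1 - k + 1 = (n : ℤ) - k by ring] at h
    push_cast at h
    rw [eq_div_iff (by positivity), hd]
    linarith
  have e4 : cb ((n : ℤ) - (k + 1 : ℕ)) = ((n : ℚ) - k) * cb ((n : ℤ) - k) / (2 * d) := by
    rw [← e3]
    rw [show (n : ℤ) - (k + 1 : ℕ) = (n : ℤ) - 1 - k by push_cast; ring]
  have f1 : ((4 * (n + 1) + 2 * k)! : ℚ) = (4 * n + 2 * k + 4) * (4 * n + 2 * k + 3) *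
      (4 * n + 2 * k + 2) * (4 * n + 2 * k + 1) * ((4 * n + 2 * k)! : ℚ) := by
    rw [show 4 * (n + 1) + 2 * k = 4 * n + 2 * k + 1 + 1 + 1 + 1 by ring, Nat.factorial_succ,
      Nat.factorial_succ, Nat.factorial_succ, Nat.factorial_succ]
    push_cast; ring
  have f2 : ((n + 1)! : ℚ) = (n + 1) * (n ! : ℚ) := by
    rw [Nat.factorial_succ]; push_cast; ring
  have f3 : ((2 * (n + 1) + k)! : ℚ) = (2 * n + k + 2) * (2 * n + k + 1) * ((2 * n + k)! : ℚ) := by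
    rw [show 2 * (n + 1) + k = 2 * n + k + 1 + 1 by ring, Nat.factorial_succ, Nat.factorial_succ]
    push_cast; ring
  have f4 : ((k + 1)! : ℚ) = (k + 1) * (k ! : ℚ) := by
    rw [Nat.factorial_succ]; push_cast; ring
  have f5 : ((4 * n + 2 * (k + 1))! : ℚ) =
      (4 * n + 2 * k + 2) * (4 * n + 2 * k + 1) * ((4 * n + 2 * k)! : ℚ) := by
    rw [show 4 * n + 2 * (k + 1) = 4 * n + 2 * k + 1 + 1 by ring, Nat.factorial_succ,
      Nat.factorial_succ]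
    push_cast; ring
  have f6 : ((2 * n + (k + 1))! : ℚ) = (2 * n + k + 1) * ((2 * n + k)! : ℚ) := by
    rw [show 2 * n + (k + 1) = 2 * n + k + 1 by ring, Nat.factorial_succ]
    push_cast; ring
  have f7 : ((2 * k + 1)! : ℚ) = (2 * k + 1) * ((2 * k)! : ℚ) := by
    rw [Nat.factorial_succ]; push_cast; ring
  have f8 : ((2 * (k + 1))! : ℚ) = (2 * k + 2) * (2 * k + 1) * ((2 * k)! : ℚ) := by
    rw [show 2 * (k + 1) = 2 * k + 1 + 1 by ring, Nat.factorial_succ, Nat.factorial_succ]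
    push_cast; ring
  rw [e1, e3, e4, f1, f2, f3, f4, f5, f6, f7, f8, pow_succ (16 : ℚ) k, pow_succ (3 : ℚ) k]
  have z1 : (n ! : ℚ) ≠ 0 := by positivity
  have z2 : ((2 * k)! : ℚ) ≠ 0 := by positivity
  have z3 : ((n : ℚ) + 1) ≠ 0 := by positivity
  have z4 : (2 * (k : ℚ) + 1) ≠ 0 := by positivity
  have z5 : (2 * (k : ℚ) + 2) ≠ 0 := by positivity
  have z6 : (2 * (n : ℚ) + k + 1) ≠ 0 := by positivity
  have z7 : (2 * (n : ℚ) + k + 2) ≠ 0 := by positivity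
  have z8 : ((2 * n + k)! : ℚ) ≠ 0 := by positivity
  generalize cb ((n : ℤ) - k) = H1
  generalize (k ! : ℚ) = H3
  generalize ((4 * n + 2 * k)! : ℚ) = H4
  push_cast
  field_simp
  rw [hd]
  ring

theorem R1_zero (n : ℕ) : R1 n 0 = - ((8 * (n : ℚ) + 1) * M n) := by
  have h2 : cb ((n : ℤ) - (0 : ℕ)) = ((2 * n)! : ℚ) / ((n ! : ℚ) * (n ! : ℚ)) := by
    rw [← choose_two_mul, ← cb_nat n]; simp
  unfold R1 M
  rw [h2]
  have z2 : (n ! : ℚ) ≠ 0 := by positivity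
  have z3 : ((2 * n)! : ℚ) ≠ 0 := by positivity
  simp only [Nat.cast_zero, mul_zero, add_zero, pow_zero, Nat.factorial_zero, Nat.cast_one]
  field_simp
  ring

theorem R1_top (n : ℕ) : R1 n (n + 1) = 0 := by
  unfold R1
  rw [cb_neg (by push_cast; omega : (n : ℤ) - ((n + 1 : ℕ) : ℤ) < 0)]
  ring

theorem T1_top (n : ℕ) : T1 n n = 0 := by
  unfold T1
  rw [cb_neg (by omega : (n : ℤ) - 1 - n < 0)]
  ring

/-- the essential part of the terms of the first transformation, `n = k + m + 1` -/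
noncomputable def x1 (k m : ℕ) : ℚ :=
  (((k + m + 1 : ℕ) : ℚ) * ((6 * k + 4 * m + 4)! : ℚ) * ((2 * m)! : ℚ) * (k ! : ℚ)) /
    ((m ! : ℚ) * (m ! : ℚ) * ((3 * k + 2 * m + 2)! : ℚ) * ((2 * k + 1)! : ℚ) *
      ((2 * k + 2 * m + 3)! : ℚ))

theorem b_eq1 (n : ℕ) : b n = ∑ k ∈ range n,
    ((16 ^ k : ℕ) : ℚ) * (1 / ((24 * 3 ^ k : ℕ) : ℚ)) * x1 k (n - 1 - k) := by
  have hS := wz_sum 2304 (fun k => (8 * (k : ℚ) + 1) * M k) T1 R1 (fun n k _ => wz1 n k)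
    R1_zero R1_top T1_top n
  unfold b
  rw [hS, Finset.sum_div]
  refine Finset.sum_congr rfl fun k hk => ?_
  have hk' := Finset.mem_range.mp hk
  obtain ⟨m, hm⟩ : ∃ m, n = k + m + 1 := ⟨n - 1 - k, by omega⟩
  subst hm
  rw [norm_eq]
  have h1 : cb (((k + m + 1 : ℕ) : ℤ) - 1 - k) = ((2 * m)! : ℚ) / ((m ! : ℚ) * (m ! : ℚ)) := by
    rw [← choose_two_mul, ← cb_nat]
    congr 1; push_cast; ring
  have h3 : k + m + 1 - 1 - k = m := by omega
  unfold T1 x1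
  rw [h1, h3, show 4 * (k + m + 1) + 2 * k = 6 * k + 4 * m + 4 by ring,
    show 2 * (k + m + 1) + k = 3 * k + 2 * m + 2 by ring,
    show 2 * (k + m) + 3 = 2 * k + 2 * m + 3 by ring, Nat.factorial_succ (k + m)]
  have z1 : (m ! : ℚ) ≠ 0 := by positivity
  have z2 : ((k + m)! : ℚ) ≠ 0 := by positivity
  have z3 : ((2 * k + 2 * m + 3)! : ℚ) ≠ 0 := by positivity
  have z4 : ((3 * k + 2 * m + 2)! : ℚ) ≠ 0 := by positivity
  have z5 : ((2 * k + 1)! : ℚ) ≠ 0 := by positivity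
  have z6 : ((k : ℚ) + m + 1) ≠ 0 := by positivity
  push_cast
  field_simp
  ring

/-- valuation count -/
def W1 (q k m : ℤ) : ℤ :=
  (((k + m + 1) / q - (k + m) / q) + (6 * k + 4 * m + 4) / q + (2 * m) / q + k / q) -
    (m / q + m / q + (3 * k + 2 * m + 2) / q + (2 * k + 1) / q + (2 * k + 2 * m + 3) / q)

theorem W1_nonneg (q k m : ℤ) (hq : 4 ≤ q) : 0 ≤ W1 q k m := by
  have h0 : q ≠ 0 := by omega
  have hq0 : 0 < q := by omega
  obtain ⟨b, y, hy0, hy1, rfl⟩ : ∃ b y : ℤ, 0 ≤ y ∧ y < q ∧ k = y + q * b :=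
    ⟨k / q, k % q, Int.emod_nonneg _ h0, Int.emod_lt_of_pos _ hq0, (Int.emod_add_mul_ediv k q).symm⟩
  obtain ⟨c, u, hu0, hu1, rfl⟩ : ∃ c u : ℤ, 0 ≤ u ∧ u < q ∧ m = u + q * c :=
    ⟨m / q, m % q, Int.emod_nonneg _ h0, Int.emod_lt_of_pos _ hq0, (Int.emod_add_mul_ediv m q).symm⟩
  unfold W1
  rw [show y + q * b + (u + q * c) + 1 = (y + u + 1) + q * (b + c) by ring,
    show y + q * b + (u + q * c) = (y + u) + q * (b + c) by ring,
    show 6 * (y + q * b) + 4 * (u + q * c) + 4 = (6 * y + 4 * u + 4) + q * (6 * b + 4 * c) by ring,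
    show 3 * (y + q * b) + 2 * (u + q * c) + 2 = (3 * y + 2 * u + 2) + q * (3 * b + 2 * c) by ring,
    show 2 * (y + q * b) + 2 * (u + q * c) + 3 = (2 * y + 2 * u + 3) + q * (2 * b + 2 * c) by ring,
    show 2 * (u + q * c) = 2 * u + q * (2 * c) by ring,
    show 2 * (y + q * b) + 1 = (2 * y + 1) + q * (2 * b) by ring]
  simp only [Int.add_mul_ediv_left _ _ h0]
  rw [Int.ediv_eq_zero_of_lt hu0 hu1, Int.ediv_eq_zero_of_lt hy0 hy1]
  obtain ⟨l1, u1, c1, d1⟩ := fl_spec (y + u + 1) q 0 1 hq0 (by linarith) (by linarith)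
  obtain ⟨l2, u2, c2, d2⟩ := fl_spec (y + u) q 0 1 hq0 (by linarith) (by linarith)
  obtain ⟨l3, u3, c3, d3⟩ := fl_spec (6 * y + 4 * u + 4) q 0 9 hq0 (by linarith) (by linarith)
  obtain ⟨l4, u4, c4, d4⟩ := fl_spec (3 * y + 2 * u + 2) q 0 4 hq0 (by linarith) (by linarith)
  obtain ⟨l5, u5, c5, d5⟩ := fl_spec (2 * y + 2 * u + 3) q 0 3 hq0 (by linarith) (by linarith)
  obtain ⟨l6, u6, c6, d6⟩ := fl_spec (2 * u) q 0 1 hq0 (by linarith) (by linarith)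
  obtain ⟨l7, u7, c7, d7⟩ := fl_spec (2 * y + 1) q 0 1 hq0 (by linarith) (by linarith)
  generalize (y + u + 1) / q = X1 at *
  generalize (y + u) / q = X2 at *
  generalize (6 * y + 4 * u + 4) / q = X3 at *
  generalize (3 * y + 2 * u + 2) / q = X4 at *
  generalize (2 * y + 2 * u + 3) / q = X5 at *
  generalize (2 * u) / q = X6 at *
  generalize (2 * y + 1) / q = X7 at *
  interval_cases X6 <;> interval_cases X7 <;> interval_cases X2 <;> (try omega) <;>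
    interval_cases X1 <;> (try omega) <;> interval_cases X5 <;> (try omega) <;>
    interval_cases X4 <;> (try omega) <;> interval_cases X3 <;> omega

theorem x1_val {p : ℕ} [hp : Fact p.Prime] (k m : ℕ) :
    HasVal p (x1 k m) (fun i => W1 ((p : ℤ) ^ i) k m) := by
  unfold x1
  refine ((((val_nat (n := k + m + 1) (by omega)).mul (HasVal.fac (6 * k + 4 * m + 4))).mul
    (HasVal.fac (2 * m))).mul (HasVal.fac k)).div
    (((((HasVal.fac m).mul (HasVal.fac m)).mul (HasVal.fac (3 * k + 2 * m + 2))).mul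
    (HasVal.fac (2 * k + 1))).mul (HasVal.fac (2 * k + 2 * m + 3))) |>.congr fun i _ => ?_
  unfold W1
  push_cast
  rw [show (k : ℤ) + m + 1 - 1 = k + m by ring]

/-- integrality away from `2` and `3` -/
theorem b_mem {p : ℕ} [hp : Fact p.Prime] (h2 : p ≠ 2) (h3 : p ≠ 3) (n : ℕ) : b n ∈ Zp p := by
  rw [b_eq1 n]
  refine (Zp p).sum_mem fun k _ => ?_
  refine (Zp p).mul_mem ((Zp p).mul_mem (natCast_mem_Zp _) (inv_nat_mem_Zp ?_))
    ((x1_val k _).mem fun l hl => ?_)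
  · intro hd
    rcases (hp.out.dvd_mul).mp hd with h | h
    · have h' : p ∣ 2 ^ 3 * 3 := by simpa using h
      rcases (hp.out.dvd_mul).mp h' with h4 | h4
      · exact h2 ((Nat.prime_dvd_prime_iff_eq hp.out Nat.prime_two).mp (hp.out.dvd_of_dvd_pow h4))
      · exact h3 ((Nat.prime_dvd_prime_iff_eq hp.out Nat.prime_three).mp h4)
    · exact h3 ((Nat.prime_dvd_prime_iff_eq hp.out Nat.prime_three).mp (hp.out.dvd_of_dvd_pow h))
  · have := (five_le_pow hp.out h2 h3 hl).1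
    exact W1_nonneg _ _ _ (by linarith)

local instance : Fact (Nat.Prime 2) := ⟨Nat.prime_two⟩

/-- integrality at `2` -/
theorem b_mem_two (n : ℕ) (hn : 2 ≤ n) : b n ∈ Zp 2 := by
  obtain ⟨m, rfl⟩ : ∃ m, n = m + 1 := ⟨n - 1, by omega⟩
  unfold b
  rw [Finset.sum_div]
  refine (Zp 2).sum_mem fun k hk => ?_
  have hk' := Finset.mem_range.mp hk
  rw [norm_eq, show m + 1 - 1 - k = m - k by omega]
  have z1 : (m ! : ℚ) ≠ 0 := by positivity
  have z2 : ((m + 1)! : ℚ) ≠ 0 := by positivity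
  have z3 : ((2 * m + 3)! : ℚ) ≠ 0 := by positivity
  have z4 : (k ! : ℚ) ≠ 0 := by positivity
  have z5 : ((4 * k)! : ℚ) ≠ 0 := by positivity
  have z6 : (2 : ℚ) ^ (8 * (m - k)) ≠ 0 := by positivity
  have h1 : (8 * (k : ℚ) + 1) * M k * 2304 ^ (m - k) /
      (2 * ((2 * m + 3)! : ℚ) / ((m ! : ℚ) * ((m + 1)! : ℚ)))
      = (((8 * k + 1) * 9 ^ (m - k) : ℕ) : ℚ) *
        (2 ^ (8 * (m - k)) * ((4 * k)! : ℚ) * (m ! : ℚ) * ((m + 1)! : ℚ) /
          ((k ! : ℚ) ^ 4 * 2 * ((2 * m + 3)! : ℚ))) := by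
    have h2 : (2304 : ℚ) ^ (m - k) = 9 ^ (m - k) * 2 ^ (8 * (m - k)) := by
      rw [pow_mul, ← mul_pow]; norm_num
    unfold M
    rw [h2]
    push_cast
    field_simp
  rw [h1]
  refine (Zp 2).mul_mem (natCast_mem_Zp _) ?_
  rw [mem_Zp_iff (by positivity), padicValRat.div (by positivity) (by positivity),
    padicValRat.mul (by positivity) z2, padicValRat.mul (by positivity) z1,
    padicValRat.mul z6 z5, padicValRat.mul (by positivity) z3,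
    padicValRat.mul (by positivity) (by norm_num), padicValRat.pow, padicValRat.pow,
    val_fac, val_fac, val_fac, val_fac, val_fac]
  have h2 : padicValRat 2 (2 : ℚ) = 1 := by
    have := padicValRat.self (p := 2) (by norm_num)
    exact_mod_cast this
  rw [h2, show 4 * k = 2 * (2 * k) by ring, vf_even, vf_even,
    show 2 * m + 3 = 2 * (m + 1) + 1 by ring, vf_odd]
  have h3 := vf_mono (show k ≤ m by omega)
  push_cast
  have h5 : ((m - k : ℕ) : ℤ) = (m : ℤ) - k := by omega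
  rw [h5]
  rcases Nat.eq_zero_or_pos k with h | h
  · subst h
    rw [vf_zero] at h3 ⊢
    push_cast
    omega
  · have h6 := vf_lt h.ne'
    have : (k : ℤ) ≤ m := by omega
    omega

/-- second transformation: the summands -/
noncomputable def T2 (n i : ℕ) : ℚ :=
  - 2 * 256 ^ (n - 1) * (-27) ^ i * hg (2 * (n : ℤ) - 3 - 3 * i) * hg (n : ℤ) ^ 2 * hg (i : ℤ) *
    rf ((n : ℤ) - 1 - i) ^ 2 / ((2 * n - 2)! : ℚ)

/-- second transformation: the certificate -/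
noncomputable def R2 (n i : ℕ) : ℚ :=
  - 256 ^ n * (-27) ^ i * hg (2 * (n : ℤ) - 3 * i) * hg (n : ℤ) ^ 2 * hg (i : ℤ) *
    rf ((n : ℤ) - i) ^ 2 / ((2 * n)! : ℚ) * (8 * (n : ℚ) + 1 - 6 * i)

theorem hg2 (x : ℤ) : hg (x + 2) = ((x : ℚ) + 3 / 2) * ((x : ℚ) + 1 / 2) * hg x := by
  rw [show x + 2 = x + 1 + 1 by ring, hg_step, hg_step]; push_cast; ring

theorem hg3 (x : ℤ) : hg (x + 3) = ((x : ℚ) + 5 / 2) * ((x : ℚ) + 3 / 2) * ((x : ℚ) + 1 / 2) * hg x := by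
  rw [show x + 3 = x + 2 + 1 by ring, hg_step, hg2]; push_cast; ring

theorem wz2 (n i : ℕ) (hn : 1 ≤ n) : T2 (n + 1) i - 2304 * T2 n i = R2 n (i + 1) - R2 n i := by
  unfold T2 R2
  have e1 : rf (((n + 1 : ℕ) : ℤ) - 1 - i) = rf ((n : ℤ) - i) := by
    rw [show ((n + 1 : ℕ) : ℤ) - 1 - i = (n : ℤ) - i by push_cast; ring]
  have e3 : rf ((n : ℤ) - 1 - i) = ((n : ℚ) - i) * rf ((n : ℤ) - i) := by
    rw [rf_step, show (n : ℤ) - 1 - i + 1 = (n : ℤ) - i by ring]; push_cast; ring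
  have e5 : rf ((n : ℤ) - (i + 1 : ℕ)) = ((n : ℚ) - i) * rf ((n : ℤ) - i) := by
    rw [← e3, show (n : ℤ) - (i + 1 : ℕ) = (n : ℤ) - 1 - i by push_cast; ring]
  have g1 : hg (2 * ((n + 1 : ℕ) : ℤ) - 3 - 3 * i) = (2 * (n : ℚ) - 3 * i - 3 / 2) *
      (2 * (n : ℚ) - 3 * i - 5 / 2) * hg (2 * (n : ℤ) - 3 - 3 * i) := by
    rw [show 2 * ((n + 1 : ℕ) : ℤ) - 3 - 3 * i = (2 * (n : ℤ) - 3 - 3 * i) + 2 by push_cast; ring, hg2]
    push_cast; ring
  have g3 : hg ((n + 1 : ℕ) : ℤ) = ((n : ℚ) + 1 / 2) * hg (n : ℤ) := by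
    rw [show ((n + 1 : ℕ) : ℤ) = (n : ℤ) + 1 by push_cast; ring, hg_step]
    push_cast; ring
  have g4 : hg ((i + 1 : ℕ) : ℤ) = ((i : ℚ) + 1 / 2) * hg (i : ℤ) := by
    rw [show ((i + 1 : ℕ) : ℤ) = (i : ℤ) + 1 by push_cast; ring, hg_step]
    push_cast; ring
  have g5 : hg (2 * (n : ℤ) - 3 * (i + 1 : ℕ)) = hg (2 * (n : ℤ) - 3 - 3 * i) := by
    rw [show 2 * (n : ℤ) - 3 * (i + 1 : ℕ) = 2 * (n : ℤ) - 3 - 3 * i by push_cast; ring]
  have g6 : hg (2 * (n : ℤ) - 3 * i) = (2 * (n : ℚ) - 3 * i - 1 / 2) *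
      (2 * (n : ℚ) - 3 * i - 3 / 2) * (2 * (n : ℚ) - 3 * i - 5 / 2) *
      hg (2 * (n : ℤ) - 3 - 3 * i) := by
    rw [show 2 * (n : ℤ) - 3 * i = (2 * (n : ℤ) - 3 - 3 * i) + 3 by ring, hg3]
    push_cast; ring
  have f2 : 2 * (n + 1) - 2 = 2 * n := by omega
  have f3 : (256 : ℚ) ^ n = 256 * 256 ^ (n - 1) := by
    obtain ⟨j, rfl⟩ : ∃ j, n = j + 1 := ⟨n - 1, by omega⟩
    rw [Nat.add_sub_cancel, pow_succ]; ring
  have f4 : n + 1 - 1 = n := rfl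
  have f1 : ((2 * n)! : ℚ) = (2 * n) * (2 * n - 1) * ((2 * n - 2)! : ℚ) := by
    obtain ⟨j, hj⟩ : ∃ j, 2 * n - 2 = j := ⟨_, rfl⟩
    have hj2 : 2 * n = j + 1 + 1 := by omega
    have hj3 : (2 * (n : ℚ)) = j + 2 := by
      have : 2 * n = j + 2 := by omega
      exact_mod_cast this
    rw [hj, hj2, Nat.factorial_succ, Nat.factorial_succ, hj3]
    push_cast; ring
  have f5 : ((2 * n - 2)! : ℚ)⁻¹ = (2 * n) * (2 * n - 1) * ((2 * n)! : ℚ)⁻¹ := by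
    rw [← div_eq_mul_inv, eq_div_iff (by positivity), f1]
    have z1 : ((2 * n - 2)! : ℚ) ≠ 0 := by positivity
    field_simp
  rw [e1, e3, e5, g1, g3, g4, g5, g6, f2, f4, f3, pow_succ (-27 : ℚ) i]
  simp only [div_eq_mul_inv] at f5 ⊢
  rw [f5]
  clear e1 e3 e5 g1 g3 g4 g5 g6 f1 f2 f3 f4 f5
  generalize hg (2 * (n : ℤ) - 3 - 3 * i) = H1
  generalize hg (i : ℤ) = H2
  generalize hg (n : ℤ) = H3
  generalize rf ((n : ℤ) - i) = H4
  generalize ((2 * n)! : ℚ)⁻¹ = H6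
  push_cast
  ring

theorem R2_zero (n : ℕ) : R2 n 0 = - ((8 * (n : ℚ) + 1) * M n) := by
  have h1 : rf ((n : ℤ) - (0 : ℕ)) = 1 / (n ! : ℚ) := by
    rw [← rf_nat n]; simp
  have h3 : hg (2 * (n : ℤ) - 3 * (0 : ℕ)) = ((4 * n)! : ℚ) / (16 ^ n * (2 * n)!) := by
    rw [show 2 * (n : ℤ) - 3 * (0 : ℕ) = ((2 * n : ℕ) : ℤ) by push_cast; ring, hg_nat,
      show 2 * (2 * n) = 4 * n by ring, pow_mul]
    norm_num
  have h4 : hg ((0 : ℕ) : ℤ) = 1 := by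
    rw [hg_nat]; norm_num
  have h6 : (256 : ℚ) ^ n = 16 ^ n * 4 ^ n * 4 ^ n := by
    rw [← mul_pow, ← mul_pow]; norm_num
  unfold R2 M
  rw [h1, h3, h4, h6, hg_nat]
  have z2 : (n ! : ℚ) ≠ 0 := by positivity
  have z3 : ((2 * n)! : ℚ) ≠ 0 := by positivity
  have z4 : ((4 * n)! : ℚ) ≠ 0 := by positivity
  simp only [Nat.cast_zero]
  field_simp
  ring

theorem R2_top (n : ℕ) : R2 n (n + 1) = 0 := by
  unfold R2
  rw [rf_neg (by push_cast; omega : (n : ℤ) - ((n + 1 : ℕ) : ℤ) < 0)]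
  ring

theorem T2_top (n : ℕ) : T2 n n = 0 := by
  unfold T2
  rw [rf_neg (by omega : (n : ℤ) - 1 - n < 0)]
  ring

theorem T2_one : T2 1 0 = (8 * ((0 : ℕ) : ℚ) + 1) * M 0 := by
  have h1 : rf (((1 : ℕ) : ℤ) - 1 - (0 : ℕ)) = 1 := by
    rw [show ((1 : ℕ) : ℤ) - 1 - (0 : ℕ) = 0 by norm_num]; exact rf_zero
  have h3 : hg (2 * ((1 : ℕ) : ℤ) - 3 - 3 * (0 : ℕ)) = -2 := by
    rw [show 2 * ((1 : ℕ) : ℤ) - 3 - 3 * (0 : ℕ) = -((1 : ℕ) : ℤ) by norm_num, hg_neg]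
    norm_num [Nat.factorial]
  have h4 : hg ((0 : ℕ) : ℤ) = 1 := by
    rw [hg_nat]; norm_num
  have h5 : hg ((1 : ℕ) : ℤ) = 1 / 2 := by
    rw [hg_nat]
    norm_num [Nat.factorial]
  unfold T2 M
  rw [h1, h3, h4, h5]
  norm_num [Nat.factorial]

/-- the essential part of the terms of the second transformation, `n = i + m + 1` -/
noncomputable def x2 (i m : ℕ) : ℚ :=
  (hg (2 * (m : ℤ) - i - 1) * hg ((i : ℤ) + m + 1) * hg ((i : ℤ) + m + 1) * hg (i : ℤ) *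
    ((i + m)! : ℚ) * ((i + m + 1)! : ℚ)) /
    ((m ! : ℚ) * (m ! : ℚ) * ((2 * i + 2 * m)! : ℚ) * ((2 * i + 2 * m + 3)! : ℚ))

/-- the terms of the second transformation -/
noncomputable def t2 (i m : ℕ) : ℚ := ((-256 ^ (i + m) : ℤ) : ℚ) * (x2 i m * (-27) ^ i)

theorem b_eq2 (n : ℕ) (hn : 1 ≤ n) : b n = ∑ i ∈ range n, t2 i (n - 1 - i) := by
  have hS := wz_sum' 2304 (fun k => (8 * (k : ℚ) + 1) * M k) T2 R2 (fun n k h1 _ => wz2 n k h1)
    (fun n _ => R2_zero n) (fun n _ => R2_top n) (fun n _ => T2_top n) T2_one n hn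
  unfold b
  rw [hS, Finset.sum_div]
  refine Finset.sum_congr rfl fun i hi => ?_
  have hi' := Finset.mem_range.mp hi
  obtain ⟨m, hm⟩ : ∃ m, n = i + m + 1 := ⟨n - 1 - i, by omega⟩
  subst hm
  rw [norm_eq]
  have h1 : rf (((i + m + 1 : ℕ) : ℤ) - 1 - i) = 1 / (m ! : ℚ) := by
    rw [show ((i + m + 1 : ℕ) : ℤ) - 1 - i = (m : ℤ) by push_cast; ring, rf_nat]
  have h3 : 2 * (i + m + 1) - 2 = 2 * i + 2 * m := by omega
  have h4 : i + m + 1 - 1 - i = m := by omega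
  have h6 : hg (2 * ((i + m + 1 : ℕ) : ℤ) - 3 - 3 * i) = hg (2 * (m : ℤ) - i - 1) := by
    rw [show 2 * ((i + m + 1 : ℕ) : ℤ) - 3 - 3 * i = 2 * (m : ℤ) - i - 1 by push_cast; ring]
  have h7 : hg ((i + m + 1 : ℕ) : ℤ) = hg ((i : ℤ) + m + 1) := by
    congr 1
  have h8 : i + m + 1 - 1 = i + m := rfl
  unfold T2 t2 x2
  rw [h1, h3, h4, h6, h7, h8, show 2 * (i + m) + 3 = 2 * i + 2 * m + 3 by ring]
  have z1 : (m ! : ℚ) ≠ 0 := by positivity
  have z2 : ((i + m)! : ℚ) ≠ 0 := by positivity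
  have z3 : ((2 * i + 2 * m + 3)! : ℚ) ≠ 0 := by positivity
  have z4 : ((2 * i + 2 * m)! : ℚ) ≠ 0 := by positivity
  push_cast
  field_simp
  try ring

/-- valuation count, `n = i + m + 1` -/
def W2 (q n i : ℤ) : ℤ :=
  ((2 * (2 * n - 3 * i - 3) + q) / (2 * q) + (2 * n + q) / (2 * q) + (2 * n + q) / (2 * q) +
    (2 * i + q) / (2 * q) + (n - 1) / q + n / q) -
    ((n - 1 - i) / q + (n - 1 - i) / q + (2 * n - 2) / q + (2 * n + 1) / q)

theorem W2_aux (q n i : ℤ) (hq : 3 ≤ q) (hodd : q % 2 = 1) (hi : 0 ≤ i) :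
    (-1 ≤ W2 q n i) ∧ (6 * i + 9 ≤ q → 0 ≤ W2 q n i) := by
  have h0 : q ≠ 0 := by omega
  have hq0 : 0 < q := by omega
  have h20 : 2 * q ≠ 0 := by omega
  obtain ⟨b, y, hy0, hy1, rfl⟩ : ∃ b y : ℤ, 0 ≤ y ∧ y < q ∧ i = y + q * b :=
    ⟨i / q, i % q, Int.emod_nonneg _ h0, Int.emod_lt_of_pos _ hq0, (Int.emod_add_mul_ediv i q).symm⟩
  obtain ⟨c, u, hu0, hu1, rfl⟩ : ∃ c u : ℤ, 0 ≤ u ∧ u < q ∧ n = u + q * c :=
    ⟨n / q, n % q, Int.emod_nonneg _ h0, Int.emod_lt_of_pos _ hq0, (Int.emod_add_mul_ediv n q).symm⟩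
  have hb : 6 * (y + q * b) + 9 ≤ q → 6 * y + 9 ≤ q := by
    intro h
    have hb0 : 0 ≤ b := by
      by_contra hneg
      have : q * b ≤ q * (-1) := mul_le_mul_of_nonneg_left (by omega) hq0.le
      omega
    have : 0 ≤ q * b := by positivity
    omega
  unfold W2
  generalize hD : (6 * (y + q * b) + 9 ≤ q) = D at *
  rw [show 2 * (2 * (u + q * c) - 3 * (y + q * b) - 3) + q
      = (4 * u - 6 * y - 6 + q) + (2 * q) * (2 * c - 3 * b) by ring,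
    show 2 * (u + q * c) + q = (2 * u + q) + (2 * q) * c by ring,
    show 2 * (y + q * b) + q = (2 * y + q) + (2 * q) * b by ring,
    show u + q * c - 1 - (y + q * b) = (u - 1 - y) + q * (c - b) by ring,
    show u + q * c - 1 = (u - 1) + q * c by ring,
    show 2 * (u + q * c) - 2 = (2 * u - 2) + q * (2 * c) by ring,
    show 2 * (u + q * c) + 1 = (2 * u + 1) + q * (2 * c) by ring]
  simp only [Int.add_mul_ediv_left _ _ h0, Int.add_mul_ediv_left _ _ h20]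
  rw [Int.ediv_eq_zero_of_lt hu0 hu1]
  obtain ⟨l2, u2, c2, d2⟩ := fl_spec (4 * u - 6 * y - 6 + q) (2 * q) (-3) 2 (by omega) (by linarith) (by linarith)
  obtain ⟨l3, u3, c3, d3⟩ := fl_spec (2 * u + q) (2 * q) 0 1 (by omega) (by linarith) (by linarith)
  obtain ⟨l4, u4, c4, d4⟩ := fl_spec (u - 1) q (-1) 0 hq0 (by linarith) (by linarith)
  obtain ⟨l5, u5, c5, d5⟩ := fl_spec (u - 1 - y) q (-1) 0 hq0 (by linarith) (by linarith)
  obtain ⟨l6, u6, c6, d6⟩ := fl_spec (2 * y + q) (2 * q) 0 1 (by omega) (by linarith) (by linarith)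
  obtain ⟨l7, u7, c7, d7⟩ := fl_spec (2 * u - 2) q (-1) 1 hq0 (by linarith) (by linarith)
  obtain ⟨l8, u8, c8, d8⟩ := fl_spec (2 * u + 1) q 0 1 hq0 (by linarith) (by linarith)
  generalize (4 * u - 6 * y - 6 + q) / (2 * q) = X2 at *
  generalize (2 * u + q) / (2 * q) = X3 at *
  generalize (u - 1) / q = X4 at *
  generalize (u - 1 - y) / q = X5 at *
  generalize (2 * y + q) / (2 * q) = X6 at *
  generalize (2 * u - 2) / q = X7 at *
  generalize (2 * u + 1) / q = X8 at *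
  clear hD
  obtain ⟨r, rfl⟩ : ∃ r, q = 2 * r + 1 := ⟨q / 2, by omega⟩
  refine ⟨?_, fun h => ?_⟩
  · clear hb
    interval_cases X7 <;> interval_cases X8 <;> (try omega) <;> interval_cases X3 <;> (try omega) <;>
      interval_cases X4 <;> (try omega) <;>
      interval_cases X5 <;> (try omega) <;> interval_cases X6 <;> (try omega) <;>
      interval_cases X2 <;> omega
  · have h3 := hb h
    clear hb h
    interval_cases X7 <;> interval_cases X8 <;> (try omega) <;> interval_cases X3 <;> (try omega) <;>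
      interval_cases X4 <;> (try omega) <;>
      interval_cases X5 <;> (try omega) <;> interval_cases X6 <;> (try omega) <;>
      interval_cases X2 <;> omega

theorem x2_val {p : ℕ} [hp : Fact p.Prime] (h2 : p ≠ 2) (i m : ℕ) :
    HasVal p (x2 i m) (fun l => W2 ((p : ℤ) ^ l) ((i : ℤ) + m + 1) i) := by
  unfold x2
  refine ((((((HasVal.hgv h2 (2 * (m : ℤ) - i - 1)).mul (HasVal.hgv h2 ((i : ℤ) + m + 1))).mul
    (HasVal.hgv h2 ((i : ℤ) + m + 1))).mul (HasVal.hgv h2 (i : ℤ))).mul (HasVal.fac (i + m))).mul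
    (HasVal.fac (i + m + 1))).div ((((HasVal.fac m).mul (HasVal.fac m)).mul
    (HasVal.fac (2 * i + 2 * m))).mul (HasVal.fac (2 * i + 2 * m + 3))) |>.congr fun l _ => ?_
  unfold W2
  push_cast
  rw [show 2 * ((i : ℤ) + m + 1) - 3 * i - 3 = 2 * m - i - 1 by ring,
    show (i : ℤ) + m + 1 - 1 - i = m by ring, show (i : ℤ) + m + 1 - 1 = i + m by ring,
    show 2 * ((i : ℤ) + m + 1) - 2 = 2 * i + 2 * m by ring,
    show 2 * ((i : ℤ) + m + 1) + 1 = 2 * i + 2 * m + 3 by ring]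

end Pool.Agent.R440.E815B
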