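import Mathlib
import Pool.Agent.R440.E815B
import Pool.Agent.R440.E815A2

/-!
# The normalised (8j+1) sums: integrality
-/

set_option autoImplicit false

namespace Pool.Agent.R440.E815B

open Finset Nat Pool.Agent.R440

local instance : Fact (Nat.Prime 2) := ⟨Nat.prime_two⟩
local instance : Fact (Nat.Prime 3) := ⟨Nat.prime_three⟩

theorem val27' (k : ℕ) : padicValRat 3 ((-27 : ℚ) ^ k) = 3 * k := by
  have h := E815A.val27 k
  rw [show (-27 : ℚ) = (-1) * 27 by norm_num, mul_pow]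
  rcases neg_one_pow_eq_or ℚ k with h5 | h5
  · rw [h5, one_mul, h]
  · rw [h5, neg_one_mul, padicValRat.neg, h]

theorem pow_big (i l : ℕ) (hi : 1 ≤ i) (hl : 3 * i < l) : 6 * (i : ℤ) + 9 ≤ 3 ^ l := by
  have h1 : 3 ^ (3 * i + 1) ≤ 3 ^ l := Nat.pow_le_pow_right (by norm_num) (by omega)
  have h2 : 6 * i + 9 ≤ 3 ^ (3 * i + 1) := by
    clear h1 hl
    induction i with
    | zero => omega
    | succ j ih =>
      rcases Nat.eq_zero_or_pos j with hj | hj
      · subst hj; norm_num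
      · have := ih hj
        rw [show 3 * (j + 1) + 1 = (3 * j + 1) + 3 by ring, pow_add]
        omega
  have h3 : 6 * i + 9 ≤ 3 ^ l := h2.trans h1
  exact_mod_cast h3

theorem odd_pow_three (l : ℕ) (hl : 1 ≤ l) :
    (3 : ℤ) ≤ ((3 : ℕ) : ℤ) ^ l ∧ (((3 : ℕ) : ℤ) ^ l) % 2 = 1 := by
  have h3 := three_le_pow hl
  have h4 := odd_three_pow l
  exact ⟨by exact_mod_cast h3, by exact_mod_cast h4⟩

theorem t2_mem_three (i m : ℕ) (hi : 1 ≤ i) : t2 i m ∈ Zp 3 := by
  unfold t2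
  refine (Zp 3).mul_mem (intCast_mem_Zp _) ?_
  refine (x2_val (p := 3) (by norm_num) i m).mul_mem_of_le (3 * i) ?_ ?_ fun l hl => ?_
  · exact pow_ne_zero _ (by norm_num)
  · rw [val27']; push_cast; linarith
  · obtain ⟨h3, h4⟩ := odd_pow_three l hl
    have hf := W2_aux (((3 : ℕ) : ℤ) ^ l) ((i : ℤ) + m + 1) i h3 h4 (by omega)
    by_cases hc : l ≤ 3 * i
    · rw [if_pos hc]; exact hf.1
    · rw [if_neg hc]
      have := hf.2 (by exact_mod_cast pow_big i l hi (by omega))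
      simpa using this

theorem unit256 (k : ℕ) : padicValRat 3 ((-256 ^ k : ℤ) : ℚ) = 0 := by
  push_cast
  rw [padicValRat.neg, show (256 : ℚ) ^ k = 4 ^ (4 * k) by rw [pow_mul]; norm_num]
  exact val_four_pow (by norm_num) _

theorem t2_zero_val (m : ℕ) :
    HasVal 3 (t2 0 m) (fun l => W2 (((3 : ℕ) : ℤ) ^ l) ((m : ℤ) + 1) 0) := by
  unfold t2
  rw [pow_zero, mul_one, mul_comm]
  refine ((x2_val (p := 3) (by norm_num) 0 m).mul_unit ?_ (unit256 _)).congr fun l _ => ?_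
  · have : (256 : ℚ) ^ (0 + m) ≠ 0 := by positivity
    push_cast
    exact neg_ne_zero.mpr this
  · push_cast
    rw [zero_add]

theorem W2_zero_three (n : ℤ) (h : ¬ (3 : ℤ) ∣ 2 * n + 1) : 0 ≤ W2 3 n 0 := by
  unfold W2
  obtain ⟨c, hc⟩ : ∃ c, n = 3 * c ∨ n = 3 * c + 2 := ⟨n / 3, by omega⟩
  rcases hc with rfl | rfl
  · omega
  · omega

theorem W2_zero_level (q n : ℤ) (h1 : q ≤ 4 * n - 6) (h2 : 4 * n - 6 < 3 * q) (hodd : q % 2 = 1)
    (h3 : q ≠ 2 * n - 1) (h4 : q ≠ 2 * n + 1) (h9 : 9 ≤ q) : 1 ≤ W2 q n 0 := by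
  unfold W2
  have hq0 : 0 < q := by omega
  have h20 : 0 < 2 * q := by omega
  simp only [mul_zero, zero_add, sub_zero]
  have e1 : q / (2 * q) = 0 := Int.ediv_eq_zero_of_lt (by omega) (by omega)
  have e3 : n / q = 0 := Int.ediv_eq_zero_of_lt (by omega) (by omega)
  have e4 : (n - 1) / q = 0 := Int.ediv_eq_zero_of_lt (by omega) (by omega)
  rw [e1, e3, e4]
  obtain ⟨l1, u1, c1, d1⟩ := fl_spec (2 * (2 * n - 3) + q) (2 * q) 0 2 h20 (by linarith) (by linarith)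
  obtain ⟨l2, u2, c2, d2⟩ := fl_spec (2 * n + q) (2 * q) 0 2 h20 (by linarith) (by linarith)
  obtain ⟨l3, u3, c3, d3⟩ := fl_spec (2 * n - 2) q 0 2 hq0 (by linarith) (by linarith)
  obtain ⟨l5, u5, c5, d5⟩ := fl_spec (2 * n + 1) q 0 2 hq0 (by linarith) (by linarith)
  generalize (2 * (2 * n - 3) + q) / (2 * q) = X1 at *
  generalize (2 * n + q) / (2 * q) = X2 at *
  generalize (2 * n - 2) / q = X3 at *
  generalize (2 * n + 1) / q = X5 at *
  obtain ⟨r, rfl⟩ : ∃ r, q = 2 * r + 1 := ⟨q / 2, by omega⟩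
  interval_cases X5 <;> interval_cases X3 <;> (try omega) <;> interval_cases X2 <;> (try omega) <;>
    interval_cases X1 <;> omega

/-- the first term when `2n+1` is not a power of `3` -/
theorem t2_zero_mem (m : ℕ) (h : ¬ ∃ M : ℕ, 2 * m + 3 = 3 ^ M) : t2 0 m ∈ Zp 3 := by
  by_cases hd : 3 ∣ 2 * m + 3
  · have hm0 : m ≠ 0 := by
      rintro rfl
      exact h ⟨1, by norm_num⟩
    have hm3 : 3 ≤ m := by omega
    obtain ⟨L, hL⟩ : ∃ L, L = Nat.log 3 (4 * m - 2) := ⟨_, rfl⟩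
    have h1 : 4 * m - 2 < 3 ^ (L + 1) := by
      rw [hL]; exact Nat.lt_pow_succ_log_self (by norm_num) _
    have h2 : 3 ^ L ≤ 4 * m - 2 := by
      rw [hL]; exact Nat.pow_log_le_self 3 (by omega)
    have hL2 : 2 ≤ L := by
      by_contra hc
      have hc' : L + 1 ≤ 2 := by omega
      have : 3 ^ (L + 1) ≤ 3 ^ 2 := Nat.pow_le_pow_right (by norm_num) hc'
      omega
    refine (t2_zero_val m).mem_of_bonus L (by omega) fun l hl => ?_
    obtain ⟨h3, h4⟩ := odd_pow_three l hl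
    have hf := W2_aux (((3 : ℕ) : ℤ) ^ l) ((m : ℤ) + 1) 0 h3 h4 (by omega)
    by_cases h5 : l = L
    · subst h5
      rw [if_neg (by omega), if_pos rfl]
      have hodd := odd_three_pow l
      have h9 := nine_le_pow hL2
      have hne : 2 * m + 3 ≠ 3 ^ l := fun hc => h ⟨l, hc⟩
      have hq3 : 3 ∣ 3 ^ l := dvd_pow_self 3 (by omega)
      rw [pow_succ] at h1
      have hqz : (((3 : ℕ) : ℤ) ^ l) = ((3 ^ l : ℕ) : ℤ) := by push_cast; rfl
      rw [hqz]
      have := W2_zero_level ((3 ^ l : ℕ) : ℤ) ((m : ℤ) + 1) (by omega) (by omega) (by omega) (by omega)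
        (by omega) (by omega)
      linarith
    · rw [if_neg h5]
      by_cases h6 : l = 1
      · rw [if_pos h6]; linarith [hf.1]
      · rw [if_neg h6]
        have h9 := nine_le_pow (l := l) (by omega)
        have := hf.2 (by
          have : (9 : ℤ) ≤ ((3 : ℕ) : ℤ) ^ l := by exact_mod_cast h9
          linarith)
        linarith
  · refine (t2_zero_val m).mem fun l hl => ?_
    by_cases h5 : l = 1
    · subst h5
      rw [pow_one]
      have := W2_zero_three ((m : ℤ) + 1) (by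
        intro hc
        apply hd
        have : (3 : ℤ) ∣ ((2 * m + 3 : ℕ) : ℤ) := by
          push_cast
          convert hc using 1
          ring
        exact_mod_cast this)
      exact_mod_cast this
    · obtain ⟨h3, h4⟩ := odd_pow_three l hl
      have hf := W2_aux (((3 : ℕ) : ℤ) ^ l) ((m : ℤ) + 1) 0 h3 h4 (by omega)
      have h9 := nine_le_pow (l := l) (by omega)
      exact hf.2 (by
        have : (9 : ℤ) ≤ ((3 : ℕ) : ℤ) ^ l := by exact_mod_cast h9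
        linarith)

/-- the first term when `2n+1` is a power of `3` -/
theorem t2_zero_not_mem (m M : ℕ) (h : 2 * m + 3 = 3 ^ M) : t2 0 m ∉ Zp 3 := by
  refine (t2_zero_val m).not_mem_of_loss fun l hl => ?_
  have hqz : (((3 : ℕ) : ℤ) ^ l) = ((3 ^ l : ℕ) : ℤ) := by push_cast; rfl
  rw [hqz]
  unfold W2
  simp only [mul_zero, zero_add, sub_zero]
  rcases lt_or_ge M l with hlt | hge
  · -- `q > 2n+1`: all floors vanish
    have hq : 3 * 3 ^ M ≤ 3 ^ l := by
      calc 3 * 3 ^ M = 3 ^ (M + 1) := by rw [pow_succ]; ring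
        _ ≤ 3 ^ l := Nat.pow_le_pow_right (by norm_num) (by omega)
    have hl1 : l ≠ 1 := by
      rintro rfl
      have : M = 0 := by omega
      subst this
      omega
    rw [if_neg hl1]
    generalize 3 ^ l = q at *
    rw [Int.ediv_eq_zero_of_lt (by omega : (0 : ℤ) ≤ 2 * (2 * ((m : ℤ) + 1) - 3) + q) (by omega),
      Int.ediv_eq_zero_of_lt (by omega : (0 : ℤ) ≤ 2 * ((m : ℤ) + 1) + q) (by omega),
      Int.ediv_eq_zero_of_lt (by omega : (0 : ℤ) ≤ (q : ℤ)) (by omega),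
      Int.ediv_eq_zero_of_lt (by omega : (0 : ℤ) ≤ (m : ℤ) + 1 - 1) (by omega),
      Int.ediv_eq_zero_of_lt (by omega : (0 : ℤ) ≤ (m : ℤ) + 1) (by omega),
      Int.ediv_eq_zero_of_lt (by omega : (0 : ℤ) ≤ 2 * ((m : ℤ) + 1) - 2) (by omega),
      Int.ediv_eq_zero_of_lt (by omega : (0 : ℤ) ≤ 2 * ((m : ℤ) + 1) + 1) (by omega)]
    norm_num
  · -- `q ∣ 2n+1`
    obtain ⟨j, rfl⟩ : ∃ j, M = l + j := ⟨M - l, by omega⟩
    have hq3 := three_le_pow hl
    have hq9 : l ≠ 1 → 9 ≤ 3 ^ l := fun hne => nine_le_pow (by omega)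
    have hql : l = 1 → 3 ^ l = 3 := by
      rintro rfl; norm_num
    have hqo := odd_three_pow l
    obtain ⟨κ, hκ⟩ : ∃ κ, 3 ^ j = 2 * κ + 1 := ⟨3 ^ j / 2, by have := odd_three_pow j; omega⟩
    rw [pow_add, hκ] at h
    generalize 3 ^ l = q at *
    obtain ⟨r, rfl⟩ : ∃ r, q = 2 * r + 3 := ⟨(q - 3) / 2, by omega⟩
    have hm : m = r + (2 * r + 3) * κ := by nlinarith
    subst hm
    have h0 : ((2 * r + 3 : ℕ) : ℤ) ≠ 0 := by positivity
    have h20 : (2 * (2 * (r : ℤ) + 3)) ≠ 0 := by positivity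
    push_cast at h0 ⊢
    rw [show 2 * (2 * ((r : ℤ) + (2 * r + 3) * κ + 1) - 3) + (2 * r + 3)
        = (6 * r + 1) + (2 * (2 * r + 3)) * (2 * κ) by ring,
      show 2 * ((r : ℤ) + (2 * r + 3) * κ + 1) + (2 * r + 3) = (4 * r + 5) + (2 * (2 * r + 3)) * κ by ring,
      show ((r : ℤ) + (2 * r + 3) * κ + 1 - 1) = r + (2 * r + 3) * κ by ring,
      show ((r : ℤ) + (2 * r + 3) * κ + 1) = (r + 1) + (2 * r + 3) * κ by ring,
      show 2 * (((r : ℤ) + 1) + (2 * r + 3) * κ) - 2 = 2 * r + (2 * r + 3) * (2 * κ) by ring,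
      show 2 * (((r : ℤ) + 1) + (2 * r + 3) * κ) + 1 = 0 + (2 * r + 3) * (2 * κ + 1) by ring]
    simp only [Int.add_mul_ediv_left _ _ h0, Int.add_mul_ediv_left _ _ h20]
    rw [Int.ediv_eq_zero_of_lt (by omega : (0 : ℤ) ≤ 4 * (r : ℤ) + 5) (by omega),
      Int.ediv_eq_zero_of_lt (by omega : (0 : ℤ) ≤ 2 * (r : ℤ) + 3) (by omega),
      Int.ediv_eq_zero_of_lt (by omega : (0 : ℤ) ≤ (r : ℤ)) (by omega),
      Int.ediv_eq_zero_of_lt (by omega : (0 : ℤ) ≤ (r : ℤ) + 1) (by omega),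
      Int.ediv_eq_zero_of_lt (by omega : (0 : ℤ) ≤ 2 * (r : ℤ)) (by omega),
      Int.ediv_eq_zero_of_lt (by omega : (0 : ℤ) ≤ (0 : ℤ)) (by omega)]
    by_cases hl1 : l = 1
    · have := hql hl1
      have hr : r = 0 := by omega
      subst hr
      rw [if_pos hl1]
      norm_num
      linarith
    · have h9 := hq9 hl1
      rw [if_neg hl1]
      have h4 : (6 * (r : ℤ) + 1) / (2 * (2 * r + 3)) = 1 := by
        rw [show 6 * (r : ℤ) + 1 = (2 * r - 5) + (2 * (2 * r + 3)) * 1 by ring,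
          Int.add_mul_ediv_left _ _ h20, Int.ediv_eq_zero_of_lt (by omega) (by omega)]
        norm_num
      rw [h4]
      linarith

theorem three_t2_zero_mem (m : ℕ) : 3 * t2 0 m ∈ Zp 3 := by
  rw [mul_comm]
  refine (t2_zero_val m).mul_mem_of_le 1 (by norm_num) ?_ fun l hl => ?_
  · have : padicValRat 3 (3 : ℚ) = 1 := by
      have := padicValRat.self (p := 3) (by norm_num)
      exact_mod_cast this
    rw [this]; norm_num
  · obtain ⟨h3, h4⟩ := odd_pow_three l hl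
    have hf := W2_aux (((3 : ℕ) : ℤ) ^ l) ((m : ℤ) + 1) 0 h3 h4 (by omega)
    by_cases h6 : l ≤ 1
    · rw [if_pos h6]; exact hf.1
    · rw [if_neg h6]
      have h9 := nine_le_pow (l := l) (by omega)
      have := hf.2 (by
        have : (9 : ℤ) ≤ ((3 : ℕ) : ℤ) ^ l := by exact_mod_cast h9
        linarith)
      simpa using this

theorem main (n : ℕ) (hn : 2 ≤ n) :
    ((¬ ∃ M : ℕ, 2 * n + 1 = 3 ^ M) → ∃ z : ℤ, b n = z) ∧
    ((∃ M : ℕ, 2 * n + 1 = 3 ^ M) → ∃ z : ℤ, 3 * b n = z ∧ ¬ (3 : ℤ) ∣ z) := by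
  obtain ⟨m, rfl⟩ : ∃ m, n = m + 1 := ⟨n - 1, by omega⟩
  have hsum : b (m + 1) = t2 0 m + ∑ i ∈ range m, t2 (i + 1) (m + 1 - 1 - (i + 1)) := by
    rw [b_eq2 (m + 1) (by omega), Finset.sum_range_succ']
    rw [add_comm]
    congr 1
  have htail : ∑ i ∈ range m, t2 (i + 1) (m + 1 - 1 - (i + 1)) ∈ Zp 3 :=
    (Zp 3).sum_mem fun i _ => t2_mem_three _ _ (by omega)
  have hother : ∀ (p : ℕ) [hp : Fact p.Prime], p ≠ 3 →
      t2 0 m + ∑ i ∈ range m, t2 (i + 1) (m + 1 - 1 - (i + 1)) ∈ Zp p := by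
    intro p hp hne
    rw [← hsum]
    by_cases h2 : p = 2
    · subst h2
      exact b_mem_two _ hn
    · exact b_mem h2 hne _
  have key := E815A.main_three _ _ htail hother
  rw [hsum]
  constructor
  · intro h
    refine key.1 (t2_zero_mem m ?_)
    rintro ⟨M, hM⟩
    exact h ⟨M, by rw [← hM]; ring⟩
  · rintro ⟨M, hM⟩
    exact key.2 (t2_zero_not_mem m M (by rw [← hM]; ring)) (three_t2_zero_mem m)

end Pool.Agent.R440.E815B
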