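import Mathlib

/-! The subring `ℤ_(2)` of `ℚ` (odd denominators). -/

set_option autoImplicit false

namespace Pool.Agent.R440

/-- the rational numbers with odd denominator -/
def Z2 : Subring ℚ where
  carrier := {q | ¬ 2 ∣ q.den}
  mul_mem' {a b} ha hb := fun h => by
    rcases (Nat.prime_two.dvd_mul.mp (h.trans (Rat.mul_den_dvd a b))) with h | h
    · exact ha h
    · exact hb h
  one_mem' := by simp
  add_mem' {a b} ha hb := fun h => by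
    rcases (Nat.prime_two.dvd_mul.mp (h.trans (Rat.add_den_dvd a b))) with h | h
    · exact ha h
    · exact hb h
  zero_mem' := by simp
  neg_mem' {a} ha := by simpa using ha

namespace Z2

theorem mem_iff (q : ℚ) : q ∈ Z2 ↔ ¬ 2 ∣ q.den := Iff.rfl

theorem int_mem (z : ℤ) : (z : ℚ) ∈ Z2 := by rw [mem_iff]; simp

theorem nat_mem (n : ℕ) : (n : ℚ) ∈ Z2 := by rw [mem_iff]; simp

theorem num_mem (k : ℕ) [k.AtLeastTwo] : (OfNat.ofNat k : ℚ) ∈ Z2 := by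
  have := nat_mem k
  rwa [← Nat.cast_ofNat]

theorem inv_nat_mem {n : ℕ} (hn : ¬ 2 ∣ n) : ((n : ℚ))⁻¹ ∈ Z2 := by
  rw [mem_iff, Rat.inv_natCast_den]
  split_ifs with h
  · norm_num
  · exact hn

theorem of_nat_mul {q : ℚ} {n : ℕ} (hn : ¬ 2 ∣ n) (h : (n : ℚ) * q ∈ Z2) : q ∈ Z2 := by
  have hn0 : (n : ℚ) ≠ 0 := by
    rintro h0
    have : n = 0 := by exact_mod_cast h0
    exact hn (by simp [this])
  have := Z2.mul_mem (inv_nat_mem hn) h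
  rwa [← mul_assoc, inv_mul_cancel₀ hn0, one_mul] at this

/-- residues modulo 2 -/
theorem mod_two {q : ℚ} (h : q ∈ Z2) : (∃ a ∈ Z2, q = 2 * a) ∨ (∃ a ∈ Z2, q = 1 + 2 * a) := by
  have hd : ¬ 2 ∣ q.den := h
  have hd0 : (q.den : ℚ) ≠ 0 := by exact_mod_cast q.den_ne_zero
  have hq : q = (q.num : ℚ) * (q.den : ℚ)⁻¹ := by
    rw [← div_eq_mul_inv, Rat.num_div_den]
  obtain ⟨d, hd2⟩ : ∃ d, q.den = 2 * d + 1 := ⟨q.den / 2, by omega⟩
  have hd2' : (q.den : ℚ) = 2 * d + 1 := by exact_mod_cast hd2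
  rcases Int.even_or_odd' q.num with ⟨c, hc | hc⟩
  · left
    refine ⟨(c : ℚ) * (q.den : ℚ)⁻¹, Z2.mul_mem (int_mem c) (inv_nat_mem hd), ?_⟩
    conv_lhs => rw [hq, hc]
    push_cast
    ring
  · right
    refine ⟨((c - d : ℤ) : ℚ) * (q.den : ℚ)⁻¹, Z2.mul_mem (int_mem _) (inv_nat_mem hd), ?_⟩
    conv_lhs => rw [hq, hc]
    have h1 : (1 : ℚ) = (2 * d + 1) * (q.den : ℚ)⁻¹ := by
      rw [← hd2', mul_inv_cancel₀ hd0]
    calc ((2 * c + 1 : ℤ) : ℚ) * (q.den : ℚ)⁻¹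
        = (2 * d + 1) * (q.den : ℚ)⁻¹ + 2 * (((c - d : ℤ) : ℚ) * (q.den : ℚ)⁻¹) := by
          push_cast; ring
      _ = _ := by rw [← h1]

theorem half_not_mem : ¬ ((1 / 2 : ℚ) ∈ Z2) := by
  rw [mem_iff]
  push Not
  have : (1 / 2 : ℚ).den = 2 := by norm_num
  rw [this]

theorem unit_ne {a : ℚ} (ha : a ∈ Z2) : 1 + 2 * a ≠ 0 := by
  intro h
  apply half_not_mem
  have : (1 / 2 : ℚ) = - a := by linarith
  rw [this]
  exact Z2.neg_mem ha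

theorem inv_unit {a : ℚ} (ha : a ∈ Z2) : (1 + 2 * a)⁻¹ ∈ Z2 := by
  set q := 1 + 2 * a with hq
  have hq0 : q ≠ 0 := unit_ne ha
  have hodd : ¬ (2 : ℤ) ∣ q.num := by
    rintro ⟨c, hc⟩
    have hqm : q ∈ Z2 := Z2.add_mem Z2.one_mem (Z2.mul_mem (num_mem 2) ha)
    have hd : ¬ 2 ∣ q.den := hqm
    have hd0 : (q.den : ℚ) ≠ 0 := by exact_mod_cast q.den_ne_zero
    have h1 : q = (q.num : ℚ) * (q.den : ℚ)⁻¹ := by
      rw [← div_eq_mul_inv, Rat.num_div_den]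
    have h2 : q = 2 * ((c : ℚ) * (q.den : ℚ)⁻¹) := by
      conv_lhs => rw [h1, hc]
      push_cast
      ring
    apply half_not_mem
    have h3 : (1 / 2 : ℚ) = (c : ℚ) * (q.den : ℚ)⁻¹ - a := by linarith
    rw [h3]
    exact Z2.sub_mem (Z2.mul_mem (int_mem c) (inv_nat_mem hd)) ha
  rw [mem_iff, Rat.den_inv_of_ne_zero hq0]
  intro h
  exact hodd (Int.natCast_dvd.mpr h)

theorem div_unit {b a : ℚ} (hb : b ∈ Z2) (ha : a ∈ Z2) : b / (1 + 2 * a) ∈ Z2 := by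
  rw [div_eq_mul_inv]
  exact Z2.mul_mem hb (inv_unit ha)

theorem sq_sub {a : ℚ} (ha : a ∈ Z2) : ∃ τ ∈ Z2, a ^ 2 - a = 2 * τ := by
  rcases mod_two ha with ⟨b, hb, rfl⟩ | ⟨b, hb, rfl⟩
  · exact ⟨2 * b ^ 2 - b, Z2.sub_mem (Z2.mul_mem (num_mem 2) (Z2.pow_mem hb 2)) hb, by ring⟩
  · exact ⟨b + 2 * b ^ 2, Z2.add_mem hb (Z2.mul_mem (num_mem 2) (Z2.pow_mem hb 2)), by ring⟩

end Z2

end Pool.Agent.R440
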